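import Mathlib

open Module

namespace H842

section

variable {A : Type} [Ring A] [Algebra ℚ A]

theorem fd_hom (M V : Type) [AddCommGroup M] [Module ℚ M] [Module A M] [IsScalarTower ℚ A M]
    [FiniteDimensional ℚ M] [AddCommGroup V] [Module ℚ V] [Module A V] [IsScalarTower ℚ A V]
    [FiniteDimensional ℚ V] : FiniteDimensional ℚ (M →ₗ[A] V) := by
  apply FiniteDimensional.of_injective (LinearMap.restrictScalarsₗ ℚ A M V ℚ)
  exact LinearMap.restrictScalars_injective ℚ

theorem finrank_hom_congr {M N : Type} [AddCommGroup M] [Module A M] [AddCommGroup N] [Module A N]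
    (e : M ≃ₗ[A] N) (V : Type) [AddCommGroup V] [Module ℚ V] [Module A V] [IsScalarTower ℚ A V] :
    finrank ℚ (M →ₗ[A] V) = finrank ℚ (N →ₗ[A] V) :=
  (LinearEquiv.congrLeft V ℚ e).finrank_eq

theorem finrank_hom_prod (M N V : Type) [AddCommGroup M] [Module ℚ M] [Module A M]
    [IsScalarTower ℚ A M] [FiniteDimensional ℚ M] [AddCommGroup N] [Module ℚ N] [Module A N]
    [IsScalarTower ℚ A N] [FiniteDimensional ℚ N] [AddCommGroup V] [Module ℚ V] [Module A V]
    [IsScalarTower ℚ A V] [FiniteDimensional ℚ V] :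
    finrank ℚ (M × N →ₗ[A] V) = finrank ℚ (M →ₗ[A] V) + finrank ℚ (N →ₗ[A] V) := by
  have := fd_hom (A := A) M V
  have := fd_hom (A := A) N V
  rw [← (LinearMap.coprodEquiv (R := A) (M := M) (M₂ := N) (M₃ := V) ℚ).finrank_eq,
    Module.finrank_prod]

theorem iso_of_homs [IsSemisimpleRing A] (n : ℕ) : ∀ (M N : Type) [AddCommGroup M] [Module ℚ M]
    [Module A M] [IsScalarTower ℚ A M] [FiniteDimensional ℚ M] [AddCommGroup N] [Module ℚ N]
    [Module A N] [IsScalarTower ℚ A N] [FiniteDimensional ℚ N], finrank ℚ M = n →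
    (∀ (V : Type) [AddCommGroup V] [Module ℚ V] [Module A V] [IsScalarTower ℚ A V]
      [FiniteDimensional ℚ V], finrank ℚ (M →ₗ[A] V) = finrank ℚ (N →ₗ[A] V)) →
    Nonempty (M ≃ₗ[A] N) := by
  induction n using Nat.strong_induction_on with
  | _ n ih =>
  intro M N _ _ _ _ _ _ _ _ _ _ hn h
  rcases subsingleton_or_nontrivial M with hM | hM
  · -- `M = 0`
    have h1 := h N
    have h2 : finrank ℚ (M →ₗ[A] N) = 0 := by
      have : Subsingleton (M →ₗ[A] N) := inferInstance
      exact finrank_zero_of_subsingleton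
    rw [h2] at h1
    have := fd_hom (A := A) N N
    have h3 : Subsingleton (N →ₗ[A] N) := finrank_zero_iff.1 h1.symm
    have h4 : Subsingleton N := by
      refine ⟨fun a b => ?_⟩
      have h5 : (LinearMap.id : N →ₗ[A] N) = 0 := Subsingleton.elim _ _
      have ha := LinearMap.congr_fun h5 a
      have hb := LinearMap.congr_fun h5 b
      simp at ha hb
      rw [ha, hb]
    exact ⟨⟨⟨⟨fun _ => 0, fun _ _ => by simp⟩, fun _ _ => by simp⟩, fun _ => 0,
      fun _ => Subsingleton.elim _ _, fun _ => Subsingleton.elim _ _⟩⟩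
  · obtain ⟨S, hS⟩ := IsSemisimpleModule.exists_simple_submodule A M
    obtain ⟨M', hM'⟩ := exists_isCompl S
    let e1 : (S × M') ≃ₗ[A] M := Submodule.prodEquivOfIsCompl S M' hM'
    -- nonzero map `N → S`
    have : FiniteDimensional ℚ S := FiniteDimensional.of_injective
      (S.subtype.restrictScalars ℚ) Subtype.val_injective
    have : FiniteDimensional ℚ M' := FiniteDimensional.of_injective
      (M'.subtype.restrictScalars ℚ) Subtype.val_injective
    have h1 : finrank ℚ (N →ₗ[A] S) = finrank ℚ (S →ₗ[A] S) + finrank ℚ (M' →ₗ[A] S) := by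
      rw [← h S, ← finrank_hom_congr e1, finrank_hom_prod]
    have := fd_hom (A := A) S S
    have := fd_hom (A := A) N S
    have : Nontrivial S := IsSimpleModule.nontrivial A S
    have : Nontrivial (S →ₗ[A] S) := ⟨⟨LinearMap.id, 0, by
      intro h0
      obtain ⟨a, ha⟩ := exists_ne (0 : S)
      apply ha
      simpa using LinearMap.congr_fun h0 a⟩⟩
    have h2 : 0 < finrank ℚ (S →ₗ[A] S) := finrank_pos
    have h3 : 0 < finrank ℚ (N →ₗ[A] S) := by omega
    have : Nontrivial (N →ₗ[A] S) := nontrivial_of_finrank_pos h3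
    obtain ⟨f, hf⟩ := exists_ne (0 : N →ₗ[A] S)
    have hfs : Function.Surjective f := by
      rcases LinearMap.surjective_or_eq_zero f with h | h
      · exact h
      · exact absurd h hf
    obtain ⟨T, hT⟩ := exists_isCompl (LinearMap.ker f)
    let e2 : (LinearMap.ker f × T) ≃ₗ[A] N := Submodule.prodEquivOfIsCompl _ T hT
    have : FiniteDimensional ℚ (LinearMap.ker f) := FiniteDimensional.of_injective
      ((LinearMap.ker f).subtype.restrictScalars ℚ) Subtype.val_injective
    have : FiniteDimensional ℚ T := FiniteDimensional.of_injective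
      (T.subtype.restrictScalars ℚ) Subtype.val_injective
    let e3 : T ≃ₗ[A] S := (Submodule.quotientEquivOfIsCompl (LinearMap.ker f) T hT).symm.trans
      (f.quotKerEquivOfSurjective hfs)
    have h4 : ∀ (V : Type) [AddCommGroup V] [Module ℚ V] [Module A V] [IsScalarTower ℚ A V]
      [FiniteDimensional ℚ V], finrank ℚ (M' →ₗ[A] V) = finrank ℚ (LinearMap.ker f →ₗ[A] V) := by
      intro V _ _ _ _ _
      have h5 := h V
      rw [← finrank_hom_congr e1, ← finrank_hom_congr e2, finrank_hom_prod, finrank_hom_prod,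
        finrank_hom_congr e3] at h5
      omega
    have h5 : finrank ℚ M' < n := by
      have : finrank ℚ (S × M') = finrank ℚ M := (e1.restrictScalars ℚ).finrank_eq
      rw [Module.finrank_prod, hn] at this
      have : 0 < finrank ℚ S := finrank_pos
      omega
    obtain ⟨e4⟩ := ih _ h5 M' (LinearMap.ker f) rfl h4
    exact ⟨e1.symm.trans ((LinearEquiv.prodCongr e3.symm e4).trans ((LinearEquiv.prodComm A _ _).trans e2))⟩

end


section

variable {G : Type} [Group G]

/-- the subspace fixed by a subgroup -/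
noncomputable def fixed (V : Type) [AddCommGroup V] [Module ℚ V] [Module (MonoidAlgebra ℚ G) V]
    [IsScalarTower ℚ (MonoidAlgebra ℚ G) V] (H : Subgroup G) : Submodule ℚ V :=
  Representation.invariants ((Representation.ofModule' (k := ℚ) (G := G) V).comp H.subtype)

theorem ofModule'_apply (V : Type) [AddCommGroup V] [Module ℚ V] [Module (MonoidAlgebra ℚ G) V]
    [IsScalarTower ℚ (MonoidAlgebra ℚ G) V] (g : G) (v : V) :
    Representation.ofModule' (k := ℚ) (G := G) V g v = MonoidAlgebra.of ℚ G g • v := by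
  simp [Representation.ofModule']

theorem mem_fixed {V : Type} [AddCommGroup V] [Module ℚ V] [Module (MonoidAlgebra ℚ G) V]
    [IsScalarTower ℚ (MonoidAlgebra ℚ G) V] {H : Subgroup G} {v : V} :
    v ∈ fixed V H ↔ ∀ h ∈ H, MonoidAlgebra.of ℚ G h • v = v := by
  unfold fixed
  rw [Representation.mem_invariants]
  constructor
  · intro h g hg
    have := h ⟨g, hg⟩
    simpa [ofModule'_apply] using this
  · intro h g
    have := h g g.2
    simpa [ofModule'_apply] using this

variable (G) in
/-- finite dimensional modules -/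
structure ModT where
  V : Type
  [i1 : AddCommGroup V]
  [i2 : Module ℚ V]
  [i3 : Module (MonoidAlgebra ℚ G) V]
  [i4 : IsScalarTower ℚ (MonoidAlgebra ℚ G) V]
  [i5 : FiniteDimensional ℚ V]

attribute [instance] ModT.i1 ModT.i2 ModT.i3 ModT.i4 ModT.i5

noncomputable def dd (H : Subgroup G) : ModT G → ℚ := fun W => finrank ℚ (fixed W.V H)

noncomputable def tt (g : G) : ModT G → ℚ :=
  fun W => (Representation.ofModule' (k := ℚ) (G := G) W.V).character g

variable [Fintype G]

open Classical in
theorem card_dd (H : Subgroup G) : (Nat.card H : ℚ) • dd H = ∑ g : G with g ∈ H, tt g := by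
  funext W
  have hpos : (Nat.card H : ℚ) ≠ 0 := by exact_mod_cast Nat.card_pos.ne'
  have : Invertible (Nat.card H : ℚ) := invertibleOfNonzero hpos
  have h := Representation.card_inv_mul_sum_char_eq_finrank
    ((Representation.ofModule' (k := ℚ) (G := G) W.V).comp H.subtype)
  rw [Pi.smul_apply, dd, fixed, ← h, smul_eq_mul, mul_inv_cancel_left₀ hpos, Finset.sum_apply]
  unfold tt
  rw [Finset.sum_subtype (Finset.univ.filter (fun g => g ∈ H)) (p := fun g => g ∈ H) (by simp)]
  rfl

/-- sum of the traces of the generators of a subgroup -/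
noncomputable def tC (C : Subgroup G) : ModT G → ℚ :=
  open Classical in ∑ g : G with Subgroup.zpowers g = C, tt g

noncomputable instance : Fintype (Subgroup G) := Fintype.ofFinite _

open Classical in
theorem sum_tC (H : Subgroup G) : ∑ g : G with g ∈ H, tt g = ∑ C : Subgroup G with C ≤ H, tC C := by
  unfold tC
  rw [← Finset.sum_fiberwise_of_maps_to (s := Finset.univ.filter (fun g : G => g ∈ H))
    (t := Finset.univ.filter (fun C : Subgroup G => C ≤ H)) (g := fun g => Subgroup.zpowers g)]
  · apply Finset.sum_congr rfl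
    intro C hC
    apply Finset.sum_congr _ (fun _ _ => rfl)
    ext g
    simp only [Finset.mem_filter, Finset.mem_univ, true_and] at hC ⊢
    constructor
    · rintro ⟨_, h⟩; exact h
    · intro h
      refine ⟨?_, h⟩
      apply hC
      rw [← h]
      exact Subgroup.mem_zpowers g
  · intro g hg
    simp only [Finset.mem_filter, Finset.mem_univ, true_and] at hg ⊢
    rwa [Subgroup.zpowers_le]

variable (G) in
/-- the group generated by the dimensions of fixed spaces of cyclic subgroups -/
noncomputable def SS : AddSubgroup (ModT G → ℚ) :=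
  AddSubgroup.closure {f | ∃ C : Subgroup G, IsCyclic C ∧ f = dd C}

theorem tC_not_cyclic (C : Subgroup G) (h : ¬ IsCyclic C) : tC C = 0 := by
  unfold tC
  apply Finset.sum_eq_zero
  intro g hg
  exfalso
  apply h
  simp only [Finset.mem_filter, Finset.mem_univ, true_and] at hg
  rw [← hg]
  infer_instance

theorem tC_mem (C : Subgroup G) : tC C ∈ SS G := by
  classical
  induction C using WellFoundedLT.induction with
  | ind C ih =>
  by_cases h : IsCyclic C
  · have h1 := card_dd C
    rw [sum_tC C] at h1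
    have h2 : (Finset.univ.filter (fun B : Subgroup G => B ≤ C)) =
        insert C (Finset.univ.filter (fun B : Subgroup G => B < C)) := by
      ext B
      simp only [Finset.mem_filter, Finset.mem_univ, true_and, Finset.mem_insert]
      exact le_iff_eq_or_lt
    rw [h2, Finset.sum_insert (by simp)] at h1
    have h3 : tC C = (Nat.card C) • dd C - ∑ B : Subgroup G with B < C, tC B := by
      rw [eq_sub_iff_add_eq, ← h1, Nat.cast_smul_eq_nsmul]
    rw [h3]
    apply AddSubgroup.sub_mem
    · apply AddSubgroup.nsmul_mem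
      exact AddSubgroup.subset_closure ⟨C, h, rfl⟩
    · apply AddSubgroup.sum_mem
      intro B hB
      exact ih B (by simpa using hB)
  · rw [tC_not_cyclic C h]
    exact AddSubgroup.zero_mem _

theorem top_mem : (Nat.card G) • dd (⊤ : Subgroup G) ∈ SS G := by
  classical
  have h1 := card_dd (⊤ : Subgroup G)
  rw [sum_tC, Subgroup.card_top, Nat.cast_smul_eq_nsmul] at h1
  rw [h1]
  apply AddSubgroup.sum_mem
  intro B _
  exact tC_mem B

omit [Fintype G] in
theorem lists_of_mem {f : ModT G → ℚ} (hf : f ∈ SS G) : ∃ l₁ l₂ : List (Subgroup G),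
    (∀ C ∈ l₁, IsCyclic C) ∧ (∀ C ∈ l₂, IsCyclic C) ∧
    f + (l₁.map dd).sum = (l₂.map dd).sum := by
  induction hf using AddSubgroup.closure_induction with
  | mem x hx =>
    obtain ⟨C, hC, rfl⟩ := hx
    exact ⟨[], [C], by simp, by simpa using hC, by simp⟩
  | zero => exact ⟨[], [], by simp, by simp, by simp⟩
  | add x y _ _ hx hy =>
    obtain ⟨l₁, l₂, h1, h2, h⟩ := hx
    obtain ⟨m₁, m₂, h1', h2', h'⟩ := hy
    refine ⟨l₁ ++ m₁, l₂ ++ m₂, ?_, ?_, ?_⟩
    · intro C hC
      rcases List.mem_append.1 hC with hC | hC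
      · exact h1 C hC
      · exact h1' C hC
    · intro C hC
      rcases List.mem_append.1 hC with hC | hC
      · exact h2 C hC
      · exact h2' C hC
    · simp only [List.map_append, List.sum_append]
      rw [← h, ← h']
      abel
  | neg x _ hx =>
    obtain ⟨l₁, l₂, h1, h2, h⟩ := hx
    refine ⟨l₂, l₁, h2, h1, ?_⟩
    rw [← h]
    abel

variable (G) in
/-- the numerical part of Artin induction -/
theorem artin_lists : ∃ l₁ l₂ : List (Subgroup G),
    (∀ C ∈ l₁, IsCyclic C) ∧ (∀ C ∈ l₂, IsCyclic C) ∧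
    ((List.replicate (Nat.card G) ⊤ ++ l₁).map dd).sum = (l₂.map dd).sum := by
  obtain ⟨l₁, l₂, h1, h2, h⟩ := lists_of_mem (top_mem (G := G))
  refine ⟨l₁, l₂, h1, h2, ?_⟩
  rw [← h]
  simp

end


section perm

variable {G : Type} [Group G]

/-- permutation representation on functions -/
noncomputable def permRep (X : Type) [MulAction G X] : Representation ℚ G (X → ℚ) where
  toFun g := LinearMap.funLeft ℚ ℚ (fun x => g⁻¹ • x)
  map_one' := by ext f x; simp [LinearMap.funLeft]
  map_mul' g h := by ext f x; simp [LinearMap.funLeft, mul_smul]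

theorem permRep_apply (X : Type) [MulAction G X] (g : G) (f : X → ℚ) (x : X) :
    permRep X g f x = f (g⁻¹ • x) := rfl

open Classical in
theorem permRep_single (X : Type) [MulAction G X] (g : G) (x : X) (c : ℚ) :
    permRep X g (Pi.single x c) = Pi.single (g • x) c := by
  ext y
  rw [permRep_apply]
  by_cases h : g⁻¹ • y = x
  · rw [h, Pi.single_eq_same, ← h, smul_inv_smul, Pi.single_eq_same]
  · rw [Pi.single_eq_of_ne h, Pi.single_eq_of_ne]
    intro h'
    apply h
    rw [h', inv_smul_smul]

/-- permutation module -/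
abbrev PM (G : Type) [Group G] (X : Type) [MulAction G X] : Type := (permRep (G := G) X).asModule

open Classical in
/-- basis vector -/
noncomputable def ee {X : Type} [MulAction G X] (x : X) : PM G X :=
  (permRep (G := G) X).asModuleEquiv.symm (Pi.single x 1)

theorem of_smul_ee {X : Type} [MulAction G X] (g : G) (x : X) :
    MonoidAlgebra.of ℚ G g • (ee x : PM G X) = ee (g • x) := by
  unfold ee
  rw [← Representation.asModuleEquiv_symm_map_rho, permRep_single]

theorem hom_ext_ee {X : Type} [Fintype X] [MulAction G X] {V : Type} [AddCommGroup V] [Module ℚ V]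
    [Module (MonoidAlgebra ℚ G) V] [IsScalarTower ℚ (MonoidAlgebra ℚ G) V]
    (φ ψ : PM G X →ₗ[MonoidAlgebra ℚ G] V) (h : ∀ x, φ (ee x) = ψ (ee x)) : φ = ψ := by
  classical
  have h1 : (φ.restrictScalars ℚ).comp (permRep (G := G) X).asModuleEquiv.symm.toLinearMap =
      (ψ.restrictScalars ℚ).comp (permRep (G := G) X).asModuleEquiv.symm.toLinearMap := by
    apply LinearMap.pi_ext'
    intro x
    apply LinearMap.ext_ring
    have := h x
    unfold ee at this
    simpa using this
  ext v
  have := LinearMap.congr_fun h1 ((permRep (G := G) X).asModuleEquiv v)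
  simpa using this

theorem exists_hom {X : Type} [Fintype X] [MulAction G X] {V : Type} [AddCommGroup V] [Module ℚ V]
    [Module (MonoidAlgebra ℚ G) V] [IsScalarTower ℚ (MonoidAlgebra ℚ G) V]
    (u : X → V) (hu : ∀ (g : G) x, u (g • x) = MonoidAlgebra.of ℚ G g • u x) :
    ∃ φ : PM G X →ₗ[MonoidAlgebra ℚ G] V, ∀ x, φ (ee x) = u x := by
  classical
  let φ₀ : PM G X →ₗ[ℚ] V := (Fintype.linearCombination ℚ u).comp
    (permRep (G := G) X).asModuleEquiv.toLinearMap
  have h1 : ∀ x, φ₀ (ee x) = u x := by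
    intro x
    simp only [φ₀, ee, LinearMap.comp_apply, LinearEquiv.coe_coe, LinearEquiv.apply_symm_apply]
    rw [Fintype.linearCombination_apply_single, one_smul]
  have h2 : ∀ (g : G) (v : PM G X), φ₀ (MonoidAlgebra.of ℚ G g • v) =
      MonoidAlgebra.of ℚ G g • φ₀ v := by
    intro g
    have h3 : φ₀.comp (Algebra.lsmul ℚ ℚ (PM G X) (MonoidAlgebra.of ℚ G g)) =
      (Algebra.lsmul ℚ ℚ V (MonoidAlgebra.of ℚ G g)).comp φ₀ := by
      have h4 : (φ₀.comp (Algebra.lsmul ℚ ℚ (PM G X) (MonoidAlgebra.of ℚ G g))).comp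
          (permRep (G := G) X).asModuleEquiv.symm.toLinearMap =
        ((Algebra.lsmul ℚ ℚ V (MonoidAlgebra.of ℚ G g)).comp φ₀).comp
          (permRep (G := G) X).asModuleEquiv.symm.toLinearMap := by
        apply LinearMap.pi_ext'
        intro x
        apply LinearMap.ext_ring
        have h5 : (permRep (G := G) X).asModuleEquiv.symm (Pi.single x 1) = ee x := by
          unfold ee; congr
        simp only [LinearMap.comp_apply, LinearEquiv.coe_coe, LinearMap.single_apply,
          Algebra.lsmul_coe]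
        rw [h5, of_smul_ee, h1, h1, hu]
      ext v
      have := LinearMap.congr_fun h4 ((permRep (G := G) X).asModuleEquiv v)
      simpa using this
    intro v
    exact LinearMap.congr_fun h3 v
  refine ⟨⟨⟨φ₀, map_add φ₀⟩, ?_⟩, h1⟩
  intro a v
  simp only [RingHom.id_apply]
  show φ₀ (a • v) = a • φ₀ v
  induction a using MonoidAlgebra.induction_on with
  | of g => exact h2 g v
  | add a b ha hb => rw [add_smul, add_smul, map_add, ha, hb]
  | smul r a ha => rw [smul_assoc, map_smul, ha, smul_assoc]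

/-- disjoint union of cosets -/
abbrev XX {ι : Type} (B : ι → Subgroup G) : Type := Σ i : ι, G ⧸ B i

theorem finrank_hom_perm {ι : Type} [Fintype ι] (B : ι → Subgroup G) [Fintype (XX B)] {V : Type} [AddCommGroup V] [Module ℚ V]
    [Module (MonoidAlgebra ℚ G) V] [IsScalarTower ℚ (MonoidAlgebra ℚ G) V] [FiniteDimensional ℚ V] :
    finrank ℚ (PM G (XX B) →ₗ[MonoidAlgebra ℚ G] V) = ∑ i, finrank ℚ (fixed V (B i)) := by
  classical
  rw [← Module.finrank_pi_fintype]
  let Φ : (PM G (XX B) →ₗ[MonoidAlgebra ℚ G] V) →ₗ[ℚ] (∀ i, fixed V (B i)) :=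
    { toFun := fun φ i => ⟨φ (ee ⟨i, ((1 : G) : G ⧸ B i)⟩), by
        rw [mem_fixed]
        intro h hh
        rw [← map_smul, of_smul_ee]
        congr 2
        show (⟨i, h • ((1 : G) : G ⧸ B i)⟩ : XX B) = _
        congr 1
        show (((h • (1 : G) : G)) : G ⧸ B i) = _
        rw [QuotientGroup.eq]
        simpa using (B i).inv_mem hh⟩
      map_add' := fun φ ψ => by ext i; simp
      map_smul' := fun c φ => by ext i; simp }
  apply LinearEquiv.finrank_eq
  refine LinearEquiv.ofBijective Φ ⟨?_, ?_⟩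
  · intro φ ψ h
    apply hom_ext_ee
    rintro ⟨i, q⟩
    obtain ⟨g, rfl⟩ := QuotientGroup.mk_surjective q
    have h1 : (ee ⟨i, ((g : G) : G ⧸ B i)⟩ : PM G (XX B)) =
        MonoidAlgebra.of ℚ G g • ee ⟨i, ((1 : G) : G ⧸ B i)⟩ := by
      rw [of_smul_ee]
      congr 1
      show _ = (⟨i, g • ((1 : G) : G ⧸ B i)⟩ : XX B)
      congr 1
      show _ = (((g • (1 : G) : G)) : G ⧸ B i)
      simp
    rw [h1, map_smul, map_smul]
    congr 1
    have := congrFun h i
    exact congrArg Subtype.val this
  · intro v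
    let u : XX B → V := fun x => Quotient.liftOn' x.2 (fun g => MonoidAlgebra.of ℚ G g • (v x.1 : V)) (by
      intro a b hab
      rw [QuotientGroup.leftRel_apply] at hab
      have h1 := mem_fixed.1 (v x.1).2 _ hab
      show MonoidAlgebra.of ℚ G a • (v x.1 : V) = MonoidAlgebra.of ℚ G b • (v x.1 : V)
      conv_lhs => rw [← h1]
      rw [← mul_smul, ← map_mul, mul_inv_cancel_left])
    have hu : ∀ (g : G) x, u (g • x) = MonoidAlgebra.of ℚ G g • u x := by
      rintro g ⟨i, q⟩
      obtain ⟨a, rfl⟩ := QuotientGroup.mk_surjective q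
      show MonoidAlgebra.of ℚ G (g * a) • (v i : V) = MonoidAlgebra.of ℚ G g • MonoidAlgebra.of ℚ G a • (v i : V)
      rw [map_mul, mul_smul]
    obtain ⟨φ, hφ⟩ := exists_hom u hu
    refine ⟨φ, ?_⟩
    funext i
    apply Subtype.ext
    show φ (ee ⟨i, ((1 : G) : G ⧸ B i)⟩) = v i
    rw [hφ]
    show MonoidAlgebra.of ℚ G 1 • (v i : V) = v i
    rw [map_one, one_smul]

end perm

section mat

variable {G : Type} [Group G]

theorem exists_perm_iso [Finite G] {ι κ : Type} [Fintype ι] [Fintype κ] (B : ι → Subgroup G) (B' : κ → Subgroup G)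
    (h : ∑ i, dd (B i) = ∑ j, dd (B' j)) :
    Nonempty (PM G (XX B) ≃ₗ[MonoidAlgebra ℚ G] PM G (XX B')) := by
  classical
  have := Fintype.ofFinite (XX B)
  have := Fintype.ofFinite (XX B')
  apply iso_of_homs (A := MonoidAlgebra ℚ G) _ (PM G (XX B)) (PM G (XX B')) rfl
  intro V _ _ _ _ _
  rw [finrank_hom_perm, finrank_hom_perm]
  have h1 := congrFun h ⟨V⟩
  simp only [Finset.sum_apply, dd] at h1
  exact_mod_cast h1

theorem clear_denom {ι : Type} [Finite ι] (q : ι → ℚ) : ∃ N : ℕ, 0 < N ∧ ∃ z : ι → ℤ,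
    ∀ i, (z i : ℚ) = N * q i := by
  classical
  have := Fintype.ofFinite ι
  refine ⟨∏ i, (q i).den, Finset.prod_pos fun i _ => (q i).den_pos,
    fun i => (q i).num * ∏ j ∈ Finset.univ.erase i, ((q j).den : ℤ), ?_⟩
  intro i
  rw [← Finset.mul_prod_erase Finset.univ _ (Finset.mem_univ i)]
  push_cast
  have : (q i).num = q i * (q i).den := by rw [Rat.mul_den_eq_num]
  rw [this]
  ring

theorem exists_int_matrix {X Y : Type} [Fintype X] [Fintype Y] [DecidableEq X] [DecidableEq Y]
    [MulAction G X] [MulAction G Y] (e : PM G X ≃ₗ[MonoidAlgebra ℚ G] PM G Y) :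
    ∃ (P : Matrix X Y ℤ) (Q : Matrix Y X ℤ) (δ : ℕ), 0 < δ ∧ P * Q = (δ : Matrix X X ℤ) ∧
      Q * P = (δ : Matrix Y Y ℤ) ∧ ∀ (g : G) x y, P (g • x) (g • y) = P x y := by
  let E : (X → ℚ) ≃ₗ[ℚ] (Y → ℚ) := (permRep (G := G) X).asModuleEquiv.symm.trans
    ((e.restrictScalars ℚ).trans (permRep (G := G) Y).asModuleEquiv)
  have hE : ∀ (g : G) (f : X → ℚ), E (permRep X g f) = permRep Y g (E f) := by
    intro g f
    simp only [E, LinearEquiv.trans_apply, LinearEquiv.restrictScalars_apply]
    rw [Representation.asModuleEquiv_symm_map_rho, map_smul, Representation.asModuleEquiv_map_smul]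
    simp
  let P₀ : Matrix X Y ℚ := (LinearMap.toMatrix' E.toLinearMap).transpose
  let Q₀ : Matrix Y X ℚ := (LinearMap.toMatrix' E.symm.toLinearMap).transpose
  have h1 : P₀ * Q₀ = 1 := by
    simp only [P₀, Q₀]
    rw [← Matrix.transpose_mul, ← LinearMap.toMatrix'_comp]
    simp
  have h2 : Q₀ * P₀ = 1 := by
    simp only [P₀, Q₀]
    rw [← Matrix.transpose_mul, ← LinearMap.toMatrix'_comp]
    simp
  have h3 : ∀ (g : G) x y, P₀ (g • x) (g • y) = P₀ x y := by
    intro g x y
    have e1 : ∀ x y, P₀ x y = E (Pi.single x 1) y := by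
      intro x y
      simp only [P₀, Matrix.transpose_apply, LinearMap.toMatrix'_apply]
      simp
    rw [e1, e1]
    have e2 : (Pi.single (g • x) 1 : X → ℚ) = permRep X g (Pi.single x 1) := by
      ext y
      rw [permRep_apply]
      by_cases h : g⁻¹ • y = x
      · rw [h, Pi.single_eq_same, ← h, smul_inv_smul, Pi.single_eq_same]
      · rw [Pi.single_eq_of_ne h, Pi.single_eq_of_ne]
        intro h'
        apply h
        rw [h', inv_smul_smul]
    rw [e2, hE, permRep_apply, inv_smul_smul]
  obtain ⟨N, hN, z, hz⟩ := clear_denom (fun p : X × Y => P₀ p.1 p.2)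
  obtain ⟨N', hN', z', hz'⟩ := clear_denom (fun p : Y × X => Q₀ p.1 p.2)
  refine ⟨Matrix.of fun x y => z (x, y), Matrix.of fun y x => z' (y, x), N * N',
    Nat.mul_pos hN hN', ?_, ?_, ?_⟩
  · ext x x'
    have h4 := congrFun (congrFun h1 x) x'
    rw [Matrix.mul_apply] at h4 ⊢
    have : ((∑ j, (Matrix.of (fun x y => z (x, y))) x j * (Matrix.of fun y x => z' (y, x)) j x' : ℤ) : ℚ)
      = (N * N' : ℕ) * (1 : Matrix X X ℚ) x x' := by
      rw [← h4]
      push_cast
      simp only [Matrix.of_apply, hz, hz', Finset.mul_sum]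
      apply Finset.sum_congr rfl
      intro j _
      ring
    have h5 : (((N * N' : ℕ) : Matrix X X ℤ) x x' : ℚ) = (N * N' : ℕ) * (1 : Matrix X X ℚ) x x' := by
      by_cases hx : x = x'
      · subst hx; simp [Matrix.natCast_apply]
      · simp [Matrix.natCast_apply, hx]
    rw [← h5] at this
    exact_mod_cast this
  · ext x x'
    have h4 := congrFun (congrFun h2 x) x'
    rw [Matrix.mul_apply] at h4 ⊢
    have : ((∑ j, (Matrix.of (fun x y => z' (x, y))) x j * (Matrix.of fun y x => z (y, x)) j x' : ℤ) : ℚ)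
      = (N * N' : ℕ) * (1 : Matrix Y Y ℚ) x x' := by
      rw [← h4]
      push_cast
      simp only [Matrix.of_apply, hz, hz', Finset.mul_sum]
      apply Finset.sum_congr rfl
      intro j _
      ring
    have h5 : (((N * N' : ℕ) : Matrix Y Y ℤ) x x' : ℚ) = (N * N' : ℕ) * (1 : Matrix Y Y ℚ) x x' := by
      by_cases hx : x = x'
      · subst hx; simp [Matrix.natCast_apply]
      · simp [Matrix.natCast_apply, hx]
    rw [← h5] at this
    exact_mod_cast this
  · intro g x y
    have h4 : ((z (g • x, g • y) : ℤ) : ℚ) = (z (x, y) : ℤ) := by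
      rw [hz, hz]
      simp only [h3]
    exact_mod_cast h4

/-- the output of the representation theoretic part -/
theorem artin_matrix (G : Type) [Group G] [Finite G] : ∃ (n m : ℕ) (B : Fin n → Subgroup G) (B' : Fin m → Subgroup G)
    (s : ℕ), 0 < s ∧ (∃ l₁ l₂ : List (Subgroup G), (∀ C ∈ l₁, IsCyclic C) ∧ (∀ C ∈ l₂, IsCyclic C) ∧
      List.ofFn B = List.replicate s ⊤ ++ l₁ ∧ List.ofFn B' = l₂) ∧
    ∃ (_ : Fintype (XX B)) (_ : DecidableEq (XX B)) (_ : Fintype (XX B')) (_ : DecidableEq (XX B'))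
      (P : Matrix (XX B) (XX B') ℤ) (Q : Matrix (XX B') (XX B) ℤ) (δ : ℕ), 0 < δ ∧
      P * Q = (δ : Matrix (XX B) (XX B) ℤ) ∧ Q * P = (δ : Matrix (XX B') (XX B') ℤ) ∧
      ∀ (g : G) x y, P (g • x) (g • y) = P x y := by
  classical
  have := Fintype.ofFinite G
  obtain ⟨l₁, l₂, h1, h2, h⟩ := artin_lists G
  set l := List.replicate (Nat.card G) ⊤ ++ l₁ with hl
  refine ⟨l.length, l₂.length, l.get, l₂.get, Nat.card G, Nat.card_pos,
    ⟨l₁, l₂, h1, h2, ?_, ?_⟩, ?_⟩
  · rw [← hl, List.ofFn_get]
  · rw [List.ofFn_get]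
  · have hf1 := Fintype.ofFinite (XX l.get)
    have hf2 := Fintype.ofFinite (XX l₂.get)
    refine ⟨hf1, inferInstance, hf2, inferInstance, ?_⟩
    obtain ⟨e⟩ := exists_perm_iso l.get l₂.get (by
      have e1 : ∀ l : List (Subgroup G), ∑ i, dd (l.get i) = (l.map dd).sum := by
        intro l
        rw [← List.sum_ofFn]
        congr 1
        conv_rhs => rw [← List.ofFn_get l, List.map_ofFn]
        rfl
      rw [e1, e1, h])
    exact exists_int_matrix e

end mat

end H842
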