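import Pool.Agent.H842R2.K1
import Pool.Agent.H842R2.Artin

/-! Finiteness of `K₁(ℤ[G])` modulo units congruent to one (conditional version). -/

open Matrix

namespace H842

open H970SH

/-- the units congruent to `1` modulo `m` of augmentation one -/
def unitsMod (G : Type) [Group G] (m : ℕ) : AddSubgroup (K1 (MonoidAlgebra ℤ G)) :=
  AddSubgroup.closure {c | ∃ (u : (MonoidAlgebra ℤ G)ˣ) (y : MonoidAlgebra ℤ G),
    (u : MonoidAlgebra ℤ G) = 1 + (m : MonoidAlgebra ℤ G) * y ∧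
    MonoidAlgebra.lift ℤ ℤ G 1 y = 0 ∧ c = cl (unit1 u)}

theorem unit1_mul {R : Type} [Ring R] (u v : Rˣ) : unit1 (u * v) = unit1 u * unit1 v := by
  apply Units.ext
  refine Matrix.ext fun i j => ?_
  simp [unit1, Matrix.mul_apply]

theorem unit1_one {R : Type} [Ring R] : unit1 (1 : Rˣ) = 1 := by
  apply Units.ext
  refine Matrix.ext fun i j => ?_
  simp [unit1, Matrix.one_apply]

theorem cl_unit1_pow {R : Type} [Ring R] (u : Rˣ) (n : ℕ) : cl (unit1 (u ^ n)) = n • cl (unit1 u) := by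
  induction n with
  | zero => rw [pow_zero, unit1_one, cl_one, zero_smul]
  | succ n ih => rw [pow_succ, unit1_mul, cl_mul, ih, succ_nsmul]

/-- a power of a unit is congruent to one -/
theorem exists_pow_congr_unit {G : Type} [Group G] [Finite G] (u : (MonoidAlgebra ℤ G)ˣ) (m : ℕ)
    (hm : 0 < m) : ∃ (t : ℕ) (y : MonoidAlgebra ℤ G), 0 < t ∧
      ((u ^ t : (MonoidAlgebra ℤ G)ˣ) : MonoidAlgebra ℤ G) = 1 + (m : MonoidAlgebra ℤ G) * y := by
  classical
  have : NeZero m := ⟨hm.ne'⟩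
  let f : ℕ → (G → ZMod m) := fun a g =>
    ((((u ^ a : (MonoidAlgebra ℤ G)ˣ) : MonoidAlgebra ℤ G).coeff g : ℤ) : ZMod m)
  obtain ⟨a, b, hab, hf⟩ := Finite.exists_ne_map_eq_of_infinite f
  wlog hlt : a < b generalizing a b
  · exact this b a hab.symm hf.symm (lt_of_le_of_ne (not_lt.mp hlt) hab.symm)
  -- the difference is divisible by m
  have h1 : ∃ z : MonoidAlgebra ℤ G, ((u ^ b : (MonoidAlgebra ℤ G)ˣ) : MonoidAlgebra ℤ G) =
      ((u ^ a : (MonoidAlgebra ℤ G)ˣ) : MonoidAlgebra ℤ G) + (m : MonoidAlgebra ℤ G) * z := by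
    have h2 : ∀ g, ∃ c : ℤ, ((u ^ b : (MonoidAlgebra ℤ G)ˣ) : MonoidAlgebra ℤ G).coeff g =
      ((u ^ a : (MonoidAlgebra ℤ G)ˣ) : MonoidAlgebra ℤ G).coeff g + m * c := by
      intro g
      have h3 := congrFun hf g
      have h4 := (ZMod.intCast_eq_intCast_iff_dvd_sub _ _ _).mp h3
      obtain ⟨c, hc⟩ := h4
      exact ⟨c, by rw [← hc]; ring⟩
    choose c hc using h2
    refine ⟨MonoidAlgebra.ofCoeff (Finsupp.equivFunOnFinite.symm c), ?_⟩
    have e1 : ∀ z : MonoidAlgebra ℤ G, (m : MonoidAlgebra ℤ G) * z = (m : ℤ) • z := by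
      intro z
      rw [natCast_zsmul, nsmul_eq_mul]
    ext g
    rw [MonoidAlgebra.coeff_add, Finsupp.add_apply, hc, e1, MonoidAlgebra.coeff_smul]
    simp
  obtain ⟨z, hz⟩ := h1
  refine ⟨b - a, ((u ^ a : (MonoidAlgebra ℤ G)ˣ)⁻¹ : (MonoidAlgebra ℤ G)ˣ) * z, by omega, ?_⟩
  have h5 : u ^ (b - a) = (u ^ a)⁻¹ * u ^ b := by
    rw [eq_inv_mul_iff_mul_eq, ← pow_add]
    congr 1
    omega
  rw [h5, Units.val_mul, hz, mul_add, Units.inv_mul]
  congr 1
  rw [← mul_assoc, ← mul_assoc, (Nat.cast_commute m _).eq]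

/-- elements with a positive multiple in `U` -/
def satur {A : Type} [AddCommGroup A] (U : AddSubgroup A) : AddSubgroup A where
  carrier := {x | ∃ k : ℕ, 0 < k ∧ k • x ∈ U}
  zero_mem' := ⟨1, one_pos, by simp⟩
  add_mem' := by
    rintro x y ⟨k, hk, hx⟩ ⟨l, hl, hy⟩
    refine ⟨k * l, Nat.mul_pos hk hl, ?_⟩
    rw [smul_add]
    refine U.add_mem ?_ ?_
    · rw [mul_comm, mul_smul]; exact U.nsmul_mem hx l
    · rw [mul_smul]; exact U.nsmul_mem hy k
  neg_mem' := by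
    rintro x ⟨k, hk, hx⟩
    exact ⟨k, hk, by rw [smul_neg]; exact U.neg_mem hx⟩

theorem satur_of_smul {A : Type} [AddCommGroup A] (U : AddSubgroup A) (x : A) (s : ℕ) (hs : 0 < s)
    (h : s • x ∈ satur U) : x ∈ satur U := by
  obtain ⟨k, hk, hx⟩ := h
  exact ⟨k * s, Nat.mul_pos hk hs, by rw [mul_smul]; exact hx⟩

theorem unit_mem_satur {G : Type} [Group G] [Finite G] (m : ℕ) (hm : 0 < m)
    (u : (MonoidAlgebra ℤ G)ˣ) : cl (unit1 u) ∈ satur (unitsMod G m) := by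
  -- augmentation
  let ε : MonoidAlgebra ℤ G →ₐ[ℤ] ℤ := MonoidAlgebra.lift ℤ ℤ G 1
  have hε : ε ((u ^ 2 : (MonoidAlgebra ℤ G)ˣ) : MonoidAlgebra ℤ G) = 1 := by
    have h1 : IsUnit (ε (u : MonoidAlgebra ℤ G)) := u.isUnit.map ε
    rw [Units.val_pow_eq_pow_val, map_pow]
    rcases Int.isUnit_iff.mp h1 with h | h <;> rw [h] <;> norm_num
  obtain ⟨t, y, ht, hty⟩ := exists_pow_congr_unit (u ^ 2) m hm
  refine ⟨2 * t, by omega, ?_⟩
  rw [← cl_unit1_pow]
  apply AddSubgroup.subset_closure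
  refine ⟨u ^ (2 * t), y, ?_, ?_, rfl⟩
  · rw [pow_mul, hty]
  · have h2 := congrArg ε hty
    rw [Units.val_pow_eq_pow_val, map_pow, hε, one_pow, map_add, map_one, map_mul, map_natCast] at h2
    have h3 : (m : ℤ) * ε y = 0 := by linarith
    rcases mul_eq_zero.mp h3 with h | h
    · exact absurd (by exact_mod_cast h) hm.ne'
    · exact h

theorem finite_quot_aux (G : Type) [Group G] [Finite G] (m : ℕ) (hm : 0 < m)
    (hfg : Group.FG (Matrix (Fin 2) (Fin 2) (MonoidAlgebra ℤ G))ˣ)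
    (hst : ∀ (n : ℕ), 2 ≤ n → ∀ (M : (Matrix (Fin (n + 1)) (Fin (n + 1)) (MonoidAlgebra ℤ G))ˣ),
      ∃ M' : (Matrix (Fin n) (Fin n) (MonoidAlgebra ℤ G))ˣ, cl M' = cl M)
    (hmen : ∀ (C : Type) [CommGroup C] [Finite C] (x : K1 (MonoidAlgebra ℤ C)),
      ∃ (s : ℕ) (u : (MonoidAlgebra ℤ C)ˣ), 0 < s ∧ s • x = cl (unit1 u)) :
    Finite (K1 (MonoidAlgebra ℤ G) ⧸ unitsMod G m) := by
  classical
  -- every class is represented by a `2 × 2` matrix
  have h2 : ∀ x : K1 (MonoidAlgebra ℤ G), ∃ M : (Matrix (Fin 2) (Fin 2) (MonoidAlgebra ℤ G))ˣ,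
      cl M = x := by
    intro x
    obtain ⟨n, M, rfl⟩ := K1_exists x
    have key : ∀ (k : ℕ) (M : (Matrix (Fin (2 + k)) (Fin (2 + k)) (MonoidAlgebra ℤ G))ˣ),
        ∃ M' : (Matrix (Fin 2) (Fin 2) (MonoidAlgebra ℤ G))ˣ, cl M' = cl M := by
      intro k
      induction k with
      | zero => exact fun M => ⟨M, rfl⟩
      | succ k ih =>
        intro M
        obtain ⟨M', hM'⟩ := hst (2 + k) (by omega) M
        obtain ⟨M'', hM''⟩ := ih M'
        exact ⟨M'', hM''.trans hM'⟩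
    obtain ⟨M', hM'⟩ := key n (reindexUnit ((Equiv.sumComm _ _).trans finSumFinEquiv)
      (diagU M (1 : (Matrix (Fin 2) (Fin 2) (MonoidAlgebra ℤ G))ˣ)))
    exact ⟨M', by rw [hM', cl_reindex, cl_stab]⟩
  -- finite generation
  let φ : (Matrix (Fin 2) (Fin 2) (MonoidAlgebra ℤ G))ˣ →* Multiplicative (K1 (MonoidAlgebra ℤ G)) :=
    { toFun := fun M => Multiplicative.ofAdd (cl M)
      map_one' := by rw [cl_one]; rfl
      map_mul' := fun M N => by rw [cl_mul]; rfl }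
  have hφ : Function.Surjective φ := by
    intro x
    obtain ⟨M, hM⟩ := h2 x.toAdd
    exact ⟨M, by show Multiplicative.ofAdd (cl M) = x; rw [hM]; rfl⟩
  have hfg1 : Group.FG (Multiplicative (K1 (MonoidAlgebra ℤ G))) := Group.fg_of_surjective hφ
  have hfg2 : AddGroup.FG (K1 (MonoidAlgebra ℤ G)) := AddGroup.fg_iff_mul_fg.mpr hfg1
  have hfg3 : AddGroup.FG (K1 (MonoidAlgebra ℤ G) ⧸ unitsMod G m) := inferInstance
  apply AddCommGroup.finite_of_fg_isAddTorsion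
  -- torsion
  intro z
  obtain ⟨x, rfl⟩ := QuotientAddGroup.mk'_surjective _ z
  have hx : x ∈ satur (unitsMod G m) := by
    obtain ⟨k, hk, hkx⟩ := artin x
    apply satur_of_smul _ _ k hk
    refine (AddSubgroup.closure_le _).mpr ?_ hkx
    rintro y ⟨C, hC, n, M, rfl⟩
    let _ : CommGroup C := IsCyclic.commGroup
    obtain ⟨s, u, hs, hsu⟩ := hmen C (cl M)
    obtain ⟨F, hF⟩ := K1map_exists (MonoidAlgebra.mapDomainRingHom ℤ C.subtype)
    apply satur_of_smul _ _ s hs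
    have h3 : s • cl (mapUnit (MonoidAlgebra.mapDomainRingHom ℤ C.subtype) M) =
        cl (unit1 (Units.map (MonoidAlgebra.mapDomainRingHom ℤ C.subtype :
          MonoidAlgebra ℤ C →* MonoidAlgebra ℤ G) u)) := by
      rw [← hF, ← map_nsmul, hsu, hF]
      rfl
    rw [h3]
    exact unit_mem_satur m hm _
  obtain ⟨k, hk, hkx⟩ := hx
  rw [isOfFinAddOrder_iff_nsmul_eq_zero]
  refine ⟨k, hk, ?_⟩
  rw [← map_nsmul, QuotientAddGroup.mk'_apply, QuotientAddGroup.eq_zero_iff]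
  exact hkx

end H842
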