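import Pool.Agent.H842R2.JZ

/-! `GL_n(ℤ[G])` is finitely generated. -/

open Matrix

namespace H842

section

variable {G : Type} [Group G] [Finite G] (n : ℕ)

/-- row vectors over the group ring -/
abbrev VV (G : Type) [Group G] (n : ℕ) : Type := Fin n → MonoidAlgebra ℤ G

instance instFreeVV : Module.Free ℤ (MonoidAlgebra ℤ G) :=
  Module.Free.of_basis (MonoidAlgebra.basis G ℤ)

instance instFiniteVV : Module.Finite ℤ (MonoidAlgebra ℤ G) :=
  Module.Finite.of_basis (MonoidAlgebra.basis G ℤ)

/-- right multiplication by a matrix as an additive endomorphism -/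
noncomputable def rmul (w : Matrix (Fin n) (Fin n) (MonoidAlgebra ℤ G)) : VV G n →ₗ[ℤ] VV G n :=
  (Matrix.vecMulLinear w).toAddMonoidHom.toIntLinearMap

omit [Finite G] in
theorem rmul_apply (w : Matrix (Fin n) (Fin n) (MonoidAlgebra ℤ G)) (v : VV G n) :
    rmul n w v = v ᵥ* w := rfl

omit [Finite G] in
theorem rmul_mul (w w' : Matrix (Fin n) (Fin n) (MonoidAlgebra ℤ G)) :
    rmul n (w * w') = rmul n w' * rmul n w := by
  refine LinearMap.ext fun v => ?_
  show v ᵥ* (w * w') = (v ᵥ* w) ᵥ* w'
  rw [Matrix.vecMul_vecMul]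

omit [Finite G] in
theorem rmul_injective : Function.Injective (rmul (G := G) n) := by
  intro w w' h
  refine Matrix.ext fun i j => ?_
  have h1 := congrFun (LinearMap.congr_fun h (Pi.single i 1)) j
  rw [rmul_apply, rmul_apply, Matrix.single_one_vecMul, Matrix.single_one_vecMul] at h1
  exact h1

/-- the additive endomorphism given by left multiplication by a group element -/
noncomputable def lmul (g : G) : VV G n →ₗ[ℤ] VV G n :=
  (DistribSMul.toAddMonoidHom (VV G n) (MonoidAlgebra.of ℤ G g)).toIntLinearMap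

omit [Finite G] in
theorem lmul_apply (g : G) (v : VV G n) : lmul n g v = MonoidAlgebra.of ℤ G g • v := rfl

omit [Finite G] in
theorem lmul_mul (g h : G) : lmul n (g * h) = lmul n g * lmul n h := by
  refine LinearMap.ext fun v => ?_
  show MonoidAlgebra.of ℤ G (g * h) • v = MonoidAlgebra.of ℤ G g • MonoidAlgebra.of ℤ G h • v
  rw [map_mul, mul_smul]

omit [Finite G] in
theorem lmul_one : lmul (G := G) n 1 = 1 := by
  refine LinearMap.ext fun v => ?_
  show MonoidAlgebra.of ℤ G 1 • v = v
  rw [map_one, one_smul]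

/-- an additive endomorphism commuting with `G` is right multiplication by a matrix -/
theorem exists_rmul (f : VV G n →ₗ[ℤ] VV G n) (hf : ∀ g, f * lmul n g = lmul n g * f) :
    ∃ w, rmul n w = f := by
  let F : VV G n →ₗ[MonoidAlgebra ℤ G] VV G n :=
    { toFun := f
      map_add' := f.map_add
      map_smul' := by
        intro a v
        rw [RingHom.id_apply]
        induction a using MonoidAlgebra.induction_on with
        | of g => exact LinearMap.congr_fun (hf g) v
        | add a b ha hb => rw [add_smul, map_add, ha, hb, add_smul]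
        | smul r a ha => rw [smul_assoc, map_smul, ha, smul_assoc] }
  refine ⟨LinearMap.toMatrixRight' F, ?_⟩
  refine LinearMap.ext fun v => ?_
  have : (LinearMap.toMatrixRight' F).vecMulLinear = F := LinearMap.toMatrixRight'.symm_apply_apply _
  exact LinearMap.congr_fun this v

/-- the rank -/
noncomputable def rk (G : Type) [Group G] (n : ℕ) : ℕ := Module.finrank ℤ (VV G n)

/-- a basis -/
noncomputable def bas : Module.Basis (Fin (rk G n)) ℤ (VV G n) := Module.finBasis ℤ (VV G n)

/-- matrix of the transposed map -/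
noncomputable def tm (f : VV G n →ₗ[ℤ] VV G n) : Matrix (Fin (rk G n)) (Fin (rk G n)) ℤ :=
  (LinearMap.toMatrix (bas n) (bas n) f)ᵀ

theorem tm_mul (f f' : VV G n →ₗ[ℤ] VV G n) : tm n (f * f') = tm n f' * tm n f := by
  unfold tm
  rw [LinearMap.toMatrix_mul, Matrix.transpose_mul]

theorem tm_one : tm (G := G) n 1 = 1 := by
  unfold tm
  rw [LinearMap.toMatrix_one, Matrix.transpose_one]

theorem tm_injective : Function.Injective (tm (G := G) n) := by
  intro f f' h
  apply (LinearMap.toMatrix (bas n) (bas n)).injective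
  exact Matrix.transpose_injective h

theorem tm_surjective : Function.Surjective (tm (G := G) n) := by
  intro M
  refine ⟨(LinearMap.toMatrix (bas n) (bas n)).symm Mᵀ, ?_⟩
  unfold tm
  rw [LinearEquiv.apply_symm_apply, Matrix.transpose_transpose]

/-- the representation of `G` -/
noncomputable def rep : G →* (Matrix (Fin (rk G n)) (Fin (rk G n)) ℤ)ˣ :=
  MonoidHom.toHomUnits
    { toFun := fun g => tm n (lmul n g⁻¹)
      map_one' := by rw [inv_one, lmul_one, tm_one]
      map_mul' := fun g h => by rw [_root_.mul_inv_rev, lmul_mul, tm_mul] }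

theorem rep_val (g : G) : (rep n g : Matrix (Fin (rk G n)) (Fin (rk G n)) ℤ) = tm n (lmul n g⁻¹) := rfl

/-- `GL_n(ℤ[G])` as a group of integral matrices -/
noncomputable def toInt : (Matrix (Fin n) (Fin n) (MonoidAlgebra ℤ G))ˣ →*
    (Matrix (Fin (rk G n)) (Fin (rk G n)) ℤ)ˣ :=
  Units.map
    { toFun := fun w => tm n (rmul n w)
      map_one' := by
        have : rmul (G := G) n 1 = 1 := by
          exact LinearMap.ext fun v => Matrix.vecMul_one v
        rw [this, tm_one]
      map_mul' := fun w w' => by rw [rmul_mul, tm_mul] }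

theorem toInt_val (w : (Matrix (Fin n) (Fin n) (MonoidAlgebra ℤ G))ˣ) :
    (toInt n w : Matrix (Fin (rk G n)) (Fin (rk G n)) ℤ) = tm n (rmul n w) := rfl

theorem toInt_injective : Function.Injective (toInt (G := G) n) := by
  intro w w' h
  apply Units.ext
  apply rmul_injective n
  apply tm_injective n
  exact congrArg Units.val h

theorem range_toInt : (toInt (G := G) n).range = Subgroup.centralizer (Set.range (rep n)) := by
  ext c
  rw [MonoidHom.mem_range, Subgroup.mem_centralizer_iff]
  constructor
  · rintro ⟨w, rfl⟩ _ ⟨g, rfl⟩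
    apply Units.ext
    rw [Units.val_mul, Units.val_mul, toInt_val, rep_val, ← tm_mul, ← tm_mul]
    congr 1
    refine LinearMap.ext fun v => ?_
    show (MonoidAlgebra.of ℤ G g⁻¹ • v) ᵥ* (w : Matrix (Fin n) (Fin n) (MonoidAlgebra ℤ G)) =
      MonoidAlgebra.of ℤ G g⁻¹ • (v ᵥ* (w : Matrix (Fin n) (Fin n) (MonoidAlgebra ℤ G)))
    rw [Matrix.smul_vecMul]
  · intro hc
    have key : ∀ c : (Matrix (Fin (rk G n)) (Fin (rk G n)) ℤ)ˣ,
        (∀ g, rep n g * c = c * rep n g) → ∃ w, tm n (rmul n w) = (c : Matrix (Fin (rk G n)) (Fin (rk G n)) ℤ) := by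
      intro c hc
      obtain ⟨f, hf⟩ := tm_surjective n (c : Matrix (Fin (rk G n)) (Fin (rk G n)) ℤ)
      have h1 : ∀ g, f * lmul n g = lmul n g * f := by
        intro g
        apply tm_injective n
        rw [tm_mul, tm_mul, hf]
        have h2 := congrArg Units.val (hc g⁻¹)
        rw [Units.val_mul, Units.val_mul, rep_val, inv_inv] at h2
        exact h2
      obtain ⟨w, hw⟩ := exists_rmul n f h1
      exact ⟨w, by rw [hw, hf]⟩
    have hc1 : ∀ g, rep n g * c = c * rep n g := fun g => hc _ ⟨g, rfl⟩
    have hc2 : ∀ g, rep n g * c⁻¹ = c⁻¹ * rep n g := by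
      intro g
      rw [mul_inv_eq_iff_eq_mul, mul_assoc, hc1, ← mul_assoc, inv_mul_cancel, one_mul]
    obtain ⟨w, hw⟩ := key c hc1
    obtain ⟨w', hw'⟩ := key c⁻¹ hc2
    have e1 : w * w' = 1 := by
      apply rmul_injective n
      apply tm_injective n
      have h3 : rmul (G := G) n 1 = 1 := by
        exact LinearMap.ext fun v => Matrix.vecMul_one v
      rw [rmul_mul, tm_mul, hw, hw', h3, tm_one, Units.mul_inv]
    have e2 : w' * w = 1 := by
      apply rmul_injective n
      apply tm_injective n
      have h3 : rmul (G := G) n 1 = 1 := by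
        exact LinearMap.ext fun v => Matrix.vecMul_one v
      rw [rmul_mul, tm_mul, hw, hw', h3, tm_one, Units.inv_mul]
    exact ⟨⟨w, w', e1, e2⟩, Units.ext hw⟩

end

/-- `GL_n(ℤ[G])` is finitely generated. -/
theorem GL_fg_of (G : Type) [Group G] [Finite G] (n : ℕ) (h : SiegelHyp (rk G n)) :
    Group.FG (Matrix (Fin n) (Fin n) (MonoidAlgebra ℤ G))ˣ := by
  have h1 := centralizer_fg_of h G (rep n)
  rw [← range_toInt] at h1
  have h2 : Group.FG (toInt (G := G) n).range := (Group.fg_iff_subgroup_fg _).mpr h1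
  have e := MonoidHom.ofInjective (toInt_injective (G := G) n)
  exact Group.fg_of_surjective (f := e.symm.toMonoidHom) e.symm.surjective

end H842
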