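import Pool.Agent.H842R2.Stable

/-! Mennicke symbols: `K₁(ℤ[C])` modulo units is torsion for a finite abelian group `C`. -/

open Matrix

namespace H842

open H970SH

section mennicke

variable {R : Type} [CommRing R]

/-- two by two matrices of determinant one -/
def SL (a b c d : R) (h : a * d - b * c = 1) : (Matrix (Fin 2) (Fin 2) R)ˣ where
  val := !![a, b; c, d]
  inv := !![d, -b; -c, a]
  val_inv := by
    rw [Matrix.mul_fin_two, Matrix.one_fin_two]
    congr 1
    ext i j
    fin_cases i <;> fin_cases j <;> simp <;> first | ring1 | linear_combination h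
  inv_val := by
    rw [Matrix.mul_fin_two, Matrix.one_fin_two]
    ext i j
    fin_cases i <;> fin_cases j <;> simp <;> first | ring1 | linear_combination h

theorem SL_val (a b c d : R) (h : a * d - b * c = 1) :
    (SL a b c d h : Matrix (Fin 2) (Fin 2) R) = !![a, b; c, d] := rfl

theorem cl_eq_zero {ι κ : Type} [Fintype ι] [DecidableEq ι] [Fintype κ] [DecidableEq κ]
    (U : (Matrix ι ι R)ˣ) (A : Matrix ι κ R) (B : Matrix κ ι R) (hU : (U : Matrix ι ι R) = 1 + A * B)
    (h : B * A = 0) : cl U = 0 := by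
  rw [cl_one_add_mul_comm A B U 1 hU (by rw [h]; simp), cl_one]

theorem cl_SL_up (t : R) (h : (1 : R) * 1 - t * 0 = 1) : cl (SL 1 t 0 1 h) = 0 := by
  apply cl_eq_zero (κ := Unit) _ (Matrix.of fun i _ => if i = 0 then t else 0)
    (Matrix.of fun _ j => if j = 1 then 1 else 0)
  · ext i j
    rw [SL_val]
    fin_cases i <;> fin_cases j <;> simp [Matrix.mul_apply]
  · ext i j
    simp [Matrix.mul_apply]

theorem cl_SL_lo (t : R) (h : (1 : R) * 1 - 0 * t = 1) : cl (SL 1 0 t 1 h) = 0 := by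
  apply cl_eq_zero (κ := Unit) _ (Matrix.of fun i _ => if i = 1 then t else 0)
    (Matrix.of fun _ j => if j = 0 then 1 else 0)
  · ext i j
    rw [SL_val]
    fin_cases i <;> fin_cases j <;> simp [Matrix.mul_apply]
  · ext i j
    simp [Matrix.mul_apply]

theorem cl_SL_col1 (a b c d t : R) (h : a * d - b * c = 1) (h' : a * (d + t * c) - (b + t * a) * c = 1) :
    cl (SL a (b + t * a) c (d + t * c) h') = cl (SL a b c d h) := by
  have : SL a (b + t * a) c (d + t * c) h' = SL a b c d h * SL 1 t 0 1 (by ring) := by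
    apply Units.ext
    rw [Units.val_mul, SL_val, SL_val, SL_val, Matrix.mul_fin_two]
    congr 1
    ext i j
    fin_cases i <;> fin_cases j <;> simp <;> ring
  rw [this, cl_mul, cl_SL_up, add_zero]

theorem cl_SL_col0 (a b c d t : R) (h : a * d - b * c = 1) (h' : (a + t * b) * d - b * (c + t * d) = 1) :
    cl (SL (a + t * b) b (c + t * d) d h') = cl (SL a b c d h) := by
  have : SL (a + t * b) b (c + t * d) d h' = SL a b c d h * SL 1 0 t 1 (by ring) := by
    apply Units.ext
    rw [Units.val_mul, SL_val, SL_val, SL_val, Matrix.mul_fin_two]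
    congr 1
    ext i j
    fin_cases i <;> fin_cases j <;> simp <;> ring
  rw [this, cl_mul, cl_SL_lo, add_zero]

theorem cl_SL_row (a b c d c' d' : R) (h : a * d - b * c = 1) (h' : a * d' - b * c' = 1) :
    cl (SL a b c d h) = cl (SL a b c' d' h') := by
  have : SL a b c' d' h' = SL 1 0 (c' * d - d' * c) 1 (by ring) * SL a b c d h := by
    apply Units.ext
    rw [Units.val_mul, SL_val, SL_val, SL_val, Matrix.mul_fin_two]
    congr 1
    ext i j
    fin_cases i <;> fin_cases j <;> simp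
    · linear_combination (-c') * h + c * h'
    · linear_combination (-d') * h + d * h'
  rw [this, cl_mul, cl_SL_lo, zero_add]

theorem cl_SL_rot (h : (0 : R) * 0 - 1 * (-1) = 1) : cl (SL 0 1 (-1) 0 h) = 0 := by
  have : SL 0 1 (-1) 0 h = SL 1 1 0 1 (by ring) * SL 1 0 (-1) 1 (by ring) * SL 1 1 0 1 (by ring) := by
    apply Units.ext
    rw [Units.val_mul, Units.val_mul, SL_val, SL_val, SL_val, Matrix.mul_fin_two, Matrix.mul_fin_two]
    congr 1
    ext i j
    fin_cases i <;> fin_cases j <;> simp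
  rw [this, cl_mul, cl_mul, cl_SL_lo, cl_SL_up]
  simp

theorem cl_SL_rot' (h : (0 : R) * 0 - (-1) * 1 = 1) : cl (SL 0 (-1) 1 0 h) = 0 := by
  have : SL 0 (-1) 1 0 h = (SL 0 1 (-1) 0 (by ring))⁻¹ := by
    apply Units.ext
    show !![0, -1; 1, 0] = !![0, -1; -(-1), 0]
    simp
  rw [this, cl_inv, cl_SL_rot, neg_zero]

theorem cl_SL_one (a : R) (h : a * 0 - 1 * (-1) = 1) : cl (SL a 1 (-1) 0 h) = 0 := by
  have h1 := cl_SL_col0 0 1 (-1) 0 a (by ring) (by ring)
  rw [cl_SL_rot] at h1
  rw [← h1]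
  congr 1
  apply Units.ext
  rw [SL_val, SL_val]
  simp

/-- `M ⊕ 1` of size three -/
def T1 (a b c d : R) (h : a * d - b * c = 1) : (Matrix (Fin 3) (Fin 3) R)ˣ where
  val := !![a, b, 0; c, d, 0; 0, 0, 1]
  inv := !![d, -b, 0; -c, a, 0; 0, 0, 1]
  val_inv := by
    ext i j
    fin_cases i <;> fin_cases j <;> simp [Matrix.mul_apply, Fin.sum_univ_three] <;>
      first | ring1 | linear_combination h
  inv_val := by
    ext i j
    fin_cases i <;> fin_cases j <;> simp [Matrix.mul_apply, Fin.sum_univ_three] <;>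
      first | ring1 | linear_combination h

/-- `1 ⊕ M` of size three -/
def T2 (a b c d : R) (h : a * d - b * c = 1) : (Matrix (Fin 3) (Fin 3) R)ˣ where
  val := !![1, 0, 0; 0, a, b; 0, c, d]
  inv := !![1, 0, 0; 0, d, -b; 0, -c, a]
  val_inv := by
    ext i j
    fin_cases i <;> fin_cases j <;> simp [Matrix.mul_apply, Fin.sum_univ_three] <;>
      first | ring1 | linear_combination h
  inv_val := by
    ext i j
    fin_cases i <;> fin_cases j <;> simp [Matrix.mul_apply, Fin.sum_univ_three] <;>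
      first | ring1 | linear_combination h


theorem cl_T1 (a b c d : R) (h : a * d - b * c = 1) : cl (T1 a b c d h) = cl (SL a b c d h) := by
  rw [← cl_stab_unit (SL a b c d h)]
  let e : Fin 3 ≃ Fin 2 ⊕ Unit :=
    { toFun := ![Sum.inl 0, Sum.inl 1, Sum.inr ()]
      invFun := Sum.elim ![0, 1] (fun _ => 2)
      left_inv := by intro i; fin_cases i <;> rfl
      right_inv := by rintro (i | i) <;> fin_cases i <;> rfl }
  apply cl_congr e
  intro i j
  rw [diagU_val]
  fin_cases i <;> fin_cases j <;> simp [e, T1, SL]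

theorem cl_T2 (a b c d : R) (h : a * d - b * c = 1) : cl (T2 a b c d h) = cl (SL a b c d h) := by
  rw [← cl_stab_unit (SL a b c d h)]
  let e : Fin 3 ≃ Fin 2 ⊕ Unit :=
    { toFun := ![Sum.inr (), Sum.inl 0, Sum.inl 1]
      invFun := Sum.elim ![1, 2] (fun _ => 0)
      left_inv := by intro i; fin_cases i <;> rfl
      right_inv := by rintro (i | i) <;> fin_cases i <;> rfl }
  apply cl_congr e
  intro i j
  rw [diagU_val]
  fin_cases i <;> fin_cases j <;> simp [e, T2, SL]

/-- elementary matrices of size three -/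
theorem exists_elem (i j : Fin 3) (hij : i ≠ j) (t : R) :
    ∃ E : (Matrix (Fin 3) (Fin 3) R)ˣ, cl E = 0 ∧
      (E : Matrix (Fin 3) (Fin 3) R) = 1 + Matrix.of fun k l => if k = i ∧ l = j then t else 0 := by
  obtain ⟨E, hE, h⟩ := cl_rowop (κ := Unit) (Matrix.of fun k (_ : Unit) => if k = i then t else 0)
    (Matrix.of fun (_ : Unit) l => if l = j then (1 : R) else 0) (by
      ext k l
      simp only [Matrix.mul_apply, Matrix.of_apply, ite_mul, one_mul, zero_mul,
        Finset.sum_ite_eq', Finset.mem_univ, if_true, Matrix.zero_apply]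
      rw [if_neg hij.symm])
  refine ⟨E, h, ?_⟩
  rw [hE]
  congr 1
  ext k l
  simp only [Matrix.mul_apply, Matrix.of_apply, Finset.univ_unique, Finset.sum_singleton]
  by_cases h1 : k = i <;> by_cases h2 : l = j <;> simp [h1, h2]

theorem mennicke_key (a b c d b' c' d' : R) (h : a * d - b * c = 1) (h' : a * d' - b' * c' = 1)
    (h'' : a * (d' - d * c' * b') - b * b' * (-(c * c')) = 1) :
    cl (SL a b c d h) + cl (SL a b' c' d' h') =
      cl (SL a (b * b') (-(c * c')) (d' - d * c' * b') h'') := by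
  have hB : b' * (-c') - (-a) * d' = 1 := by linear_combination h'
  have h1 : cl (SL b' (-a) d' (-c') hB) = cl (SL a b' c' d' h') := by
    have : SL b' (-a) d' (-c') hB = SL a b' c' d' h' * SL 0 (-1) 1 0 (by ring) := by
      apply Units.ext
      rw [Units.val_mul, SL_val, SL_val, SL_val, Matrix.mul_fin_two]
      congr 1
      ext i j
      fin_cases i <;> fin_cases j <;> simp
    rw [this, cl_mul, cl_SL_rot', add_zero]
  obtain ⟨C1, hC1, eC1⟩ := exists_elem (0 : Fin 3) 2 (by decide) b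
  obtain ⟨R1, hR1, eR1⟩ := exists_elem (2 : Fin 3) 1 (by decide) (-c')
  obtain ⟨C2, hC2, eC2⟩ := exists_elem (2 : Fin 3) 0 (by decide) c
  obtain ⟨C3, hC3, eC3⟩ := exists_elem (2 : Fin 3) 1 (by decide) (d * b')
  have key : T2 0 1 (-1) 0 (by ring) * R1 * T1 a b c d h * T2 b' (-a) d' (-c') hB * C1 * C2 * C3 =
      T1 a (b * b') (-(c * c')) (d' - d * c' * b') h'' := by
    apply Units.ext
    simp only [Units.val_mul, eC1, eR1, eC2, eC3]
    show !![1, 0, 0; 0, 0, 1; 0, -1, 0] * _ * !![a, b, 0; c, d, 0; 0, 0, 1] *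
      !![1, 0, 0; 0, b', -a; 0, d', -c'] * _ * _ * _ =
      !![a, b * b', 0; -(c * c'), d' - d * c' * b', 0; 0, 0, 1]
    have e1 : (1 + Matrix.of fun k l => if k = (2 : Fin 3) ∧ l = 1 then -c' else 0) =
      !![1, 0, 0; 0, 1, 0; 0, -c', 1] := by
      ext i j; fin_cases i <;> fin_cases j <;> simp
    have e2 : (1 + Matrix.of fun k l => if k = (0 : Fin 3) ∧ l = 2 then b else 0) =
      !![1, 0, b; 0, 1, 0; 0, 0, 1] := by
      ext i j; fin_cases i <;> fin_cases j <;> simp
    have e3 : (1 + Matrix.of fun k l => if k = (2 : Fin 3) ∧ l = 0 then c else 0) =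
      !![1, 0, 0; 0, 1, 0; c, 0, 1] := by
      ext i j; fin_cases i <;> fin_cases j <;> simp
    have e4 : (1 + Matrix.of fun k l => if k = (2 : Fin 3) ∧ l = 1 then d * b' else 0) =
      !![1, 0, 0; 0, 1, 0; 0, d * b', 1] := by
      ext i j; fin_cases i <;> fin_cases j <;> simp
    rw [e1, e2, e3, e4]
    simp only [Matrix.mul_fin_three]
    congr 1
    ext i j
    fin_cases i <;> fin_cases j <;> simp <;>
      first
      | ring1
      | linear_combination (c' * c) * h
      | linear_combination (c' * d * b') * h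
      | linear_combination c' * h
      | linear_combination c * h
      | linear_combination (d * b') * h
      | linear_combination h
  have h2 := congrArg cl key
  simp only [cl_mul, cl_T1, cl_T2, hC1, hR1, hC2, hC3, cl_SL_rot, add_zero, zero_add, h1] at h2
  exact h2


theorem mennicke_pow (a b c d : R) (h : a * d - b * c = 1) (n : ℕ) :
    ∃ (c' d' : R) (h' : a * d' - b ^ n * c' = 1), n • cl (SL a b c d h) = cl (SL a (b ^ n) c' d' h') := by
  induction n with
  | zero =>
    refine ⟨-1, 0, by ring, ?_⟩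
    rw [zero_smul, ← cl_SL_one a (by ring)]
    congr 1
    apply Units.ext
    rw [SL_val, SL_val, pow_zero]
  | succ n ih =>
    obtain ⟨c', d', h', e⟩ := ih
    have h'' : a * (d' - d * c' * b ^ n) - b * b ^ n * (-(c * c')) = 1 := by
      linear_combination h' - (b ^ n * c') * h
    refine ⟨-(c * c'), d' - d * c' * b ^ n, by rw [pow_succ']; exact h'', ?_⟩
    rw [succ_nsmul, e, add_comm, mennicke_key a b c d (b ^ n) c' d' h h' h'']
    congr 1
    apply Units.ext
    rw [SL_val, SL_val, pow_succ']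

end mennicke

section mennicke2

variable {C : Type} [CommGroup C] [Finite C]

/-- the class of a matrix of determinant one is torsion -/
theorem SL_torsion (a b c d : MonoidAlgebra ℤ C) (h : a * d - b * c = 1) :
    ∃ s : ℕ, 0 < s ∧ s • cl (SL a b c d h) = 0 := by
  -- make `a` rationally invertible
  have h1 : Submodule.span (MonoidAlgebra ℤ C) {a} ⊔ Submodule.span (MonoidAlgebra ℤ C) {b} = ⊤ := by
    have h2 : (1 : MonoidAlgebra ℤ C) ∈ Submodule.span (MonoidAlgebra ℤ C) {a} ⊔
        Submodule.span (MonoidAlgebra ℤ C) {b} := by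
      have e : (1 : MonoidAlgebra ℤ C) = d • a + (-c) • b := by
        simp only [smul_eq_mul]; linear_combination -h
      rw [e]
      exact Submodule.add_mem_sup (Submodule.smul_mem _ _ (Submodule.mem_span_singleton_self _))
        (Submodule.smul_mem _ _ (Submodule.mem_span_singleton_self _))
    rw [eq_top_iff]
    intro w _
    have := Submodule.smul_mem _ w h2
    simpa using this
  obtain ⟨j, hj, c₁, N, hN, hc₁, -⟩ := sr_rational a _ h1
  obtain ⟨t, rfl⟩ := Submodule.mem_span_singleton.1 hj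
  rw [smul_eq_mul] at hc₁
  have h' : (a + t * b) * d - b * (c + t * d) = 1 := by linear_combination h
  have e0 := cl_SL_col0 a b c d t h h'
  rw [← e0]
  generalize a + t * b = a₁ at *
  generalize c + t * d = c₂ at *
  -- powers of `b` modulo `N`
  have hNz : NeZero N := ⟨hN.ne'⟩
  have hf1 : Finite (C →₀ ZMod N) :=
    Finite.of_injective (fun f : C →₀ ZMod N => (f : C → ZMod N)) DFunLike.coe_injective
  have hf : Finite (MonoidAlgebra (ZMod N) C) := Finite.of_injective _ MonoidAlgebra.coeff_injective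
  obtain ⟨m, n, hmn, hpow⟩ := Finite.exists_ne_map_eq_of_infinite (fun n : ℕ => redMod C N (b ^ n))
  -- a positive power of `b` is one modulo `a₁`
  have claim : ∀ m n : ℕ, m < n → redMod C N (b ^ m) = redMod C N (b ^ n) →
      ∃ s : ℕ, 0 < s ∧ ∃ t, b ^ s = 1 + a₁ * t := by
    intro m n hlt hp
    obtain ⟨z, hz⟩ := redMod_ker N hN (b ^ n - b ^ m) (by rw [map_sub, hp, sub_self])
    obtain ⟨k, rfl⟩ := Nat.exists_eq_add_of_lt hlt
    -- `b * e = 1 + a₁ * f`
    have hbe : ∀ m : ℕ, ∃ e f, b ^ m * e = 1 + a₁ * f := by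
      intro m
      induction m with
      | zero => exact ⟨1, 0, by ring⟩
      | succ m ih =>
        obtain ⟨e, f, hef⟩ := ih
        refine ⟨-(c₂ * e), -d + f - a₁ * d * f, ?_⟩
        rw [pow_succ]
        linear_combination (-(b * c₂)) * hef + (1 + a₁ * f) * h'
    obtain ⟨e, f, hef⟩ := hbe m
    refine ⟨k + 1, Nat.succ_pos _, c₁ * z * e - (b ^ (k + 1) - 1) * f, ?_⟩
    have h5 : b ^ m * (b ^ (k + 1) - 1) = a₁ * (c₁ * z) := by
      have : b ^ (m + k + 1) - b ^ m = b ^ m * (b ^ (k + 1) - 1) := by ring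
      rw [← this, hz, ← hc₁]
      ring
    linear_combination (-(b ^ (k + 1) - 1)) * hef + e * h5
  obtain ⟨s, hs, t', ht'⟩ : ∃ s : ℕ, 0 < s ∧ ∃ t, b ^ s = 1 + a₁ * t := by
    rcases lt_or_gt_of_ne hmn with hlt | hlt
    · exact claim m n hlt hpow
    · exact claim n m hlt hpow.symm
  refine ⟨s, hs, ?_⟩
  obtain ⟨c', d', h6, e6⟩ := mennicke_pow a₁ b c₂ d h' s
  rw [e6]
  have h7 : a₁ * 0 - 1 * (-1) = 1 := by ring
  have h8 : a₁ * (0 + t' * (-1)) - (1 + t' * a₁) * (-1) = 1 := by ring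
  have e8 := cl_SL_col1 a₁ 1 (-1) 0 t' h7 h8
  rw [cl_SL_one] at e8
  rw [← e8]
  have h9 : a₁ * (0 + t' * (-1)) - b ^ s * (-1) = 1 := by rw [ht']; ring
  rw [cl_SL_row a₁ (b ^ s) c' d' (-1) (0 + t' * (-1)) h6 h9]
  congr 1
  apply Units.ext
  rw [SL_val, SL_val, ht', mul_comm t' a₁]

end mennicke2

theorem to_two {G : Type} [Group G] [Finite G] (k : ℕ) :
    ∀ M : (Matrix (Fin (k + 2)) (Fin (k + 2)) (MonoidAlgebra ℤ G))ˣ,
    ∃ M' : (Matrix (Fin 2) (Fin 2) (MonoidAlgebra ℤ G))ˣ, cl M' = cl M := by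
  induction k with
  | zero => intro M; exact ⟨M, rfl⟩
  | succ k ih =>
    intro M
    obtain ⟨M', hM'⟩ := stable (k + 2) (by omega) M
    obtain ⟨M'', hM''⟩ := ih M'
    exact ⟨M'', hM''.trans hM'⟩

/-- every class comes from `GL₂` -/
theorem K1_GL2 {G : Type} [Group G] [Finite G] (x : K1 (MonoidAlgebra ℤ G)) :
    ∃ M : (Matrix (Fin 2) (Fin 2) (MonoidAlgebra ℤ G))ˣ, x = cl M := by
  obtain ⟨n, M, hM⟩ := K1_exists x
  obtain ⟨M2, hM2⟩ : ∃ M2 : (Matrix (Fin (n + 2)) (Fin (n + 2)) (MonoidAlgebra ℤ G))ˣ, cl M2 = cl M := by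
    refine ⟨reindexUnit finSumFinEquiv (diagU M (1 : (Matrix (Fin 2) (Fin 2) (MonoidAlgebra ℤ G))ˣ)), ?_⟩
    rw [cl_reindex, cl_stab]
  obtain ⟨M', hM'⟩ := to_two n M2
  exact ⟨M', by rw [hM, hM', hM2]⟩

theorem men_unit1_mul {R : Type} [Ring R] (u v : Rˣ) : unit1 (u * v) = unit1 u * unit1 v := by
  apply Units.ext
  rw [Units.val_mul]
  ext i j
  simp [unit1, Matrix.mul_apply]

theorem men_unit1_one {R : Type} [Ring R] : unit1 (1 : Rˣ) = 1 := by
  apply Units.ext
  ext i j
  simp [unit1]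

theorem men_unit1_pow {R : Type} [Ring R] (u : Rˣ) (n : ℕ) : unit1 (u ^ n) = (unit1 u) ^ n := by
  induction n with
  | zero => rw [pow_zero, pow_zero, men_unit1_one]
  | succ n ih => rw [pow_succ, pow_succ, men_unit1_mul, ih]

theorem mennicke (C : Type) [CommGroup C] [Finite C] (x : K1 (MonoidAlgebra ℤ C)) :
    ∃ (s : ℕ) (u : (MonoidAlgebra ℤ C)ˣ), 0 < s ∧ s • x = cl (unit1 u) := by
  obtain ⟨w, rfl⟩ := K1_GL2 x
  obtain ⟨δ, hδ⟩ : IsUnit (w : Matrix (Fin 2) (Fin 2) (MonoidAlgebra ℤ C)).det :=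
    (Matrix.isUnit_iff_isUnit_det _).1 w.isUnit
  -- `w = diag(δ, 1) * w'`
  let D : (Matrix (Fin 2) (Fin 2) (MonoidAlgebra ℤ C))ˣ :=
    { val := !![(δ : MonoidAlgebra ℤ C), 0; 0, 1]
      inv := !![((δ⁻¹ : (MonoidAlgebra ℤ C)ˣ) : MonoidAlgebra ℤ C), 0; 0, 1]
      val_inv := by
        rw [Matrix.mul_fin_two, Matrix.one_fin_two]; simp
      inv_val := by
        rw [Matrix.mul_fin_two, Matrix.one_fin_two]; simp }
  have hD : cl D = cl (unit1 δ) := by
    rw [← cl_stab_unit (unit1 δ)]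
    let e : Fin 2 ≃ Unit ⊕ Unit :=
      { toFun := ![Sum.inl (), Sum.inr ()]
        invFun := Sum.elim (fun _ => 0) (fun _ => 1)
        left_inv := by intro i; fin_cases i <;> rfl
        right_inv := by rintro (i | i) <;> rfl }
    apply cl_congr e
    intro i j
    rw [diagU_val]
    fin_cases i <;> fin_cases j <;> simp [e, D, unit1]
  set W : Matrix (Fin 2) (Fin 2) (MonoidAlgebra ℤ C) := (w : Matrix (Fin 2) (Fin 2) (MonoidAlgebra ℤ C)) with hW
  rw [Matrix.det_fin_two] at hδ
  have h1 : (((δ⁻¹ : (MonoidAlgebra ℤ C)ˣ) : MonoidAlgebra ℤ C) * W 0 0) * W 1 1 -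
      (((δ⁻¹ : (MonoidAlgebra ℤ C)ˣ) : MonoidAlgebra ℤ C) * W 0 1) * W 1 0 = 1 := by
    rw [mul_assoc, mul_assoc, ← mul_sub, ← hδ, Units.inv_mul]
  have h2 : w = D * SL _ _ _ _ h1 := by
    apply Units.ext
    rw [Units.val_mul, SL_val]
    show W = !![(δ : MonoidAlgebra ℤ C), 0; 0, 1] * _
    rw [Matrix.mul_fin_two]
    ext i j : 1
    fin_cases i <;> fin_cases j
    · simp
    · simp
    · simp
    · simp
  obtain ⟨s, hs, e⟩ := SL_torsion _ _ _ _ h1
  refine ⟨s, δ ^ s, hs, ?_⟩
  rw [h2, cl_mul, smul_add, e, add_zero, hD, ← cl_pow, men_unit1_pow]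

end H842
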