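import Pool.Agent.H842R2.SSCancel

/-! T6: the pair `(j, i)` with `j D₂ = 0` and `j i = k (|G| - Σ)`. -/

open Matrix

namespace H842

section split

variable {V : Type*} [Ring V]

theorem exists_equiv_ker_range {M N : Type*} [AddCommGroup M] [AddCommGroup N] [Module V M]
    [Module V N] [IsSemisimpleModule V M] (f : M →ₗ[V] N) :
    Nonempty (M ≃ₗ[V] (LinearMap.ker f × LinearMap.range f)) := by
  obtain ⟨C, hC⟩ := exists_isCompl (LinearMap.ker f)
  exact ⟨(Submodule.prodEquivOfIsCompl _ C hC).symm.trans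
    ((LinearEquiv.refl V _).prodCongr
      ((Submodule.quotientEquivOfIsCompl _ C hC).symm.trans f.quotKerEquivRange))⟩

theorem ss_split [IsSemisimpleRing V] {X Y : Type*} [Fintype X] [Fintype Y]
    (hXY : Fintype.card X ≤ Fintype.card Y) (d2 : (Y → V) →ₗ[V] (X → V))
    (d1 : (X → V) →ₗ[V] V) (h : LinearMap.range d2 = LinearMap.ker d1) :
    ∃ (s : LinearMap.range d1 →ₗ[V] (Y → V)) (p : (Y → V) →ₗ[V] V),
      (∀ x, d2 (s x) = 0) ∧ ∀ x, p (s x) = (x : V) := by
  classical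
  obtain ⟨m, hm⟩ := Nat.exists_eq_add_of_le hXY
  have hcard : Fintype.card Y = Fintype.card (X ⊕ Fin m) := by simp [hm]
  let eY : Y ≃ (X ⊕ Fin m) := Fintype.equivOfCardEq hcard
  let e1 : (Y → V) ≃ₗ[V] ((X → V) × (Fin m → V)) :=
    (LinearEquiv.funCongrLeft V V eY.symm).trans (LinearEquiv.sumArrowLequivProdArrow X (Fin m) V V)
  obtain ⟨e2⟩ := exists_equiv_ker_range d2
  obtain ⟨e3⟩ := exists_equiv_ker_range d1
  let e4 : LinearMap.range d2 ≃ₗ[V] LinearMap.ker d1 := LinearEquiv.ofEq _ _ h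
  have E : (LinearMap.ker d2 × LinearMap.ker d1) ≃ₗ[V]
      ((LinearMap.range d1 × (Fin m → V)) × LinearMap.ker d1) :=
    (((LinearEquiv.refl V (LinearMap.ker d2)).prodCongr e4.symm).trans e2.symm).trans
      (e1.trans ((e3.prodCongr (LinearEquiv.refl V (Fin m → V))).trans
        ((LinearEquiv.prodAssoc V _ _ _).trans (LinearEquiv.prodComm V _ _))))
  obtain ⟨g⟩ := ss_cancel (R := V) (A := LinearMap.ker d2) (B := LinearMap.range d1 × (Fin m → V))
    (C := LinearMap.ker d1) ⟨E⟩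
  let s : LinearMap.range d1 →ₗ[V] (Y → V) :=
    (LinearMap.ker d2).subtype ∘ₗ g.symm.toLinearMap ∘ₗ LinearMap.inl V _ _
  let p0 : LinearMap.ker d2 →ₗ[V] V :=
    (LinearMap.range d1).subtype ∘ₗ LinearMap.fst V _ _ ∘ₗ g.toLinearMap
  obtain ⟨p, hp⟩ := IsSemisimpleModule.extension_property (LinearMap.ker d2).subtype
    (Submodule.injective_subtype _) p0
  refine ⟨s, p, fun x => (g.symm (x, 0)).2, fun x => ?_⟩
  have h1 := LinearMap.congr_fun hp (g.symm (x, 0))
  change p (s x) = p0 (g.symm (x, 0)) at h1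
  rw [h1]
  simp [p0]

end split

section

variable (G : Type) [Group G]

/-- inclusion of `ℤ[G]` in `ℚ[G]` -/
noncomputable def toQ : MonoidAlgebra ℤ G →+* MonoidAlgebra ℚ G :=
  MonoidAlgebra.mapRingHom G (Int.castRingHom ℚ)

theorem toQ_injective : Function.Injective (toQ G) := by
  intro a b h
  ext g
  have h1 := congrArg (fun z => z.coeff g) h
  simpa [toQ] using h1

theorem toQ_clear1 (x : MonoidAlgebra ℚ G) :
    ∃ (N : ℕ) (x0 : MonoidAlgebra ℤ G), 0 < N ∧ toQ G x0 = (N : MonoidAlgebra ℚ G) * x := by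
  induction x using MonoidAlgebra.induction_linear with
  | zero => exact ⟨1, 0, one_pos, by simp⟩
  | add f g hf hg =>
    obtain ⟨N1, x1, h1, e1⟩ := hf
    obtain ⟨N2, x2, h2, e2⟩ := hg
    refine ⟨N1 * N2, (N2 : MonoidAlgebra ℤ G) * x1 + (N1 : MonoidAlgebra ℤ G) * x2,
      Nat.mul_pos h1 h2, ?_⟩
    rw [map_add, map_mul, map_mul, e1, e2, map_natCast, map_natCast, mul_add]
    push_cast
    rw [← mul_assoc, ← mul_assoc, (Nat.cast_commute N2 (N1 : MonoidAlgebra ℚ G)).eq]
  | single g q =>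
    refine ⟨q.den, MonoidAlgebra.single g q.num, q.den_pos, ?_⟩
    rw [toQ, MonoidAlgebra.mapRingHom_single, MonoidAlgebra.natCast_def,
      MonoidAlgebra.single_mul_single, one_mul]
    congr 1
    simp [Rat.den_mul_eq_num]

theorem toQ_clear {ι : Type*} [Fintype ι] (x : ι → MonoidAlgebra ℚ G) :
    ∃ (N : ℕ) (x0 : ι → MonoidAlgebra ℤ G), 0 < N ∧
      ∀ i, toQ G (x0 i) = (N : MonoidAlgebra ℚ G) * x i := by
  classical
  choose N x0 hN hx using fun i => toQ_clear1 G (x i)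
  refine ⟨∏ i, N i, fun i => ((∏ k ∈ Finset.univ.erase i, N k : ℕ) : MonoidAlgebra ℤ G) * x0 i,
    Finset.prod_pos fun i _ => hN i, fun i => ?_⟩
  rw [map_mul, map_natCast, hx, ← mul_assoc, ← Nat.cast_mul,
    Finset.prod_erase_mul _ _ (Finset.mem_univ i)]

theorem eps_toQ (a : MonoidAlgebra ℤ G) :
    MonoidAlgebra.lift ℚ ℚ G 1 (toQ G a) = ((MonoidAlgebra.lift ℤ ℤ G 1 a : ℤ) : ℚ) := by
  have : ((MonoidAlgebra.lift ℚ ℚ G 1 : MonoidAlgebra ℚ G →ₐ[ℚ] ℚ) : MonoidAlgebra ℚ G →+* ℚ).comp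
      (toQ G) = (Int.castRingHom ℚ).comp
        ((MonoidAlgebra.lift ℤ ℤ G 1 : MonoidAlgebra ℤ G →ₐ[ℤ] ℤ) : MonoidAlgebra ℤ G →+* ℤ) := by
    apply MonoidAlgebra.ringHom_ext
    · intro r; simp [toQ]
    · intro g; simp [toQ]
  exact congrArg (fun f => f a) this

theorem exists_pair (G : Type) [Group G] [Fintype G] {X Y : Type} [Fintype X] [DecidableEq X]
    [Fintype Y] [DecidableEq Y] (D2 : Matrix Y X (MonoidAlgebra ℤ G))
    (D1 : Matrix X Unit (MonoidAlgebra ℤ G))
    (h1 : ∀ a : MonoidAlgebra ℤ G, (∃ v : Matrix Unit X (MonoidAlgebra ℤ G), (v * D1) () () = a) ↔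
      MonoidAlgebra.lift ℤ ℤ G 1 a = 0)
    (h2 : ∀ v : Matrix Unit X (MonoidAlgebra ℤ G), v * D1 = 0 ↔
      ∃ w : Matrix Unit Y (MonoidAlgebra ℤ G), w * D2 = v)
    (hXY : Fintype.card X ≤ Fintype.card Y) :
    ∃ (k : ℕ) (j : Matrix Unit Y (MonoidAlgebra ℤ G)) (i : Matrix Y Unit (MonoidAlgebra ℤ G)),
      0 < k ∧ j * D2 = 0 ∧ (j * i) () () = (k * Fintype.card G : ℕ) - (k : MonoidAlgebra ℤ G) *
        ∑ g : G, MonoidAlgebra.of ℤ G g := by
  let V := MonoidAlgebra ℚ G
  -- the rational chain complex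
  let d1 : (X → V) →ₗ[V] V := (D1.map (toQ G)).vecMulLinear |> LinearMap.comp (LinearMap.proj ())
  let d2 : (Y → V) →ₗ[V] (X → V) := (D2.map (toQ G)).vecMulLinear
  have hd1 : ∀ v, d1 v = ∑ x, v x * toQ G (D1 x ()) := fun v => rfl
  have hd2 : ∀ v x, d2 v x = ∑ y, v y * toQ G (D2 y x) := fun v x => rfl
  have hd1' : ∀ v : X → MonoidAlgebra ℤ G, d1 (fun x => toQ G (v x)) =
      toQ G (((Matrix.of fun (_ : Unit) x => v x) * D1) () ()) := by
    intro v
    rw [hd1, Matrix.mul_apply, map_sum]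
    simp [map_mul]
  have hd2' : ∀ (v : Y → MonoidAlgebra ℤ G) (x : X), d2 (fun y => toQ G (v y)) x =
      toQ G (((Matrix.of fun (_ : Unit) y => v y) * D2) () x) := by
    intro v x
    rw [hd2, Matrix.mul_apply, map_sum]
    simp [map_mul]
  have hNunit : ∀ N : ℕ, 0 < N → ∀ z : V, (N : V) * (((N : ℚ)⁻¹) • z) = z := by
    intro N hN z
    have h3 : (N : V) = algebraMap ℚ V (N : ℚ) := by simp
    rw [h3, ← Algebra.smul_def, smul_smul, mul_inv_cancel₀, one_smul]
    exact_mod_cast hN.ne'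
  have hNcancel : ∀ N : ℕ, 0 < N → ∀ z : V, (N : V) * z = 0 → z = 0 := by
    intro N hN z hz
    have h3 : (N : V) = algebraMap ℚ V (N : ℚ) := by simp
    rw [h3, ← Algebra.smul_def] at hz
    rcases smul_eq_zero.mp hz with h4 | h4
    · exact absurd h4 (by exact_mod_cast hN.ne')
    · exact h4
  have hrange : LinearMap.range d2 = LinearMap.ker d1 := by
    apply le_antisymm
    · rintro _ ⟨w, rfl⟩
      obtain ⟨N, w0, hN, hw⟩ := toQ_clear G w
      have h3 : d2 (fun y => toQ G (w0 y)) = (N : V) • d2 w := by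
        rw [← map_smul]
        congr 1
        funext y
        rw [hw]; rfl
      have h4 : d1 (d2 (fun y => toQ G (w0 y))) = 0 := by
        have h5 : d2 (fun y => toQ G (w0 y)) =
            fun x => toQ G (((Matrix.of fun (_ : Unit) y => w0 y) * D2) () x) := by
          funext x; exact hd2' w0 x
        rw [h5, hd1']
        have h6 : (Matrix.of fun (_ : Unit) x => ((Matrix.of fun (_ : Unit) y => w0 y) * D2) () x)
            = (Matrix.of fun (_ : Unit) y => w0 y) * D2 := by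
          ext i j; rfl
        rw [h6, (h2 _).mpr ⟨_, rfl⟩]
        simp
      rw [h3, map_smul, smul_eq_mul] at h4
      exact hNcancel N hN _ h4
    · intro v hv
      obtain ⟨N, v0, hN, hv0⟩ := toQ_clear G v
      have h3 : d1 (fun x => toQ G (v0 x)) = 0 := by
        have : (fun x => toQ G (v0 x)) = (N : V) • v := by
          funext x; rw [hv0]; rfl
        rw [this, map_smul, LinearMap.mem_ker.mp hv, smul_zero]
      rw [hd1'] at h3
      have h4 : (Matrix.of fun (_ : Unit) x => v0 x) * D1 = 0 := by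
        ext1 i j
        exact toQ_injective G (h3.trans (map_zero _).symm)
      obtain ⟨w, hw⟩ := (h2 _).mp h4
      refine ⟨(fun y => ((N : ℚ)⁻¹) • toQ G (w () y)), ?_⟩
      funext x
      have h5 : d2 (fun y => toQ G (w () y)) x = (N : V) * v x := by
        rw [hd2' (fun y => w () y) x]
        have h6 : (Matrix.of fun (_ : Unit) y => w () y) = w := by ext i j; rfl
        rw [h6, hw]
        exact hv0 x
      have h7 : (N : V) * d2 (fun y => ((N : ℚ)⁻¹) • toQ G (w () y)) x = (N : V) * v x := by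
        rw [← h5, hd2, hd2, Finset.mul_sum]
        apply Finset.sum_congr rfl
        intro y _
        rw [← mul_assoc, hNunit N hN]
      have h8 : (N : V) * (d2 (fun y => ((N : ℚ)⁻¹) • toQ G (w () y)) x - v x) = 0 := by
        rw [mul_sub, h7, sub_self]
      exact sub_eq_zero.mp (hNcancel N hN _ h8)
  -- the idempotent `1 - e`
  let S : V := ∑ g : G, MonoidAlgebra.of ℚ G g
  let f : V := 1 - ((Fintype.card G : ℚ)⁻¹) • S
  have hGpos : 0 < Fintype.card G := Fintype.card_pos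
  have hεf : MonoidAlgebra.lift ℚ ℚ G 1 f = 0 := by
    have hS : MonoidAlgebra.lift ℚ ℚ G 1 S = (Fintype.card G : ℚ) := by
      simp [S, map_sum]
    rw [map_sub, map_smul, hS, map_one, smul_eq_mul, inv_mul_cancel₀, sub_self]
    exact_mod_cast hGpos.ne'
  have hfrange : f ∈ LinearMap.range d1 := by
    obtain ⟨N, f0, hN, hf0⟩ := toQ_clear1 G f
    have h3 : MonoidAlgebra.lift ℤ ℤ G 1 f0 = 0 := by
      have h4 := eps_toQ G f0
      rw [hf0, map_mul, hεf, mul_zero] at h4
      exact_mod_cast h4.symm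
    obtain ⟨v, hv⟩ := (h1 f0).mpr h3
    refine ⟨(fun x => ((N : ℚ)⁻¹) • toQ G (v () x)), ?_⟩
    have h5 : d1 (fun x => toQ G (v () x)) = (N : V) * f := by
      rw [hd1' (fun x => v () x)]
      have h6 : (Matrix.of fun (_ : Unit) y => v () y) = v := by ext i j; rfl
      rw [h6, hv, hf0]
    have h7 : (N : V) * d1 (fun x => ((N : ℚ)⁻¹) • toQ G (v () x)) = (N : V) * f := by
      rw [← h5, hd1, hd1, Finset.mul_sum]
      apply Finset.sum_congr rfl
      intro y _
      rw [← mul_assoc, hNunit N hN]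
    have h8 : (N : V) * (d1 (fun x => ((N : ℚ)⁻¹) • toQ G (v () x)) - f) = 0 := by
      rw [mul_sub, h7, sub_self]
    exact sub_eq_zero.mp (hNcancel N hN _ h8)
  obtain ⟨s, p, hs, hp⟩ := ss_split hXY d2 d1 hrange
  let jQ : Y → V := s ⟨f, hfrange⟩
  let iQ : Y → V := fun y => p (fun y' => if y = y' then 1 else 0)
  have hjQ : d2 jQ = 0 := hs _
  have hji : ∑ y, jQ y * iQ y = f := by
    have h3 := LinearMap.pi_apply_eq_sum_univ p jQ
    have h4 : p jQ = f := hp ⟨f, hfrange⟩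
    rw [h4] at h3
    exact h3.symm
  obtain ⟨N1, j0, hN1, hj0⟩ := toQ_clear G jQ
  obtain ⟨N2, i0, hN2, hi0⟩ := toQ_clear G iQ
  refine ⟨N1 * N2, Matrix.of fun _ y => (Fintype.card G : MonoidAlgebra ℤ G) * j0 y,
    Matrix.of fun y _ => i0 y, Nat.mul_pos hN1 hN2, ?_, ?_⟩
  · ext1 i x
    apply toQ_injective G
    have h3 := hd2' (fun y => (Fintype.card G : MonoidAlgebra ℤ G) * j0 y) x
    have h4 : (fun y => toQ G ((Fintype.card G : MonoidAlgebra ℤ G) * j0 y)) =
        ((Fintype.card G * N1 : ℕ) : V) • jQ := by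
      funext y
      rw [map_mul, hj0, map_natCast, ← mul_assoc, ← Nat.cast_mul]
      rfl
    rw [h4, map_smul, hjQ, smul_zero] at h3
    rw [Matrix.zero_apply, map_zero]
    exact h3.symm
  · apply toQ_injective G
    rw [Matrix.mul_apply, map_sum]
    have h3 : ∀ y ∈ Finset.univ, toQ G ((Matrix.of fun (_ : Unit) y =>
        (Fintype.card G : MonoidAlgebra ℤ G) * j0 y) () y *
        (Matrix.of fun y (_ : Unit) => i0 y) y ()) =
        ((Fintype.card G * (N1 * N2) : ℕ) : V) * (jQ y * iQ y) := by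
      intro y _
      simp only [Matrix.of_apply]
      rw [map_mul, map_mul, hj0, hi0, map_natCast]
      have h4 : (N1 : V) * jQ y * ((N2 : V) * iQ y) = ((N1 * N2 : ℕ) : V) * (jQ y * iQ y) := by
        rw [Nat.cast_mul, mul_assoc, mul_assoc, ← mul_assoc (jQ y) (N2 : V) (iQ y),
          ← (Nat.cast_commute N2 (jQ y)).eq, mul_assoc]
      rw [mul_assoc, h4, ← mul_assoc, ← Nat.cast_mul]
    rw [Finset.sum_congr rfl h3, ← Finset.mul_sum, hji]
    rw [map_sub, map_mul, map_natCast, map_natCast, map_sum]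
    have h5 : ∑ g : G, toQ G (MonoidAlgebra.of ℤ G g) = S := by
      apply Finset.sum_congr rfl
      intro g _
      simp [toQ]
    rw [h5]
    simp only [f]
    rw [mul_sub, mul_one, mul_comm (Fintype.card G) (N1 * N2)]
    congr 1
    rw [Nat.cast_mul (N1 * N2) (Fintype.card G), mul_assoc, hNunit _ hGpos]

end

end H842
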