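import Pool.Agent.H842R2.SiegelFin

/-! T1a: reduction theory of positive definite forms (existence of Siegel reduced forms). -/

open Matrix

namespace H842

/-- Schur complement of the first diagonal entry. -/
noncomputable def schur {d : ℕ} (S : Matrix (Fin (d + 1)) (Fin (d + 1)) ℝ) :
    Matrix (Fin d) (Fin d) ℝ :=
  Matrix.of fun i j => S i.succ j.succ - S i.succ 0 * S 0 j.succ / S 0 0

/-- Open reducedness condition. -/
def red : (d : ℕ) → Matrix (Fin d) (Fin d) ℝ → Prop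
  | 0, _ => True
  | d + 1, S => 0 < S 0 0 ∧ (∀ j : Fin d, |S 0 j.succ| < S 0 0) ∧ red d (schur S) ∧
      (∀ h : 0 < d, S 0 0 < 2 * schur S ⟨0, h⟩ ⟨0, h⟩)

theorem red_succ {d : ℕ} (S : Matrix (Fin (d + 1)) (Fin (d + 1)) ℝ) : red (d + 1) S ↔
    (0 < S 0 0 ∧ (∀ j : Fin d, |S 0 j.succ| < S 0 0) ∧ red d (schur S) ∧
      (∀ h : 0 < d, S 0 0 < 2 * schur S ⟨0, h⟩ ⟨0, h⟩)) := Iff.rfl

theorem continuous_entry {d : ℕ} (i j : Fin d) :
    Continuous (fun S : Matrix (Fin d) (Fin d) ℝ => S i j) :=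
  (continuous_apply j).comp (continuous_apply i)

theorem schur_continuousOn (d : ℕ) :
    ContinuousOn (schur (d := d)) {S : Matrix (Fin (d + 1)) (Fin (d + 1)) ℝ | 0 < S 0 0} := by
  refine continuousOn_pi.mpr fun i => continuousOn_pi.mpr fun j => ?_
  have h1 : ∀ k l : Fin (d + 1), ContinuousOn (fun S : Matrix (Fin (d + 1)) (Fin (d + 1)) ℝ => S k l)
    {S : Matrix (Fin (d + 1)) (Fin (d + 1)) ℝ | 0 < S 0 0} := fun k l => (continuous_entry k l).continuousOn
  exact (h1 i.succ j.succ).sub (((h1 i.succ 0).mul (h1 0 j.succ)).div (h1 0 0)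
    (fun S hS => (show (0 : ℝ) < S 0 0 from hS).ne'))

theorem red_isOpen : ∀ d : ℕ, IsOpen {S : Matrix (Fin d) (Fin d) ℝ | red d S}
  | 0 => by
    have : {S : Matrix (Fin 0) (Fin 0) ℝ | red 0 S} = Set.univ := by
      ext S; simp [red]
    rw [this]; exact isOpen_univ
  | d + 1 => by
    have h0 : IsOpen {S : Matrix (Fin (d + 1)) (Fin (d + 1)) ℝ | 0 < S 0 0} :=
      isOpen_lt continuous_const (continuous_entry 0 0)
    have h1 : IsOpen {S : Matrix (Fin (d + 1)) (Fin (d + 1)) ℝ | ∀ j : Fin d, |S 0 j.succ| < S 0 0} := by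
      have : {S : Matrix (Fin (d + 1)) (Fin (d + 1)) ℝ | ∀ j : Fin d, |S 0 j.succ| < S 0 0} =
          ⋂ j : Fin d, {S | |S 0 j.succ| < S 0 0} := by ext S; simp
      rw [this]
      exact isOpen_iInter_of_finite fun j =>
        isOpen_lt (continuous_entry 0 j.succ).abs (continuous_entry 0 0)
    have h2 := (schur_continuousOn d).isOpen_inter_preimage h0 (red_isOpen d)
    have h3 : ∀ h : 0 < d, IsOpen ({S : Matrix (Fin (d + 1)) (Fin (d + 1)) ℝ | 0 < S 0 0} ∩
        {S | S 0 0 < 2 * schur S ⟨0, h⟩ ⟨0, h⟩}) := by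
      intro h
      have hc : ContinuousOn (fun S : Matrix (Fin (d + 1)) (Fin (d + 1)) ℝ =>
          2 * schur S ⟨0, h⟩ ⟨0, h⟩ - S 0 0) {S | 0 < S 0 0} := by
        have h4 : ContinuousOn (fun S : Matrix (Fin (d + 1)) (Fin (d + 1)) ℝ =>
          schur S ⟨0, h⟩ ⟨0, h⟩) {S | 0 < S 0 0} :=
          (continuous_entry (⟨0, h⟩ : Fin d) ⟨0, h⟩).comp_continuousOn (schur_continuousOn d)
        exact (continuousOn_const.mul h4).sub (continuous_entry 0 0).continuousOn
      have h5 := hc.isOpen_inter_preimage h0 (isOpen_Ioi (a := (0 : ℝ)))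
      have h6 : ({S : Matrix (Fin (d + 1)) (Fin (d + 1)) ℝ | 0 < S 0 0} ∩
        {S | S 0 0 < 2 * schur S ⟨0, h⟩ ⟨0, h⟩}) = ({S | 0 < S 0 0} ∩
          (fun S : Matrix (Fin (d + 1)) (Fin (d + 1)) ℝ =>
          2 * schur S ⟨0, h⟩ ⟨0, h⟩ - S 0 0) ⁻¹' Set.Ioi 0) := by
        ext S; simp
      rw [h6]; exact h5
    by_cases h : 0 < d
    · have : {S : Matrix (Fin (d + 1)) (Fin (d + 1)) ℝ | red (d + 1) S} =
          ({S | 0 < S 0 0} ∩ (schur ⁻¹' {S | red d S})) ∩
          ({S | ∀ j : Fin d, |S 0 j.succ| < S 0 0} ∩ ({S | 0 < S 0 0} ∩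
            {S | S 0 0 < 2 * schur S ⟨0, h⟩ ⟨0, h⟩})) := by
        ext S
        simp only [Set.mem_ofPred_eq, red_succ, Set.mem_inter_iff, Set.mem_preimage]
        constructor
        · rintro ⟨a, b, c, e⟩
          exact ⟨⟨a, c⟩, b, a, e h⟩
        · rintro ⟨⟨a, c⟩, b, _, e⟩
          exact ⟨a, b, c, fun _ => e⟩
      rw [this]
      exact h2.inter (h1.inter (h3 h))
    · have : {S : Matrix (Fin (d + 1)) (Fin (d + 1)) ℝ | red (d + 1) S} =
          ({S | 0 < S 0 0} ∩ (schur ⁻¹' {S | red d S})) ∩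
          {S | ∀ j : Fin d, |S 0 j.succ| < S 0 0} := by
        ext S
        simp only [Set.mem_ofPred_eq, red_succ, Set.mem_inter_iff, Set.mem_preimage]
        constructor
        · rintro ⟨a, b, c, e⟩
          exact ⟨⟨a, c⟩, b⟩
        · rintro ⟨⟨a, c⟩, b⟩
          exact ⟨a, b, c, fun h' => absurd h' h⟩
      rw [this]
      exact h2.inter h1

/-- Reduced symmetric matrices are in the Siegel set. -/
theorem red_sieg : ∀ (d : ℕ) (S : Matrix (Fin d) (Fin d) ℝ), (∀ i j, S i j = S j i) → red d S →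
    Sieg d S
  | 0, S, _, _ => ⟨fun i => i.elim0, S, fun i => i.elim0, fun i => i.elim0, fun i => i.elim0,
      fun i => i.elim0, fun i => i.elim0, by ext i; exact i.elim0⟩
  | d + 1, S, hsymm, hred => by
    obtain ⟨hs, hv, hr, hlast⟩ := (red_succ S).mp hred
    have hsch : ∀ i j, schur S i j = schur S j i := by
      intro i j
      simp only [schur, Matrix.of_apply]
      rw [hsymm i.succ j.succ, hsymm i.succ 0, hsymm 0 j.succ]
      ring
    obtain ⟨D', U', h1, h2, h3, h4, h5, h6⟩ := red_sieg d (schur S) hsch hr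
    let D : Fin (d + 1) → ℝ := Fin.cons (S 0 0) D'
    let U : Matrix (Fin (d + 1)) (Fin (d + 1)) ℝ := Matrix.of
      (Fin.cons (Fin.cons 1 (fun j => S 0 j.succ / S 0 0)) (fun i => Fin.cons 0 (fun j => U' i j)))
    have hD0 : D 0 = S 0 0 := rfl
    have hDs : ∀ i : Fin d, D i.succ = D' i := fun i => rfl
    have hU00 : U 0 0 = 1 := rfl
    have hU0s : ∀ j : Fin d, U 0 j.succ = S 0 j.succ / S 0 0 := fun i => rfl
    have hUs0 : ∀ j : Fin d, U j.succ 0 = 0 := fun i => rfl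
    have hUss : ∀ i j : Fin d, U i.succ j.succ = U' i j := fun i j => rfl
    have hD'0 : ∀ h : 0 < d, D' ⟨0, h⟩ = schur S ⟨0, h⟩ ⟨0, h⟩ := by
      intro h
      rw [h6, quad_diag, Finset.sum_eq_single (⟨0, h⟩ : Fin d)]
      · rw [h2]; ring
      · intro i _ hi
        have : (⟨0, h⟩ : Fin d) < i := by
          rw [Fin.lt_def]
          rcases Nat.eq_zero_or_pos (i : ℕ) with h7 | h7
          · exact absurd (Fin.ext h7) hi
          · exact h7
        rw [h3 i _ this]; ring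
      · simp
    refine ⟨D, U, ?_, ?_, ?_, ?_, ?_, ?_⟩
    · intro i
      refine Fin.cases ?_ (fun i => ?_) i
      · exact hs
      · exact h1 i
    · intro i
      refine Fin.cases ?_ (fun i => ?_) i
      · exact hU00
      · exact h2 i
    · intro i
      refine Fin.cases (fun j hj => ?_) (fun i => ?_) i
      · exact absurd hj (Fin.not_lt_zero j)
      · intro j
        refine Fin.cases (fun _ => ?_) (fun j hj => ?_) j
        · exact hUs0 i
        · exact h3 i j (Fin.succ_lt_succ_iff.mp hj)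
    · intro i
      refine Fin.cases (fun j => ?_) (fun i => ?_) i
      · refine Fin.cases ?_ (fun j => ?_) j
        · rw [hU00]; simp
        · rw [hU0s, abs_div, abs_of_pos hs, div_le_one hs]
          exact (hv j).le
      · intro j
        refine Fin.cases ?_ (fun j => ?_) j
        · rw [hUs0]; simp
        · exact h4 i j
    · intro i
      refine Fin.cases (fun j hj => ?_) (fun i => ?_) i
      · have hd : 0 < d := by
          have := j.isLt
          simp at hj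
          omega
        have hj' : j = (⟨0, hd⟩ : Fin d).succ := Fin.ext (by rw [← hj]; simp)
        rw [hj', hD0, hDs, hD'0 hd]
        exact (hlast hd).le
      · intro j hj
        have : (j : ℕ) ≠ 0 := by omega
        obtain ⟨j', rfl⟩ := Fin.exists_succ_eq.mpr (fun h : j = 0 => this (by rw [h]; rfl))
        rw [hDs, hDs]
        apply h5
        simp at hj
        exact hj
    · have key : ∀ i j, (Uᵀ * diagonal D * U) i j = ∑ k, U k i * D k * U k j := by
        intro i j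
        rw [Matrix.mul_apply]
        apply Finset.sum_congr rfl
        intro k _
        rw [Matrix.mul_diagonal, Matrix.transpose_apply]
      have key' : ∀ i j, (U'ᵀ * diagonal D' * U') i j = ∑ k, U' k i * D' k * U' k j := by
        intro i j
        rw [Matrix.mul_apply]
        apply Finset.sum_congr rfl
        intro k _
        rw [Matrix.mul_diagonal, Matrix.transpose_apply]
      ext i j
      rw [key, Fin.sum_univ_succ]
      simp only [hD0, hDs]
      revert j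
      refine Fin.cases (fun j => ?_) (fun i j => ?_) i
      · refine Fin.cases ?_ (fun j => ?_) j
        · simp only [hU00, hUs0]; simp
        · simp only [hU00, hUs0, hU0s]
          simp
          field_simp
      · refine Fin.cases ?_ (fun j => ?_) j
        · simp only [hU00, hUs0, hU0s]
          simp
          rw [hsymm i.succ 0]
          field_simp
        · simp only [hU0s, hUss]
          rw [← key', ← h6]
          simp only [schur, Matrix.of_apply]
          rw [hsymm i.succ 0]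
          field_simp
          ring

/-- positive definite symmetric matrices -/
def PD {d : ℕ} (S : Matrix (Fin d) (Fin d) ℝ) : Prop :=
  (∀ i j, S i j = S j i) ∧ ∀ x : Fin d → ℝ, x ≠ 0 → 0 < x ⬝ᵥ (S *ᵥ x)

/-- the real matrix of an integral one -/
def toR {d : ℕ} (g : Matrix (Fin d) (Fin d) ℤ) : Matrix (Fin d) (Fin d) ℝ :=
  g.map (Int.cast : ℤ → ℝ)

theorem toR_eq {d : ℕ} (g : Matrix (Fin d) (Fin d) ℤ) :
    toR g = (Int.castRingHom ℝ).mapMatrix g := rfl

theorem toR_mul {d : ℕ} (g h : Matrix (Fin d) (Fin d) ℤ) : toR (g * h) = toR g * toR h := by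
  rw [toR_eq, toR_eq, toR_eq, map_mul]

theorem toR_one {d : ℕ} : toR (1 : Matrix (Fin d) (Fin d) ℤ) = 1 := by
  rw [toR_eq, map_one]

theorem quad_trans {d : ℕ} (S G : Matrix (Fin d) (Fin d) ℝ) (x : Fin d → ℝ) :
    x ⬝ᵥ ((Gᵀ * S * G) *ᵥ x) = (G *ᵥ x) ⬝ᵥ (S *ᵥ (G *ᵥ x)) := by
  rw [← mulVec_mulVec, ← mulVec_mulVec, dotProduct_mulVec, vecMul_transpose]

theorem PD.trans {d : ℕ} {S : Matrix (Fin d) (Fin d) ℝ} (hS : PD S)
    {G G' : Matrix (Fin d) (Fin d) ℝ} (hG : G' * G = 1) : PD (Gᵀ * S * G) := by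
  refine ⟨fun i j => ?_, fun x hx => ?_⟩
  · have h1 : Sᵀ = S := by ext i j; exact hS.1 j i
    have h2 : (Gᵀ * S * G)ᵀ = Gᵀ * S * G := by
      simp only [Matrix.transpose_mul, h1, Matrix.transpose_transpose, Matrix.mul_assoc]
    exact (congrFun (congrFun h2 j) i)
  · rw [quad_trans]
    apply hS.2
    intro h
    apply hx
    have : G' *ᵥ (G *ᵥ x) = x := by rw [mulVec_mulVec, hG, one_mulVec]
    rw [← this, h, mulVec_zero]

theorem quad_single {d : ℕ} (S : Matrix (Fin d) (Fin d) ℝ) (i : Fin d) :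
    (Pi.single i 1 : Fin d → ℝ) ⬝ᵥ (S *ᵥ Pi.single i 1) = S i i := by
  rw [Matrix.mulVec_single_one, single_one_dotProduct]; rfl

theorem PD_finite {d : ℕ} {S : Matrix (Fin d) (Fin d) ℝ} (hS : PD S) (c : ℝ) :
    {x : Fin d → ℤ | (fun i => (x i : ℝ)) ⬝ᵥ (S *ᵥ (fun i => (x i : ℝ))) ≤ c}.Finite := by
  rcases Nat.eq_zero_or_pos d with hd | hd
  · subst hd; exact Set.toFinite _
  have hcont : Continuous (fun x : Fin d → ℝ => x ⬝ᵥ (S *ᵥ x)) := by
    simp only [dotProduct, mulVec]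
    fun_prop
  have : Nonempty (Fin d) := ⟨⟨0, hd⟩⟩
  have hne : (Metric.sphere (0 : Fin d → ℝ) 1).Nonempty :=
    ⟨fun _ => 1, by simp⟩
  obtain ⟨x0, hx0, hmin⟩ := (isCompact_sphere (0 : Fin d → ℝ) 1).exists_isMinOn hne
    hcont.continuousOn
  have hx0n : ‖x0‖ = 1 := by simpa using hx0
  have hx00 : x0 ≠ 0 := by intro h; rw [h] at hx0n; simp at hx0n
  set l := x0 ⬝ᵥ (S *ᵥ x0) with hl
  have hlpos : 0 < l := hS.2 x0 hx00
  have hbound : ∀ x : Fin d → ℝ, l * ‖x‖ ^ 2 ≤ x ⬝ᵥ (S *ᵥ x) := by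
    intro x
    by_cases hx : x = 0
    · subst hx; simp
    have hn : 0 < ‖x‖ := norm_pos_iff.mpr hx
    have h1 : ‖x‖⁻¹ • x ∈ Metric.sphere (0 : Fin d → ℝ) 1 := by
      rw [mem_sphere_zero_iff_norm, norm_smul, norm_inv, norm_norm, inv_mul_cancel₀ hn.ne']
    have h2 : l ≤ (‖x‖⁻¹ • x) ⬝ᵥ (S *ᵥ (‖x‖⁻¹ • x)) := hmin h1
    rw [mulVec_smul, smul_dotProduct, dotProduct_smul, smul_eq_mul, smul_eq_mul] at h2
    have h3 : ‖x‖ ^ 2 * (‖x‖⁻¹ * (‖x‖⁻¹ * (x ⬝ᵥ (S *ᵥ x)))) = x ⬝ᵥ (S *ᵥ x) := by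
      field_simp
    calc l * ‖x‖ ^ 2 = ‖x‖ ^ 2 * l := mul_comm _ _
      _ ≤ ‖x‖ ^ 2 * (‖x‖⁻¹ * (‖x‖⁻¹ * (x ⬝ᵥ (S *ᵥ x)))) := by
        apply mul_le_mul_of_nonneg_left h2 (by positivity)
      _ = _ := h3
  set B : ℝ := 1 + |c| / l with hB
  have hsub : {x : Fin d → ℤ | (fun i => (x i : ℝ)) ⬝ᵥ (S *ᵥ (fun i => (x i : ℝ))) ≤ c} ⊆
      Set.Icc (fun _ => -⌈B⌉) (fun _ => ⌈B⌉) := by
    intro x hx
    have h1 : l * ‖(fun i => (x i : ℝ))‖ ^ 2 ≤ |c| :=
      (hbound _).trans (le_trans hx (le_abs_self c))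
    have h2 : ‖(fun i => (x i : ℝ))‖ ≤ B := by
      have h3 : ‖(fun i => (x i : ℝ))‖ ^ 2 ≤ |c| / l := by
        rw [le_div_iff₀ hlpos]; linarith
      have h4 := norm_nonneg (fun i => (x i : ℝ))
      nlinarith [sq_nonneg (‖(fun i => (x i : ℝ))‖ - 1)]
    have h5 : ∀ i, |(x i : ℝ)| ≤ B := fun i => (norm_le_pi_norm (fun i => (x i : ℝ)) i).trans h2
    have h6 := Int.le_ceil B
    constructor
    · intro i
      have h3 := (abs_le.mp (h5 i)).1
      have h7 : (-(⌈B⌉ : ℤ) : ℝ) ≤ (x i : ℝ) := by linarith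
      exact_mod_cast h7
    · intro i
      have h3 := (abs_le.mp (h5 i)).2
      have h7 : (x i : ℝ) ≤ (⌈B⌉ : ℤ) := by linarith
      exact_mod_cast h7
  exact (Set.finite_Icc _ _).subset hsub

theorem mulVec_toR_single {d : ℕ} (g : Matrix (Fin d) (Fin d) ℤ) (j : Fin d) :
    toR g *ᵥ (Pi.single j 1) = fun i => (g i j : ℝ) := by
  rw [Matrix.mulVec_single_one]; rfl

theorem entry_quad {d : ℕ} (S : Matrix (Fin d) (Fin d) ℝ) (g : Matrix (Fin d) (Fin d) ℤ)
    (j : Fin d) : ((toR g)ᵀ * S * toR g) j j =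
      (fun i => (g i j : ℝ)) ⬝ᵥ (S *ᵥ (fun i => (g i j : ℝ))) := by
  rw [← quad_single ((toR g)ᵀ * S * toR g) j, quad_trans, mulVec_toR_single]

/-- the right action `S ↦ gᵀ S g` -/
def act {d : ℕ} (S : Matrix (Fin d) (Fin d) ℝ) (g : (Matrix (Fin d) (Fin d) ℤ)ˣ) :
    Matrix (Fin d) (Fin d) ℝ :=
  (toR (g : Matrix (Fin d) (Fin d) ℤ))ᵀ * S * toR (g : Matrix (Fin d) (Fin d) ℤ)

theorem act_act {d : ℕ} (S : Matrix (Fin d) (Fin d) ℝ) (g h : (Matrix (Fin d) (Fin d) ℤ)ˣ) :
    act (act S g) h = act S (g * h) := by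
  unfold act
  rw [Units.val_mul, toR_mul, Matrix.transpose_mul]
  simp only [Matrix.mul_assoc]

theorem act_one {d : ℕ} (S : Matrix (Fin d) (Fin d) ℝ) : act S 1 = S := by
  unfold act
  rw [Units.val_one, toR_one, Matrix.transpose_one, Matrix.one_mul, Matrix.mul_one]

theorem toR_inv_mul {d : ℕ} (g : (Matrix (Fin d) (Fin d) ℤ)ˣ) :
    toR ((g⁻¹ : (Matrix (Fin d) (Fin d) ℤ)ˣ) : Matrix (Fin d) (Fin d) ℤ) *
      toR (g : Matrix (Fin d) (Fin d) ℤ) = 1 := by
  rw [← toR_mul, Units.inv_mul, toR_one]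

theorem PD.act {d : ℕ} {S : Matrix (Fin d) (Fin d) ℝ} (hS : PD S)
    (g : (Matrix (Fin d) (Fin d) ℤ)ˣ) : PD (act S g) :=
  hS.trans (toR_inv_mul g)

theorem exists_min {d : ℕ} {S : Matrix (Fin (d + 1)) (Fin (d + 1)) ℝ} (hS : PD S) :
    ∃ g : (Matrix (Fin (d + 1)) (Fin (d + 1)) ℤ)ˣ, ∀ h : (Matrix (Fin (d + 1)) (Fin (d + 1)) ℤ)ˣ,
      act S g 0 0 ≤ act S h 0 0 := by
  let q : (Fin (d + 1) → ℤ) → ℝ := fun x => (fun i => (x i : ℝ)) ⬝ᵥ (S *ᵥ (fun i => (x i : ℝ)))
  let s : Set (Fin (d + 1) → ℤ) := {x | q x ≤ S 0 0 ∧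
    ∃ g : (Matrix (Fin (d + 1)) (Fin (d + 1)) ℤ)ˣ,
      ∀ i, (g : Matrix (Fin (d + 1)) (Fin (d + 1)) ℤ) i 0 = x i}
  have hfin : s.Finite := (PD_finite hS (S 0 0)).subset fun x hx => hx.1
  have h0 : q (fun i => (1 : Matrix (Fin (d + 1)) (Fin (d + 1)) ℤ) i 0) = S 0 0 := by
    have := entry_quad S 1 0
    rw [toR_one] at this
    simp only [transpose_one, Matrix.one_mul, Matrix.mul_one] at this
    exact this.symm
  have hne : s.Nonempty := ⟨fun i => (1 : Matrix (Fin (d + 1)) (Fin (d + 1)) ℤ) i 0, h0.le,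
    1, fun i => rfl⟩
  obtain ⟨x, ⟨hx1, g, hg⟩, hmin⟩ := Set.exists_min_image s q hfin hne
  refine ⟨g, fun h => ?_⟩
  unfold act
  rw [entry_quad, entry_quad]
  have hgx : (fun i => (((g : Matrix (Fin (d + 1)) (Fin (d + 1)) ℤ) i 0 : ℤ) : ℝ)) =
      fun i => (x i : ℝ) := by
    funext i; rw [hg]
  rw [hgx]
  change q x ≤ q (fun i => (h : Matrix (Fin (d + 1)) (Fin (d + 1)) ℤ) i 0)
  rcases le_or_gt (q (fun i => (h : Matrix (Fin (d + 1)) (Fin (d + 1)) ℤ) i 0)) (S 0 0) with h1 | h1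
  · exact hmin _ ⟨h1, h, fun i => rfl⟩
  · exact hx1.trans h1.le

/-- the matrix `[1 w; 0 g]` -/
def extM {R : Type} [CommRing R] {d : ℕ} (w : Fin d → R) (g : Matrix (Fin d) (Fin d) R) :
    Matrix (Fin (d + 1)) (Fin (d + 1)) R :=
  Matrix.of (Fin.cons (Fin.cons 1 w) (fun i => Fin.cons 0 (g i)))

section ext

variable {R : Type} [CommRing R] {d : ℕ} (w : Fin d → R) (g : Matrix (Fin d) (Fin d) R)

theorem extM_00 : extM w g 0 0 = 1 := rfl
theorem extM_0s (j : Fin d) : extM w g 0 j.succ = w j := rfl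
theorem extM_s0 (j : Fin d) : extM w g j.succ 0 = 0 := rfl
theorem extM_ss (i j : Fin d) : extM w g i.succ j.succ = g i j := rfl

theorem extM_mul (w' : Fin d → R) (g' : Matrix (Fin d) (Fin d) R) :
    extM w g * extM w' g' = extM (w' + w ᵥ* g') (g * g') := by
  ext i j
  rw [Matrix.mul_apply, Fin.sum_univ_succ]
  revert j
  refine Fin.cases (fun j => ?_) (fun i j => ?_) i
  · refine Fin.cases ?_ (fun j => ?_) j
    · simp [extM_00, extM_s0]
    · simp only [extM_00, extM_0s, extM_ss, Pi.add_apply, one_mul]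
      rfl
  · refine Fin.cases ?_ (fun j => ?_) j
    · simp [extM_00, extM_s0]
    · simp only [extM_s0, extM_0s, extM_ss, zero_mul, zero_add]
      rfl

theorem extM_one : extM (0 : Fin d → R) (1 : Matrix (Fin d) (Fin d) R) = 1 := by
  ext i j
  revert j
  refine Fin.cases (fun j => ?_) (fun i j => ?_) i
  · refine Fin.cases ?_ (fun j => ?_) j
    · simp [extM_00]
    · rw [extM_0s, Matrix.one_apply_ne (Fin.succ_ne_zero j).symm]; rfl
  · refine Fin.cases ?_ (fun j => ?_) j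
    · rw [extM_s0, Matrix.one_apply_ne (Fin.succ_ne_zero i)]
    · rw [extM_ss, Matrix.one_apply, Matrix.one_apply]
      simp [Fin.succ_inj]

end ext

/-- `[1 w; 0 g]` as a unit -/
def extU {d : ℕ} (w : Fin d → ℤ) (g : (Matrix (Fin d) (Fin d) ℤ)ˣ) :
    (Matrix (Fin (d + 1)) (Fin (d + 1)) ℤ)ˣ where
  val := extM w g
  inv := extM (-(w ᵥ* (g⁻¹ : (Matrix (Fin d) (Fin d) ℤ)ˣ))) (g⁻¹ : (Matrix (Fin d) (Fin d) ℤ)ˣ)
  val_inv := by
    rw [extM_mul, Units.mul_inv, neg_add_cancel, extM_one]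
  inv_val := by
    rw [extM_mul, Units.inv_mul, neg_vecMul, vecMul_vecMul, Units.inv_mul, vecMul_one,
      add_neg_cancel, extM_one]

theorem toR_extM {d : ℕ} (w : Fin d → ℤ) (g : Matrix (Fin d) (Fin d) ℤ) :
    toR (extM w g) = extM (fun i => (w i : ℝ)) (toR g) := by
  ext i j
  revert j
  refine Fin.cases (fun j => ?_) (fun i j => ?_) i
  · refine Fin.cases ?_ (fun j => ?_) j
    · simp [toR, extM_00]
    · simp [toR, extM_0s]
  · refine Fin.cases ?_ (fun j => ?_) j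
    · simp [toR, extM_s0]
    · simp [toR, extM_ss]

theorem trans_apply {d : ℕ} (T H : Matrix (Fin d) (Fin d) ℝ) (a b : Fin d) :
    (Hᵀ * T * H) a b = ∑ i, ∑ j, H i a * T i j * H j b := by
  rw [Matrix.mul_assoc, Matrix.mul_apply]
  apply Finset.sum_congr rfl
  intro i _
  rw [Matrix.mul_apply, Finset.mul_sum]
  apply Finset.sum_congr rfl
  intro j _
  rw [Matrix.transpose_apply]; ring

theorem ext_trans_00 {d : ℕ} (T : Matrix (Fin (d + 1)) (Fin (d + 1)) ℝ) (w : Fin d → ℝ)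
    (g : Matrix (Fin d) (Fin d) ℝ) : ((extM w g)ᵀ * T * extM w g) 0 0 = T 0 0 := by
  rw [trans_apply]
  simp [Fin.sum_univ_succ, extM_00, extM_s0]

theorem ext_trans_0s {d : ℕ} (T : Matrix (Fin (d + 1)) (Fin (d + 1)) ℝ) (w : Fin d → ℝ)
    (g : Matrix (Fin d) (Fin d) ℝ) (j : Fin d) : ((extM w g)ᵀ * T * extM w g) 0 j.succ =
      T 0 0 * w j + ∑ k, T 0 k.succ * g k j := by
  rw [trans_apply]
  simp [Fin.sum_univ_succ, extM_00, extM_s0, extM_0s, extM_ss]

theorem ext_trans_s0 {d : ℕ} (T : Matrix (Fin (d + 1)) (Fin (d + 1)) ℝ) (w : Fin d → ℝ)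
    (g : Matrix (Fin d) (Fin d) ℝ) (j : Fin d) : ((extM w g)ᵀ * T * extM w g) j.succ 0 =
      T 0 0 * w j + ∑ k, T k.succ 0 * g k j := by
  rw [trans_apply]
  simp [Fin.sum_univ_succ, extM_00, extM_s0, extM_0s, extM_ss, mul_comm]

theorem ext_trans_ss {d : ℕ} (T : Matrix (Fin (d + 1)) (Fin (d + 1)) ℝ) (w : Fin d → ℝ)
    (g : Matrix (Fin d) (Fin d) ℝ) (i j : Fin d) : ((extM w g)ᵀ * T * extM w g) i.succ j.succ =
      w i * T 0 0 * w j + w i * (∑ k, T 0 k.succ * g k j) + (∑ k, T k.succ 0 * g k i) * w j +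
        ∑ k, ∑ l, g k i * T k.succ l.succ * g l j := by
  rw [trans_apply]
  simp only [Fin.sum_univ_succ, extM_0s, extM_ss]
  rw [Finset.sum_add_distrib, Finset.sum_mul, Finset.mul_sum]
  have h1 : ∑ i_1, w i * T 0 i_1.succ * g i_1 j = ∑ i_1, w i * (T 0 i_1.succ * g i_1 j) :=
    Finset.sum_congr rfl fun _ _ => by ring
  have h2 : ∑ x, g x i * T x.succ 0 * w j = ∑ x, T x.succ 0 * g x i * w j :=
    Finset.sum_congr rfl fun _ _ => by ring
  rw [h1, h2]
  ring

theorem schur_ext {d : ℕ} (T : Matrix (Fin (d + 1)) (Fin (d + 1)) ℝ) (hT : T 0 0 ≠ 0)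
    (w : Fin d → ℝ) (g : Matrix (Fin d) (Fin d) ℝ) :
    schur ((extM w g)ᵀ * T * extM w g) = gᵀ * schur T * g := by
  ext i j
  rw [trans_apply]
  simp only [schur, Matrix.of_apply]
  rw [ext_trans_00, ext_trans_0s, ext_trans_s0, ext_trans_ss]
  have h1 : ∑ k, ∑ l, g k i * (T k.succ l.succ - T k.succ 0 * T 0 l.succ / T 0 0) * g l j =
      ∑ k, ∑ l, g k i * T k.succ l.succ * g l j -
        (∑ k, T k.succ 0 * g k i) * (∑ l, T 0 l.succ * g l j) / T 0 0 := by
    rw [Finset.sum_mul_sum, Finset.sum_div, ← Finset.sum_sub_distrib]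
    apply Finset.sum_congr rfl
    intro k _
    rw [Finset.sum_div, ← Finset.sum_sub_distrib]
    apply Finset.sum_congr rfl
    intro l _
    ring
  rw [h1]
  field_simp
  ring

theorem PD_pos {d : ℕ} {S : Matrix (Fin d) (Fin d) ℝ} (hS : PD S) (i : Fin d) : 0 < S i i := by
  rw [← quad_single S i]
  apply hS.2
  intro h
  have := congrFun h i
  simp at this

theorem PD_schur {d : ℕ} {S : Matrix (Fin (d + 1)) (Fin (d + 1)) ℝ} (hS : PD S) :
    PD (schur S) := by
  have hs : 0 < S 0 0 := PD_pos hS 0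
  refine ⟨fun i j => ?_, fun y hy => ?_⟩
  · simp only [schur, Matrix.of_apply]
    rw [hS.1 i.succ j.succ, hS.1 i.succ 0, hS.1 0 j.succ]
    ring
  · let x : Fin (d + 1) → ℝ := Fin.cons (-(∑ l, S 0 l.succ * y l) / S 0 0) y
    have hx0 : x 0 = -(∑ l, S 0 l.succ * y l) / S 0 0 := rfl
    have hxs : ∀ i : Fin d, x i.succ = y i := fun i => rfl
    have hx : x ≠ 0 := by
      intro h
      apply hy
      funext i
      rw [← hxs, h]; rfl
    have h1 := hS.2 x hx
    have h2 : x ⬝ᵥ (S *ᵥ x) = y ⬝ᵥ (schur S *ᵥ y) := by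
      simp only [dotProduct, mulVec]
      rw [Fin.sum_univ_succ]
      simp only [Fin.sum_univ_succ (fun j => S _ j * x j), hxs]
      have h3 : ∀ i, ∑ j, schur S i j * y j = ∑ j, S i.succ j.succ * y j -
          S i.succ 0 * (∑ l, S 0 l.succ * y l) / S 0 0 := by
        intro i
        rw [Finset.mul_sum, Finset.sum_div, ← Finset.sum_sub_distrib]
        apply Finset.sum_congr rfl
        intro j _
        simp only [schur, Matrix.of_apply]
        ring
      simp only [h3]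
      rw [hx0]
      have h4 : S 0 0 * (-(∑ l, S 0 l.succ * y l) / S 0 0) + ∑ l, S 0 l.succ * y l = 0 := by
        field_simp; ring
      rw [h4, mul_zero, zero_add]
      apply Finset.sum_congr rfl
      intro i _
      ring
    rw [← h2]
    exact h1

theorem exists_swap {d : ℕ} (i j : Fin d) : ∃ P : (Matrix (Fin d) (Fin d) ℤ)ˣ,
    ∀ k, (P : Matrix (Fin d) (Fin d) ℤ) k i = if k = j then 1 else 0 := by
  let σ := Equiv.swap i j
  let P : Matrix (Fin d) (Fin d) ℤ := Matrix.of fun a b => if a = σ b then 1 else 0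
  have hP : P * P = 1 := by
    ext a b
    rw [Matrix.mul_apply, Finset.sum_eq_single (σ b)]
    · simp only [P, Matrix.of_apply, if_true, mul_one, Matrix.one_apply]
      simp [σ]
    · intro c _ hc
      simp [P, hc]
    · simp
  refine ⟨⟨P, P, hP, hP⟩, fun k => ?_⟩
  simp [P, σ]

theorem red_exists : ∀ (d : ℕ) (S : Matrix (Fin d) (Fin d) ℝ), PD S →
    ∃ g : (Matrix (Fin d) (Fin d) ℤ)ˣ, red d (act S g)
  | 0, S, _ => ⟨1, trivial⟩
  | d + 1, S, hS => by
    obtain ⟨g0, hmin⟩ := exists_min hS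
    set T := act S g0 with hT
    have hTPD : PD T := hS.act g0
    have hminT : ∀ h : (Matrix (Fin (d + 1)) (Fin (d + 1)) ℤ)ˣ, T 0 0 ≤ act T h 0 0 := by
      intro h
      have := hmin (g0 * h)
      rw [← act_act] at this
      exact this
    have hs : 0 < T 0 0 := PD_pos hTPD 0
    obtain ⟨g', hg'⟩ := red_exists d (schur T) (PD_schur hTPD)
    let a : Fin d → ℝ := fun j => ∑ k, T 0 k.succ * toR (g' : Matrix (Fin d) (Fin d) ℤ) k j
    let w : Fin d → ℤ := fun j => - round (a j / T 0 0)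
    let H := extU w g'
    have hH : toR (H : Matrix (Fin (d + 1)) (Fin (d + 1)) ℤ) =
        extM (fun i => (w i : ℝ)) (toR (g' : Matrix (Fin d) (Fin d) ℤ)) := toR_extM w g'
    refine ⟨g0 * H, ?_⟩
    rw [← act_act, ← hT]
    have hS'PD : PD (act T H) := hTPD.act H
    have hS' : act T H = (extM (fun i => (w i : ℝ)) (toR (g' : Matrix (Fin d) (Fin d) ℤ)))ᵀ * T *
      extM (fun i => (w i : ℝ)) (toR (g' : Matrix (Fin d) (Fin d) ℤ)) := by
      unfold act; rw [hH]
    set S' := act T H with hS'def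
    have h00 : S' 0 0 = T 0 0 := by rw [hS']; exact ext_trans_00 _ _ _
    have hsch : schur S' = act (schur T) g' := by
      rw [hS']; exact schur_ext T hs.ne' _ _
    have h0s : ∀ j : Fin d, |S' 0 j.succ| ≤ T 0 0 / 2 := by
      intro j
      have h1 : S' 0 j.succ = T 0 0 * (a j / T 0 0 - round (a j / T 0 0)) := by
        rw [hS', ext_trans_0s]
        have : (∑ k, T 0 k.succ * toR (g' : Matrix (Fin d) (Fin d) ℤ) k j) = a j := rfl
        rw [this]
        simp only [w]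
        push_cast
        field_simp
        ring
      rw [h1, abs_mul, abs_of_pos hs]
      have h2 := abs_sub_round (a j / T 0 0)
      calc T 0 0 * |a j / T 0 0 - round (a j / T 0 0)| ≤ T 0 0 * (1 / 2) :=
            mul_le_mul_of_nonneg_left h2 hs.le
        _ = T 0 0 / 2 := by ring
    rw [red_succ]
    refine ⟨by rw [h00]; exact hs, fun j => ?_, by rw [hsch]; exact hg', fun h => ?_⟩
    · rw [h00]
      have := h0s j
      linarith
    · have hsPD : PD (schur S') := PD_schur hS'PD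
      set k : Fin d := ⟨0, h⟩
      have hpos := PD_pos hsPD k
      obtain ⟨P, hP⟩ := exists_swap (0 : Fin (d + 1)) k.succ
      have h1 : T 0 0 ≤ S' k.succ k.succ := by
        have h2 := hminT (H * P)
        rw [← act_act, ← hS'def] at h2
        have h5 : act S' P 0 0 = S' k.succ k.succ := by
          unfold act
          rw [entry_quad]
          have h4 : (fun i => (((P : Matrix (Fin (d + 1)) (Fin (d + 1)) ℤ) i 0 : ℤ) : ℝ)) =
              Pi.single k.succ 1 := by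
            funext i
            rw [hP, Pi.single_apply]
            split_ifs <;> simp
          rw [h4, quad_single]
        rw [h5] at h2
        exact h2
      have h5 : S' k.succ k.succ = schur S' k k + (S' 0 k.succ) ^ 2 / T 0 0 := by
        simp only [schur, Matrix.of_apply]
        rw [hS'PD.1 k.succ 0, h00]
        ring
      have h6 : (S' 0 k.succ) ^ 2 / T 0 0 ≤ T 0 0 / 4 := by
        rw [div_le_iff₀ hs]
        have h7 := h0s k
        have h8 : (S' 0 k.succ) ^ 2 ≤ (T 0 0 / 2) ^ 2 := by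
          rw [← sq_abs]
          exact pow_le_pow_left₀ (abs_nonneg _) h7 2
        nlinarith
      rw [h00]
      linarith

end H842
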