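import Pool.Agent.H842R2.SiegelDef
import Pool.Agent.H842R2.SiegelRed

/-! Conclusion of reduction theory: `SiegelHyp`. -/

open Matrix

namespace H842

theorem PD_of_posDef {d : ℕ} {S : Matrix (Fin d) (Fin d) ℝ} (hS : S.PosDef) : PD S := by
  obtain ⟨h1, h2⟩ := Matrix.posDef_iff_dotProduct_mulVec.mp hS
  refine ⟨fun i j => ?_, fun x hx => ?_⟩
  · have := h1.apply i j
    simpa using this.symm
  · have := h2 hx
    simpa using this

theorem siegel_hyp (d : ℕ) : SiegelHyp d := by
  refine ⟨{S | red d S}, red_isOpen d, fun S hS => ?_, ?_⟩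
  · obtain ⟨g, hg⟩ := red_exists d S (PD_of_posDef hS)
    exact ⟨g, hg⟩
  · refine (siegel_finite d).subset ?_
    rintro g ⟨S, hS, hr, hr'⟩
    have hPD := PD_of_posDef hS
    have hPD' : PD (act S g) := hPD.act g
    exact ⟨S, act S g, red_sieg d S hPD.1 hr, red_sieg d _ hPD'.1 hr', rfl⟩

end H842
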