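import Pool.Agent.H842R2.TopH
import Pool.Agent.H842R2.Pair
import Pool.Agent.H842R2.FinQ
import Pool.Agent.H842R2.GLfg
import Pool.Agent.H842R2.Siegel
import Pool.Agent.H842R2.Mennicke

/-! Final assembly. -/

open Matrix

namespace H842

open H970SH

theorem finite_quot (G : Type) [Group G] [Finite G] (m : ℕ) (hm : 0 < m) :
    Finite (K1 (MonoidAlgebra ℤ G) ⧸ unitsMod G m) :=
  finite_quot_aux G m hm (GL_fg_of G 2 (siegel_hyp _)) (fun n hn M => stable n hn M)
    (fun C _ _ x => mennicke C x)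

theorem finite_conj (d : ℕ) : ∃ Φ : Set (Matrix (Fin d) (Fin d) ℤ)ˣ, Φ.Finite ∧
    ∀ (G : Type) [Group G] [Finite G] (ρ : G →* (Matrix (Fin d) (Fin d) ℤ)ˣ),
      ∃ γ : (Matrix (Fin d) (Fin d) ℤ)ˣ, ∀ g, γ * ρ g * γ⁻¹ ∈ Φ :=
  finite_conj_of (siegel_hyp d)

theorem mul_sum_group {G : Type} [Group G] [Fintype G] (y : MonoidAlgebra ℤ G) :
    y * ∑ g : G, MonoidAlgebra.of ℤ G g =
      (eps G y) • ∑ g : G, MonoidAlgebra.of ℤ G g := by
  induction y using MonoidAlgebra.induction_on with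
  | of h =>
    rw [eps_of, one_smul, Finset.mul_sum]
    apply Fintype.sum_equiv (Equiv.mulLeft h)
    intro g
    rw [Equiv.coe_mulLeft, map_mul]
  | add a b ha hb => rw [add_mul, ha, hb, map_add, add_smul]
  | smul r a ha => rw [smul_mul_assoc, ha, map_smul, smul_smul, smul_eq_mul]

/-- units congruent to one are torsions of self-equivalences -/
theorem self_tor {G : Type} [Group G] [Fintype G] (C : Cx (MonoidAlgebra ℤ G))
    (hC : Ex C) (k : ℕ) (j : Matrix Unit C.Y (MonoidAlgebra ℤ G))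
    (i : Matrix C.Y Unit (MonoidAlgebra ℤ G)) (hj : j * C.D2 = 0)
    (hji : (j * i) () () = (k * Fintype.card G : ℕ) - (k : MonoidAlgebra ℤ G) *
        ∑ g : G, MonoidAlgebra.of ℤ G g)
    (c : K1 (MonoidAlgebra ℤ G)) (hc : c ∈ unitsMod G (k * Fintype.card G)) :
    HasTor C C (whc G c) := by
  unfold unitsMod at hc
  induction hc using AddSubgroup.closure_induction with
  | mem x hx =>
    obtain ⟨u, y, hu, hy, rfl⟩ := hx
    let Y : Matrix Unit Unit (MonoidAlgebra ℤ G) := Matrix.of fun _ _ => y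
    have hBA : ((unit1 u : (Matrix Unit Unit (MonoidAlgebra ℤ G))ˣ) :
        Matrix Unit Unit (MonoidAlgebra ℤ G)) = 1 + (Y * j) * i := by
      refine Matrix.ext fun a b => ?_
      rw [Matrix.mul_assoc, Matrix.add_apply, Matrix.mul_apply]
      simp only [Finset.univ_unique, Finset.sum_singleton]
      have e1 : (j * i) default b = (k * Fintype.card G : ℕ) - (k : MonoidAlgebra ℤ G) *
        ∑ g : G, MonoidAlgebra.of ℤ G g := hji
      rw [e1]
      show (u : MonoidAlgebra ℤ G) = _ + y * _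
      have e2 : y * ((k : MonoidAlgebra ℤ G) * ∑ g : G, MonoidAlgebra.of ℤ G g) = 0 := by
        rw [← mul_assoc, (Nat.cast_commute k y).symm.eq, mul_assoc, mul_sum_group]
        have : eps G y = 0 := hy
        rw [this, zero_smul, mul_zero]
      rw [mul_sub, e2, sub_zero, hu, (Nat.cast_commute _ y).eq]
      rfl
    have hunit : IsUnit (1 + i * (Y * j)) := by
      apply isUnit_one_add_mul_comm
      rw [← hBA]
      exact (unit1 u).isUnit
    obtain ⟨F, hF⟩ := hunit
    have hcl : cl F = cl (unit1 u) := cl_one_add_mul_comm i (Y * j) F (unit1 u) hF hBA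
    rw [← hcl]
    apply HasTor.self
    rw [hF, Matrix.add_mul, Matrix.one_mul, Matrix.mul_assoc, Matrix.mul_assoc, hj,
      Matrix.mul_zero, Matrix.mul_zero, add_zero]
  | zero =>
    have := HasTor.self (C := C) (1 : (Matrix C.Y C.Y (MonoidAlgebra ℤ G))ˣ) (by simp)
    rwa [cl_one] at this
  | add x y _ _ hx hy =>
    rw [map_add]
    exact hx.comp hy
  | neg x _ hx =>
    rw [map_neg]
    exact hx.symm hC.dd hC.dd

/-- pigeonhole -/
theorem fincov {α : Type 1} {κ : Type} [Finite κ] (R : α → α → Prop) (I : α → κ)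
    (h : ∀ k : κ, ∃ S : Set α, S.Finite ∧ ∀ a, I a = k → ∃ b ∈ S, R a b) :
    ∃ S : Set α, S.Finite ∧ ∀ a, ∃ b ∈ S, R a b := by
  choose S hS hR using h
  refine ⟨⋃ k, S k, Set.finite_iUnion hS, fun a => ?_⟩
  obtain ⟨b, hb, hab⟩ := hR (I a) a rfl
  exact ⟨b, Set.mem_iUnion.mpr ⟨_, hb⟩, hab⟩

/-- the Euler characteristic of the standard complex -/
def chi (P : Pres) : ℤ := 1 - Fintype.card P.X + Fintype.card P.Y

theorem main (G : Type) [Group G] [Finite G] (n : ℤ) :
    ∃ S : Set Pres, S.Finite ∧ (∀ L ∈ S, Nonempty (L.Pi1 ≃* G) ∧ chi L = n) ∧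
      ∀ K : Pres, Nonempty (K.Pi1 ≃* G) → chi K = n →
        ∃ L ∈ S, SimpleHomotopyEquivalent K L := by
  classical
  have : Fintype G := Fintype.ofFinite G
  -- the collection of pairs
  let PP : Type 1 := {p : (Σ P : Pres, (P.Pi1 ≃* G)) // chi p.1 = n}
  let Cc : PP → Cx (MonoidAlgebra ℤ G) := fun p => presCx p.1.1 (theta p.1.1 p.1.2)
  have hEx : ∀ p, Ex (Cc p) := fun p => pres_Ex' p.1.1 p.1.2
  have hchi : ∀ p q : PP, Fintype.card (Cc p).Y + Fintype.card (Cc q).X =
      Fintype.card (Cc p).X + Fintype.card (Cc q).Y := by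
    intro p q
    have h1 : (1 : ℤ) - Fintype.card (Cc p).X + Fintype.card (Cc p).Y = n := p.2
    have h2 : (1 : ℤ) - Fintype.card (Cc q).X + Fintype.card (Cc q).Y = n := q.2
    omega
  let R : PP → PP → Prop := fun p q => SimpleHomotopyEquivalent p.1.1 q.1.1
  have key : ∃ S : Set PP, S.Finite ∧ ∀ a, ∃ b ∈ S, R a b := by
    by_cases hne : Nonempty PP
    swap
    · exact ⟨∅, Set.finite_empty, fun a => (hne ⟨a⟩).elim⟩
    obtain ⟨p0⟩ := hne
    -- the rank
    let d := Module.finrank ℤ (Mod2 (Cc p0))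
    have hd : ∀ p, Module.finrank ℤ (Mod2 (Cc p)) = d := by
      intro p
      have h1 := finrank_Mod2 (Cc p) (hEx p)
      have h2 := finrank_Mod2 (Cc p0) (hEx p0)
      have h3 := hchi p p0
      have h4 := congrArg (fun t => t * Fintype.card G) h3
      simp only [add_mul] at h4
      show _ = Module.finrank ℤ (Mod2 (Cc p0))
      omega
    obtain ⟨Φ, hΦfin, hΦ⟩ := finite_conj d
    have hb : ∀ p : PP, ∃ b : Module.Basis (Fin d) ℤ (Mod2 (Cc p)), ∀ g : G, ∃ u ∈ Φ, ∀ i j,
      b.repr (MonoidAlgebra.of ℤ G g • b i) j = (u : Matrix (Fin d) (Fin d) ℤ) j i :=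
      fun p => exists_good_basis d Φ (fun ρ => hΦ G ρ) (Mod2 (Cc p)) (hd p)
    choose b u hu hb using hb
    have hf : ∀ p : PP, ∃ (f1 : Matrix (Cc p0).X (Cc p).X (MonoidAlgebra ℤ G))
        (f2 : Matrix (Cc p0).Y (Cc p).Y (MonoidAlgebra ℤ G)),
        (Cc p0).D1 = f1 * (Cc p).D1 ∧ (Cc p0).D2 * f1 = f2 * (Cc p).D2 :=
      fun p => exists_chainMap (hEx p0) (hEx p)
    choose f1 f2 hf1 hf2 using hf
    have : Finite Φ := hΦfin
    have hcardpos : Fintype.card G ≠ 0 := Fintype.card_ne_zero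
    have : NeZero (Fintype.card G) := ⟨hcardpos⟩
    let I : PP → (G → Φ) × (Fin d → Fin d → ZMod (Fintype.card G)) := fun p =>
      (fun g => ⟨u p g, hu p g⟩,
        fun i j => (((b p).repr (resMap (f1 p) (f2 p) (hf2 p) (b p0 i)) j : ℤ) :
          ZMod (Fintype.card G)))
    apply fincov R I
    intro κ
    by_cases hκ : ∃ p, I p = κ
    swap
    · exact ⟨∅, Set.finite_empty, fun a ha => (hκ ⟨a, ha⟩).elim⟩
    obtain ⟨pc, hpc⟩ := hκ
    -- homotopy equivalences to `pc`
    have hw : ∀ p : PP, I p = κ → ∃ w, HasTor (Cc p) (Cc pc) w := by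
      intro p hp
      have hI : I p = I pc := hp.trans hpc.symm
      refine kinv (Cc p0) (Cc p) (Cc pc) (hEx p0) (hEx p) (hEx pc) (hchi p pc) (b p0) (b p) (b pc)
        ?_ (f1 p) (f2 p) (hf1 p) (hf2 p) (f1 pc) (f2 pc) (hf1 pc) (hf2 pc) ?_
      · intro g i j
        have h1 : u p g = u pc g := by
          have := congrFun (congrArg Prod.fst hI) g
          exact congrArg Subtype.val this
        rw [hb, hb, h1]
      · intro i j
        have h1 := congrFun (congrFun (congrArg Prod.snd hI) i) j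
        exact (ZMod.intCast_eq_intCast_iff_dvd_sub _ _ _).mp h1.symm
    -- the pair
    have hXY : Fintype.card (Cc pc).X ≤ Fintype.card (Cc pc).Y := by
      have h2 := finrank_Mod2 (Cc pc) (hEx pc)
      by_contra hlt
      push Not at hlt
      have h3 : (Fintype.card (Cc pc).Y + 1) * Fintype.card G ≤
        Fintype.card (Cc pc).X * Fintype.card G := Nat.mul_le_mul_right _ hlt
      rw [add_mul, one_mul] at h3
      omega
    obtain ⟨k, j, i, hk, hj, hji⟩ := exists_pair G (Cc pc).D2 (Cc pc).D1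
      (by
        intro a
        constructor
        · rintro ⟨v, rfl⟩
          exact (hEx pc).im1' (v ())
        · intro ha
          obtain ⟨v, hv⟩ := (hEx pc).im1 a ha
          exact ⟨fun _ => v, congrFun hv ()⟩)
      (by
        intro v
        constructor
        · intro hv
          obtain ⟨w, hw⟩ := (hEx pc).ex (v ()) (congrFun hv ())
          refine ⟨fun _ => w, ?_⟩
          funext t
          exact hw
        · rintro ⟨w, rfl⟩
          rw [Matrix.mul_assoc, (hEx pc).dd, Matrix.mul_zero])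
      hXY
    let m := k * Fintype.card G
    have hm : 0 < m := Nat.mul_pos hk (Nat.pos_of_ne_zero hcardpos)
    have hfin := finite_quot G m hm
    let T : AddSubgroup (Wh G) := (unitsMod G m).map (whc G)
    have hfinT : Finite (Wh G ⧸ T) := by
      let q : (K1 (MonoidAlgebra ℤ G) ⧸ unitsMod G m) →+ (Wh G ⧸ T) :=
        QuotientAddGroup.map _ _ (whc G) (AddSubgroup.le_comap_map _ _)
      apply Finite.of_surjective q
      intro x
      obtain ⟨y, rfl⟩ := QuotientAddGroup.mk'_surjective _ x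
      obtain ⟨z, rfl⟩ := whc_surjective y
      exact ⟨QuotientAddGroup.mk' _ z, rfl⟩
    choose! w hw using hw
    let J : PP → Wh G ⧸ T := fun p => QuotientAddGroup.mk' T (w p)
    -- a second pigeonhole, among the `p` with `I p = κ`
    have h2 : ∃ S : Set PP, S.Finite ∧ ∀ a, ∃ b ∈ S, (I a = κ → R a b) := by
      apply fincov (fun a b => I a = κ → R a b) J
      intro x
      by_cases hx : ∃ q, I q = κ ∧ J q = x
      swap
      · refine ⟨{p0}, Set.finite_singleton _, fun a ha => ⟨p0, rfl, fun hIa => (hx ⟨a, hIa, ha⟩).elim⟩⟩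
      obtain ⟨q, hq, hqx⟩ := hx
      refine ⟨{q}, Set.finite_singleton _, fun a ha => ⟨q, rfl, fun hIa => ?_⟩⟩
      have h3 : J a = J q := ha.trans hqx.symm
      have h4 : -(w q) + w a ∈ T := by
        have := (QuotientAddGroup.eq (s := T)).mp h3.symm
        exact this
      obtain ⟨c, hc, hcw⟩ := h4
      have h5 : HasTor (Cc pc) (Cc pc) (whc G (-c)) :=
        self_tor (Cc pc) (hEx pc) k j i hj hji (-c) (neg_mem hc)
      have h6 := ((hw a hIa).comp h5).comp ((hw q hq).symm (hEx q).dd (hEx pc).dd)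
      have h7 : w a + whc G (-c) + -(w q) = 0 := by
        rw [map_neg, hcw]; abel
      rw [h7] at h6
      exact simple_of_hasTor _ _ a.1.2 q.1.2 h6
    obtain ⟨S, hS, hS'⟩ := h2
    refine ⟨S, hS, fun a ha => ?_⟩
    obtain ⟨b, hb, hab⟩ := hS' a
    exact ⟨b, hb, hab ha⟩
  obtain ⟨S, hS, hS'⟩ := key
  refine ⟨(fun p : PP => p.1.1) '' S, hS.image _, ?_, ?_⟩
  · rintro L ⟨p, -, rfl⟩
    exact ⟨⟨p.1.2⟩, p.2⟩
  rintro K ⟨α⟩ hK
  obtain ⟨b, hb, hab⟩ := hS' ⟨⟨K, α⟩, hK⟩
  exact ⟨b.1.1, ⟨b, hb, rfl⟩, hab⟩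

end H842
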