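import Pool.Agent.H842R2.SiegelDef

/-! Consequences of reduction theory: finite subgroups up to conjugacy, centralizers. -/

open Matrix

namespace H842

variable {d : ℕ}

/-- real matrix of an integral one -/
def rl (g : (Matrix (Fin d) (Fin d) ℤ)ˣ) : Matrix (Fin d) (Fin d) ℝ :=
  (g : Matrix (Fin d) (Fin d) ℤ).map (Int.cast : ℤ → ℝ)

theorem rl_mul (g h : (Matrix (Fin d) (Fin d) ℤ)ˣ) : rl (g * h) = rl g * rl h := by
  unfold rl
  rw [Units.val_mul]
  exact Matrix.map_mul (f := Int.castRingHom ℝ)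

theorem rl_one : rl (1 : (Matrix (Fin d) (Fin d) ℤ)ˣ) = 1 := by
  unfold rl
  rw [Units.val_one]
  exact Matrix.map_one _ Int.cast_zero Int.cast_one

theorem actM_def (g : (Matrix (Fin d) (Fin d) ℤ)ˣ) (S : Matrix (Fin d) (Fin d) ℝ) :
    actM g S = (rl g)ᵀ * S * rl g := rfl

theorem actM_mul (g h : (Matrix (Fin d) (Fin d) ℤ)ˣ) (S : Matrix (Fin d) (Fin d) ℝ) :
    actM g (actM h S) = actM (h * g) S := by
  simp only [actM_def, rl_mul, Matrix.transpose_mul, Matrix.mul_assoc]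

theorem actM_one (S : Matrix (Fin d) (Fin d) ℝ) : actM 1 S = S := by
  simp [actM_def, rl_one]

theorem actM_inv (g : (Matrix (Fin d) (Fin d) ℤ)ˣ) (S : Matrix (Fin d) (Fin d) ℝ) :
    actM g (actM g⁻¹ S) = S := by rw [actM_mul, inv_mul_cancel, actM_one]

theorem actM_posDef (g : (Matrix (Fin d) (Fin d) ℤ)ˣ) (S : Matrix (Fin d) (Fin d) ℝ)
    (hS : S.PosDef) : (actM g S).PosDef := by
  have h1 : rl g * rl g⁻¹ = 1 := by rw [← rl_mul, mul_inv_cancel, rl_one]
  have h2 : rl g⁻¹ * rl g = 1 := by rw [← rl_mul, inv_mul_cancel, rl_one]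
  have h3 : Function.Injective (rl g).mulVec := by
    intro x y hxy
    have := congrArg (fun v => (rl g⁻¹) *ᵥ v) hxy
    simpa only [Matrix.mulVec_mulVec, h2, Matrix.one_mulVec] using this
  have h4 := hS.conjTranspose_mul_mul_same h3
  rw [Matrix.conjTranspose_eq_transpose_of_trivial] at h4
  exact h4

theorem actM_continuous (g : (Matrix (Fin d) (Fin d) ℤ)ˣ) : Continuous (actM g) := by
  unfold actM
  fun_prop

/-- an invariant positive definite form -/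
theorem exists_invariant {G : Type} [Group G] [Finite G] (ρ : G →* (Matrix (Fin d) (Fin d) ℤ)ˣ) :
    ∃ S : Matrix (Fin d) (Fin d) ℝ, S.PosDef ∧ ∀ g, actM (ρ g) S = S := by
  have : Fintype G := Fintype.ofFinite G
  refine ⟨∑ g : G, (rl (ρ g))ᵀ * rl (ρ g), ?_, ?_⟩
  · have h1 : ∀ g : G, ((rl (ρ g))ᵀ * rl (ρ g)).PosDef := by
      intro g
      have := actM_posDef (ρ g) 1 Matrix.PosDef.one
      rwa [actM_def, Matrix.mul_one] at this
    have h2 : ∀ s : Finset G, s.Nonempty → (∑ g ∈ s, (rl (ρ g))ᵀ * rl (ρ g)).PosDef := by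
      intro s hs
      induction hs using Finset.Nonempty.cons_induction with
      | singleton a => rw [Finset.sum_singleton]; exact h1 a
      | cons a s ha hs ih =>
        rw [Finset.sum_cons]
        exact (h1 a).add ih
    exact h2 Finset.univ Finset.univ_nonempty
  · intro h
    rw [actM_def, Matrix.mul_sum, Matrix.sum_mul]
    apply Fintype.sum_equiv (Equiv.mulRight h)
    intro g
    rw [Equiv.coe_mulRight, map_mul, rl_mul, Matrix.transpose_mul]
    simp only [Matrix.mul_assoc]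

theorem finite_conj_of (h : SiegelHyp d) : ∃ Φ : Set (Matrix (Fin d) (Fin d) ℤ)ˣ, Φ.Finite ∧
    ∀ (G : Type) [Group G] [Finite G] (ρ : G →* (Matrix (Fin d) (Fin d) ℤ)ˣ),
      ∃ γ : (Matrix (Fin d) (Fin d) ℤ)ˣ, ∀ g, γ * ρ g * γ⁻¹ ∈ Φ := by
  obtain ⟨W, hW, hex, hfin⟩ := h
  refine ⟨_, hfin, ?_⟩
  intro G _ _ ρ
  obtain ⟨S, hS, hinv⟩ := exists_invariant ρ
  obtain ⟨g0, hg0⟩ := hex S hS
  refine ⟨g0⁻¹, fun g => ⟨actM g0 S, actM_posDef _ _ hS, hg0, ?_⟩⟩
  rw [actM_mul, inv_inv]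
  have : g0 * (g0⁻¹ * ρ g * g0) = ρ g * g0 := by group
  rw [this, ← actM_mul, hinv]
  exact hg0

theorem centralizer_fg_of (h : SiegelHyp d) (G : Type) [Group G] [Finite G]
    (ρ : G →* (Matrix (Fin d) (Fin d) ℤ)ˣ) :
    (Subgroup.centralizer (Set.range ρ)).FG := by
  classical
  obtain ⟨W, hW, hex, hfin⟩ := h
  set Φ : Set (Matrix (Fin d) (Fin d) ℤ)ˣ := {g | ∃ S : Matrix (Fin d) (Fin d) ℝ,
      S.PosDef ∧ S ∈ W ∧ actM g S ∈ W} with hΦ
  set C := Subgroup.centralizer (Set.range ρ) with hC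
  let X : Set (Matrix (Fin d) (Fin d) ℝ) := {S | S.PosDef ∧ ∀ g, actM (ρ g) S = S}
  have hfinΦ : Finite Φ := hfin
  -- homomorphisms with values in Φ
  let K : Set (G → Φ) := {s | ∃ h : (Matrix (Fin d) (Fin d) ℤ)ˣ, ∀ g, (s g : (Matrix (Fin d) (Fin d) ℤ)ˣ) = h⁻¹ * ρ g * h}
  have hK : ∀ s : K, ∃ h : (Matrix (Fin d) (Fin d) ℤ)ˣ, ∀ g, (s.1 g : (Matrix (Fin d) (Fin d) ℤ)ˣ) = h⁻¹ * ρ g * h :=
    fun s => s.2
  choose hh hhh using hK
  have hfinK : Finite K := inferInstance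
  have hmemC : ∀ c : (Matrix (Fin d) (Fin d) ℤ)ˣ, c ∈ C ↔ ∀ g, ρ g * c = c * ρ g := by
    intro c
    rw [hC, Subgroup.mem_centralizer_iff]
    constructor
    · exact fun hc g => hc _ ⟨g, rfl⟩
    · rintro hc _ ⟨g, rfl⟩
      exact hc g
  -- X is stable under C
  have hXC : ∀ c ∈ C, ∀ S ∈ X, actM c S ∈ X := by
    intro c hc S hS
    refine ⟨actM_posDef _ _ hS.1, fun g => ?_⟩
    rw [actM_mul, ← (hmemC c).mp hc g, ← actM_mul, hS.2]
  let W' : Set (Matrix (Fin d) (Fin d) ℝ) := ⋃ s : K, {S | actM (hh s) S ∈ W}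
  have hW' : IsOpen W' := isOpen_iUnion fun s => hW.preimage (actM_continuous _)
  -- covering
  have hcov : ∀ S ∈ X, ∃ c ∈ C, actM c S ∈ W' := by
    intro S hS
    obtain ⟨h, hh1⟩ := hex S hS.1
    have h2 : ∀ g, h⁻¹ * ρ g * h ∈ Φ := by
      intro g
      refine ⟨actM h S, actM_posDef _ _ hS.1, hh1, ?_⟩
      rw [actM_mul]
      have : h * (h⁻¹ * ρ g * h) = ρ g * h := by group
      rw [this, ← actM_mul, hS.2]
      exact hh1
    let s : K := ⟨fun g => ⟨_, h2 g⟩, h, fun g => rfl⟩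
    have h3 : ∀ g, h⁻¹ * ρ g * h = (hh s)⁻¹ * ρ g * hh s := fun g => hhh s g
    refine ⟨h * (hh s)⁻¹, ?_, ?_⟩
    · rw [hmemC]
      intro g
      have h4 := h3 g
      calc ρ g * (h * (hh s)⁻¹) = h * (h⁻¹ * ρ g * h) * (hh s)⁻¹ := by group
        _ = h * ((hh s)⁻¹ * ρ g * hh s) * (hh s)⁻¹ := by rw [h4]
        _ = h * (hh s)⁻¹ * ρ g := by group
    · refine Set.mem_iUnion.mpr ⟨s, ?_⟩
      show actM (hh s) (actM (h * (hh s)⁻¹) S) ∈ W
      rw [actM_mul]
      have : h * (hh s)⁻¹ * hh s = h := by group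
      rw [this]
      exact hh1
  -- the finite set
  let F : Set (Matrix (Fin d) (Fin d) ℤ)ˣ := {c | c ∈ C ∧ ∃ S, S.PosDef ∧ S ∈ W' ∧ actM c S ∈ W'}
  have hF : F.Finite := by
    have h1 : F ⊆ ⋃ s : K, ⋃ t : K, (fun φ => hh s * φ * (hh t)⁻¹) '' Φ := by
      rintro c ⟨hc, S, hS, hSW, hcW⟩
      obtain ⟨s, hs⟩ := Set.mem_iUnion.mp hSW
      obtain ⟨t, ht⟩ := Set.mem_iUnion.mp hcW
      refine Set.mem_iUnion.mpr ⟨s, Set.mem_iUnion.mpr ⟨t, (hh s)⁻¹ * c * hh t, ?_, by group⟩⟩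
      refine ⟨actM (hh s) S, actM_posDef _ _ hS, hs, ?_⟩
      rw [actM_mul]
      have : hh s * ((hh s)⁻¹ * c * hh t) = c * hh t := by group
      rw [this, ← actM_mul]
      exact ht
    exact (Set.finite_iUnion fun s => Set.finite_iUnion fun t => hfin.image _).subset h1
  let H := Subgroup.closure F
  have hHC : H ≤ C := (Subgroup.closure_le _).mpr fun c hc => hc.1
  have hCH : C ≤ H := by
    intro c0 hc0
    by_contra hc0H
    -- X is preconnected
    have hconv : Convex ℝ X := by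
      intro S hS T hT a b ha hb hab
      constructor
      · rcases ha.eq_or_lt with h0 | h0
        · rw [← h0, zero_add] at hab
          rw [← h0, hab, zero_smul, one_smul, zero_add]
          exact hT.1
        · rcases hb.eq_or_lt with h1 | h1
          · rw [← h1, add_zero] at hab
            rw [← h1, hab, zero_smul, one_smul, add_zero]
            exact hS.1
          · exact (hS.1.smul h0).add (hT.1.smul h1)
      · intro g
        have h1 := hS.2 g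
        have h2 := hT.2 g
        rw [actM_def] at h1 h2 ⊢
        rw [Matrix.mul_add, Matrix.add_mul, Matrix.mul_smul, Matrix.mul_smul, Matrix.smul_mul,
          Matrix.smul_mul, h1, h2]
    have hpre : IsPreconnected X := hconv.isPreconnected
    let A : Set (Matrix (Fin d) (Fin d) ℝ) := ⋃ c : H, {S | actM (c : (Matrix (Fin d) (Fin d) ℤ)ˣ) S ∈ W'}
    let B : Set (Matrix (Fin d) (Fin d) ℝ) := ⋃ c : {c : C // (c : (Matrix (Fin d) (Fin d) ℤ)ˣ) ∉ H},
      {S | actM (c : (Matrix (Fin d) (Fin d) ℤ)ˣ) S ∈ W'}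
    have hA : IsOpen A := isOpen_iUnion fun s => hW'.preimage (actM_continuous _)
    have hB : IsOpen B := isOpen_iUnion fun s => hW'.preimage (actM_continuous _)
    obtain ⟨S0, hS0, hinv0⟩ := exists_invariant ρ
    obtain ⟨c1, hc1, hc1W⟩ := hcov S0 ⟨hS0, hinv0⟩
    have hS1 : actM c1 S0 ∈ X := hXC c1 hc1 S0 ⟨hS0, hinv0⟩
    have hXA : (X ∩ A).Nonempty := by
      refine ⟨actM c1 S0, hS1, Set.mem_iUnion.mpr ⟨1, ?_⟩⟩
      show actM 1 _ ∈ W'
      rw [actM_one]; exact hc1W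
    have hXB : (X ∩ B).Nonempty := by
      refine ⟨actM c0⁻¹ (actM c1 S0), hXC _ (inv_mem hc0) _ hS1,
        Set.mem_iUnion.mpr ⟨⟨⟨c0, hc0⟩, hc0H⟩, ?_⟩⟩
      show actM c0 (actM c0⁻¹ (actM c1 S0)) ∈ W'
      rw [actM_inv]; exact hc1W
    have hXAB : X ⊆ A ∪ B := by
      intro S hS
      obtain ⟨c, hc, hcW⟩ := hcov S hS
      by_cases hcH : c ∈ H
      · left; exact Set.mem_iUnion.mpr ⟨⟨c, hcH⟩, hcW⟩
      · right; exact Set.mem_iUnion.mpr ⟨⟨⟨c, hc⟩, hcH⟩, hcW⟩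
    obtain ⟨S, hS, hSA, hSB⟩ := hpre A B hA hB hXAB hXA hXB
    obtain ⟨⟨a, ha⟩, haW⟩ := Set.mem_iUnion.mp hSA
    obtain ⟨⟨⟨b, hb⟩, hbH⟩, hbW⟩ := Set.mem_iUnion.mp hSB
    apply hbH
    have haC := hHC ha
    have h5 : a⁻¹ * b ∈ F := by
      refine ⟨mul_mem (inv_mem haC) hb, actM a S, actM_posDef _ _ hS.1, haW, ?_⟩
      rw [actM_mul]
      have : a * (a⁻¹ * b) = b := by group
      rw [this]; exact hbW
    have h6 : a⁻¹ * b ∈ H := Subgroup.subset_closure h5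
    have h7 := mul_mem ha h6
    have : a * (a⁻¹ * b) = b := by group
    rwa [this] at h7
  have : C = H := le_antisymm hCH hHC
  rw [this]
  exact ⟨hF.toFinset, by rw [Set.Finite.coe_toFinset]⟩

end H842
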