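import Pool.Agent.H842R2.K1def

/-! API for `K₁(R)`. -/

open Matrix

namespace H842

open H970SH

section

variable {R : Type} [Ring R]

theorem mk_mul {n : ℕ} (M N : (Matrix (Fin n) (Fin n) R)ˣ) :
    K1.mk (M * N) = K1.mk M + K1.mk N := by
  unfold K1.mk
  rw [← map_add, QuotientAddGroup.mk'_apply, QuotientAddGroup.mk'_apply, QuotientAddGroup.eq_iff_sub_mem]
  apply AddSubgroup.subset_closure
  exact Or.inl ⟨n, M, N, rfl⟩

theorem mk_stab {n : ℕ} (M : (Matrix (Fin n) (Fin n) R)ˣ)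
    (N : (Matrix (Fin (n + 1)) (Fin (n + 1)) R)ˣ)
    (h : (N : Matrix (Fin (n + 1)) (Fin (n + 1)) R) =
          Matrix.reindex finSumFinEquiv finSumFinEquiv
            (Matrix.fromBlocks (M : Matrix (Fin n) (Fin n) R) 0 0 (1 : Matrix (Fin 1) (Fin 1) R))) :
    K1.mk N = K1.mk M := by
  unfold K1.mk
  rw [QuotientAddGroup.mk'_apply, QuotientAddGroup.mk'_apply, QuotientAddGroup.eq_iff_sub_mem]
  apply AddSubgroup.subset_closure
  exact Or.inr ⟨n, M, N, h, rfl⟩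

variable {ι κ μ : Type} [Fintype ι] [DecidableEq ι] [Fintype κ] [DecidableEq κ] [Fintype μ]
  [DecidableEq μ]

theorem reindexUnit_val (e : ι ≃ κ) (M : (Matrix ι ι R)ˣ) :
    (reindexUnit e M : Matrix κ κ R) = Matrix.reindex e e (M : Matrix ι ι R) := rfl

theorem reindexUnit_mul (e : ι ≃ κ) (M N : (Matrix ι ι R)ˣ) :
    reindexUnit e (M * N) = reindexUnit e M * reindexUnit e N := by
  unfold reindexUnit; rw [map_mul]

theorem reindexUnit_trans (e : ι ≃ κ) (f : κ ≃ μ) (M : (Matrix ι ι R)ˣ) :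
    reindexUnit f (reindexUnit e M) = reindexUnit (e.trans f) M := by
  ext i j
  simp [reindexUnit_val]

theorem reindexUnit_refl (M : (Matrix ι ι R)ˣ) : reindexUnit (Equiv.refl ι) M = M := by
  ext i j
  simp [reindexUnit_val]

/-- permutation matrix -/
def permU (R : Type) [Ring R] (σ : ι ≃ ι) : (Matrix ι ι R)ˣ where
  val := Matrix.of fun i j => if σ i = j then 1 else 0
  inv := Matrix.of fun i j => if σ.symm i = j then 1 else 0
  val_inv := by
    ext i j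
    rw [Matrix.mul_apply, Finset.sum_eq_single (σ i)]
    · simp [Matrix.one_apply]
    · intro b _ hb
      simp [Ne.symm hb]
    · simp
  inv_val := by
    ext i j
    rw [Matrix.mul_apply, Finset.sum_eq_single (σ.symm i)]
    · simp [Matrix.one_apply]
    · intro b _ hb
      simp [Ne.symm hb]
    · simp

theorem reindexUnit_perm (σ : ι ≃ ι) (M : (Matrix ι ι R)ˣ) :
    reindexUnit σ M = (permU R σ)⁻¹ * M * permU R σ := by
  ext i j
  have h1 : (((permU R σ)⁻¹ : (Matrix ι ι R)ˣ) : Matrix ι ι R)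
      = Matrix.of fun i j => if σ.symm i = j then 1 else 0 := rfl
  have h2 : ((permU R σ : (Matrix ι ι R)ˣ) : Matrix ι ι R)
      = Matrix.of fun i j => if σ i = j then 1 else 0 := rfl
  rw [reindexUnit_val, Units.val_mul, Units.val_mul, h1, h2]
  simp only [Matrix.reindex_apply, Matrix.submatrix_apply, Matrix.mul_apply, Matrix.of_apply,
    ite_mul, one_mul, zero_mul, Finset.sum_ite_eq, Finset.mem_univ, if_true, mul_ite, mul_one,
    mul_zero]
  rw [Finset.sum_eq_single (σ.symm j)]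
  · simp
  · intro b _ hb
    rw [if_neg]
    intro h
    apply hb
    rw [← h]; simp
  · simp

theorem mk_one {n : ℕ} : K1.mk (1 : (Matrix (Fin n) (Fin n) R)ˣ) = 0 := by
  have := mk_mul (1 : (Matrix (Fin n) (Fin n) R)ˣ) 1
  rw [one_mul] at this
  exact left_eq_add.mp this

theorem mk_conj {n : ℕ} (P M : (Matrix (Fin n) (Fin n) R)ˣ) : K1.mk (P⁻¹ * M * P) = K1.mk M := by
  have h : K1.mk (P⁻¹) + K1.mk P = 0 := by rw [← mk_mul, inv_mul_cancel, mk_one]
  rw [mk_mul, mk_mul]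
  have : K1.mk P⁻¹ + K1.mk M + K1.mk P = K1.mk M + (K1.mk P⁻¹ + K1.mk P) := by abel
  rw [this, h, add_zero]

theorem mk_reindex {n m : ℕ} (e : Fin n ≃ Fin m) (M : (Matrix (Fin n) (Fin n) R)ˣ) :
    K1.mk (reindexUnit e M) = K1.mk M := by
  have h : n = m := by simpa using Fintype.card_congr e
  subst h
  rw [reindexUnit_perm, mk_conj]

theorem cl_eq_mk {n : ℕ} (e : ι ≃ Fin n) (M : (Matrix ι ι R)ˣ) :
    cl M = K1.mk (reindexUnit e M) := by
  unfold cl
  have : reindexUnit e M = reindexUnit ((Fintype.equivFin ι).symm.trans e)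
      (reindexUnit (Fintype.equivFin ι) M) := by
    rw [reindexUnit_trans]
    congr 1
    ext x; simp
  rw [this, mk_reindex]

theorem cl_mul (M N : (Matrix ι ι R)ˣ) : cl (M * N) = cl M + cl N := by
  unfold cl
  rw [reindexUnit_mul, mk_mul]

theorem cl_one : cl (1 : (Matrix ι ι R)ˣ) = 0 := by
  have := cl_mul (1 : (Matrix ι ι R)ˣ) 1
  rw [one_mul] at this
  exact left_eq_add.mp this

theorem cl_inv (M : (Matrix ι ι R)ˣ) : cl M⁻¹ = - cl M := by
  have h : cl (M⁻¹) + cl M = 0 := by rw [← cl_mul, inv_mul_cancel, cl_one]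
  exact eq_neg_of_add_eq_zero_left h

theorem cl_pow (M : (Matrix ι ι R)ˣ) (n : ℕ) : cl (M ^ n) = n • cl M := by
  induction n with
  | zero => rw [pow_zero, cl_one, zero_smul]
  | succ n ih => rw [pow_succ, cl_mul, ih, succ_nsmul]

theorem cl_conj (P M : (Matrix ι ι R)ˣ) : cl (P * M * P⁻¹) = cl M := by
  rw [cl_mul, cl_mul, cl_inv]; abel

theorem cl_fin {n : ℕ} (M : (Matrix (Fin n) (Fin n) R)ˣ) : cl M = K1.mk M := by
  rw [cl_eq_mk (Equiv.refl _), reindexUnit_refl]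

theorem cl_reindex (e : ι ≃ κ) (M : (Matrix ι ι R)ˣ) : cl (reindexUnit e M) = cl M := by
  rw [cl_eq_mk (Fintype.equivFin κ), cl_eq_mk (e.trans (Fintype.equivFin κ)) M, reindexUnit_trans]

/-- `cl M = cl N` if the matrices agree after reindexing -/
theorem cl_congr (e : ι ≃ κ) (M : (Matrix ι ι R)ˣ) (N : (Matrix κ κ R)ˣ)
    (h : ∀ i j, (M : Matrix ι ι R) i j = (N : Matrix κ κ R) (e i) (e j)) : cl M = cl N := by
  rw [← cl_reindex e M]
  congr 1
  ext i j
  rw [reindexUnit_val, Matrix.reindex_apply, Matrix.submatrix_apply, h]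
  simp

/-- block diagonal unit -/
def diagU (A : (Matrix ι ι R)ˣ) (D : (Matrix κ κ R)ˣ) : (Matrix (ι ⊕ κ) (ι ⊕ κ) R)ˣ where
  val := fromBlocks A 0 0 D
  inv := fromBlocks (A⁻¹ : (Matrix ι ι R)ˣ) 0 0 (D⁻¹ : (Matrix κ κ R)ˣ)
  val_inv := by simp [fromBlocks_multiply]
  inv_val := by simp [fromBlocks_multiply]

theorem diagU_val (A : (Matrix ι ι R)ˣ) (D : (Matrix κ κ R)ˣ) :
    (diagU A D : Matrix (ι ⊕ κ) (ι ⊕ κ) R) = fromBlocks A 0 0 D := rfl

theorem cl_stab_unit (M : (Matrix ι ι R)ˣ) : cl (diagU M (1 : (Matrix Unit Unit R)ˣ)) = cl M := by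
  let e := Fintype.equivFin ι
  let e' : ι ⊕ Unit ≃ Fin (Fintype.card ι + 1) :=
    (Equiv.sumCongr e (Equiv.ofUnique Unit (Fin 1))).trans finSumFinEquiv
  rw [cl_eq_mk e', cl_eq_mk e M]
  apply mk_stab
  ext i j
  simp only [reindexUnit_val, diagU_val]
  rcases h1 : finSumFinEquiv.symm i with a | a <;> rcases h2 : finSumFinEquiv.symm j with b | b
  · simp [e', h1, h2]
  · simp [e', h1, h2]
  · simp [e', h1, h2]
  · simp [e', h1, h2, Matrix.one_apply, Subsingleton.elim a b]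

theorem cl_stab_aux (κ : Type) [Fintype κ] : ∀ [DecidableEq κ] {ι : Type} [Fintype ι] [DecidableEq ι]
    (M : (Matrix ι ι R)ˣ), cl (diagU M (1 : (Matrix κ κ R)ˣ)) = cl M := by
  classical
  refine Fintype.induction_empty_option (P := fun κ _ => ∀ [DecidableEq κ] {ι : Type} [Fintype ι]
    [DecidableEq ι] (M : (Matrix ι ι R)ˣ), cl (diagU M (1 : (Matrix κ κ R)ˣ)) = cl M) ?_ ?_ ?_ κ
  · intro α β _ e ih _ ι _ _ M
    let _ : Fintype α := Fintype.ofEquiv β e.symm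
    have h := @ih (Classical.decEq α) ι _ _ M
    rw [← h]
    apply cl_congr (Equiv.sumCongr (Equiv.refl ι) e.symm)
    rintro (i | i) (j | j) <;> simp [diagU_val, Matrix.one_apply]
  · intro _ ι _ _ M
    apply cl_congr (Equiv.sumEmpty ι PEmpty)
    rintro (i | i) (j | j)
    · simp [diagU_val]
    · exact j.elim
    · exact i.elim
    · exact i.elim
  · intro α _ ih _ ι _ _ M
    have h1 := @ih (Classical.decEq α) ι _ _ M
    have h2 := cl_stab_unit (diagU M (1 : (Matrix α α R)ˣ))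
    rw [← h1, ← h2]
    let e : ι ⊕ Option α ≃ (ι ⊕ α) ⊕ Unit :=
      (Equiv.sumCongr (Equiv.refl ι) (Equiv.optionEquivSumPUnit α)).trans (Equiv.sumAssoc _ _ _).symm
    apply cl_congr e
    rintro (i | _ | i) (j | _ | j) <;> simp [diagU_val, e, Matrix.one_apply]

theorem cl_stab (M : (Matrix ι ι R)ˣ) : cl (diagU M (1 : (Matrix κ κ R)ˣ)) = cl M :=
  cl_stab_aux κ M

theorem cl_stab' (M : (Matrix κ κ R)ˣ) : cl (diagU (1 : (Matrix ι ι R)ˣ) M) = cl M := by
  rw [← cl_stab (κ := ι) M]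
  apply cl_congr (Equiv.sumComm ι κ)
  rintro (i | i) (j | j) <;> simp [diagU_val]

theorem cl_diagU (A : (Matrix ι ι R)ˣ) (D : (Matrix κ κ R)ˣ) : cl (diagU A D) = cl A + cl D := by
  have : diagU A D = diagU A 1 * diagU 1 D := by
    ext i j
    simp [diagU_val, fromBlocks_multiply]
  rw [this, cl_mul, cl_stab, cl_stab']

/-- unipotent upper block matrix -/
def upU (B : Matrix ι κ R) : (Matrix (ι ⊕ κ) (ι ⊕ κ) R)ˣ where
  val := fromBlocks 1 B 0 1
  inv := fromBlocks 1 (-B) 0 1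
  val_inv := by simp [fromBlocks_multiply]
  inv_val := by simp [fromBlocks_multiply]

theorem upU_val (B : Matrix ι κ R) : (upU B : Matrix (ι ⊕ κ) (ι ⊕ κ) R) = fromBlocks 1 B 0 1 := rfl

/-- unipotent lower block matrix -/
def loU (C : Matrix κ ι R) : (Matrix (ι ⊕ κ) (ι ⊕ κ) R)ˣ where
  val := fromBlocks 1 0 C 1
  inv := fromBlocks 1 0 (-C) 1
  val_inv := by simp [fromBlocks_multiply]
  inv_val := by simp [fromBlocks_multiply]

theorem loU_val (C : Matrix κ ι R) : (loU C : Matrix (ι ⊕ κ) (ι ⊕ κ) R) = fromBlocks 1 0 C 1 := rfl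

theorem cl_upU (B : Matrix ι κ R) : cl (upU B) = 0 := by
  -- commutator trick on `(ι ⊕ κ) ⊕ κ`
  let P : (Matrix ((ι ⊕ κ) ⊕ κ) ((ι ⊕ κ) ⊕ κ) R)ˣ := upU (Matrix.fromRows B 0)
  let Q : (Matrix ((ι ⊕ κ) ⊕ κ) ((ι ⊕ κ) ⊕ κ) R)ˣ := loU (Matrix.fromCols 0 1)
  have h : diagU (upU B) (1 : (Matrix κ κ R)ˣ) = P * Q * P⁻¹ * Q⁻¹ := by
    have hP : ((P⁻¹ : (Matrix ((ι ⊕ κ) ⊕ κ) ((ι ⊕ κ) ⊕ κ) R)ˣ) : Matrix ((ι ⊕ κ) ⊕ κ) ((ι ⊕ κ) ⊕ κ) R)
      = fromBlocks 1 (-(Matrix.fromRows B 0)) 0 1 := rfl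
    have hQ : ((Q⁻¹ : (Matrix ((ι ⊕ κ) ⊕ κ) ((ι ⊕ κ) ⊕ κ) R)ˣ) : Matrix ((ι ⊕ κ) ⊕ κ) ((ι ⊕ κ) ⊕ κ) R)
      = fromBlocks 1 0 (-(Matrix.fromCols 0 1)) 1 := rfl
    apply Units.ext
    rw [Units.val_mul, Units.val_mul, Units.val_mul, hP, hQ, diagU_val, upU_val]
    show _ = fromBlocks 1 (Matrix.fromRows B 0) 0 1 * fromBlocks 1 0 (Matrix.fromCols 0 1) 1 * _ * _
    simp only [fromBlocks_multiply, Matrix.one_mul, Matrix.mul_one, Matrix.mul_zero, Matrix.zero_mul,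
      add_zero, zero_add, Matrix.fromRows_mul, Matrix.mul_neg, Matrix.neg_mul,
      Matrix.fromCols_mul_fromRows, Matrix.mul_fromCols]
    have e1 : (1 : Matrix (ι ⊕ κ) (ι ⊕ κ) R) = fromBlocks 1 0 0 1 := by simp
    have e3 : (1 : Matrix (ι ⊕ κ) (ι ⊕ κ) R) = fromRows (fromCols 1 0) (fromCols 0 1) := by
      rw [e1]; ext (i|i) (j|j) <;> simp
    ext ((i | i) | i) ((j | j) | j) <;>
    simp [Matrix.add_mul, Matrix.mul_add, Matrix.mul_apply, Matrix.one_apply, Finset.sum_ite_eq,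
      Finset.sum_ite_eq']
  have h2 : cl (diagU (upU B) (1 : (Matrix κ κ R)ˣ)) = 0 := by
    rw [h, cl_mul, cl_mul, cl_mul, cl_inv, cl_inv]; abel
  rw [← h2, cl_stab]

theorem cl_loU (C : Matrix κ ι R) : cl (loU C) = 0 := by
  rw [← cl_upU C]
  apply cl_congr (Equiv.sumComm ι κ)
  rintro (i | i) (j | j) <;> simp [upU_val, loU_val, Matrix.one_apply]

/-- block upper triangular matrices -/
theorem cl_upper (A : (Matrix ι ι R)ˣ) (D : (Matrix κ κ R)ˣ) (B : Matrix ι κ R)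
    (M : (Matrix (ι ⊕ κ) (ι ⊕ κ) R)ˣ) (hM : (M : Matrix (ι ⊕ κ) (ι ⊕ κ) R) = fromBlocks A B 0 D) :
    cl M = cl A + cl D := by
  have : M = upU (B * ((D⁻¹ : (Matrix κ κ R)ˣ) : Matrix κ κ R)) * diagU A D := by
    apply Units.ext
    rw [Units.val_mul, diagU_val, upU_val, hM]
    simp [fromBlocks_multiply, Matrix.mul_assoc]
  rw [this, cl_mul, cl_upU, cl_diagU, zero_add]

/-- block lower triangular matrices -/
theorem cl_lower (A : (Matrix ι ι R)ˣ) (D : (Matrix κ κ R)ˣ) (C : Matrix κ ι R)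
    (M : (Matrix (ι ⊕ κ) (ι ⊕ κ) R)ˣ) (hM : (M : Matrix (ι ⊕ κ) (ι ⊕ κ) R) = fromBlocks A 0 C D) :
    cl M = cl A + cl D := by
  have : M = loU (C * ((A⁻¹ : (Matrix ι ι R)ˣ) : Matrix ι ι R)) * diagU A D := by
    apply Units.ext
    rw [Units.val_mul, diagU_val, loU_val, hM]
    simp [fromBlocks_multiply, Matrix.mul_assoc]
  rw [this, cl_mul, cl_loU, cl_diagU, zero_add]

/-- `[1 + AB] = [1 + BA]` for rectangular matrices. -/
theorem cl_one_add_mul_comm (A : Matrix ι κ R) (B : Matrix κ ι R) (U : (Matrix ι ι R)ˣ)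
    (V : (Matrix κ κ R)ˣ) (hU : (U : Matrix ι ι R) = 1 + A * B) (hV : (V : Matrix κ κ R) = 1 + B * A) :
    cl U = cl V := by
  -- `X = [1 A; -B 1]`
  have h1 : (upU A * diagU U 1 * loU (-B) : (Matrix (ι ⊕ κ) (ι ⊕ κ) R)ˣ) =
      loU (-B) * diagU 1 V * upU A := by
    apply Units.ext
    simp only [Units.val_mul, diagU_val, upU_val, loU_val, hU, hV]
    simp only [fromBlocks_multiply, Units.val_one, Matrix.one_mul, Matrix.mul_one, Matrix.mul_zero,
      Matrix.zero_mul, add_zero, zero_add]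
    congr 1
    · simp
    · simp [Matrix.add_mul, Matrix.mul_add, Matrix.mul_assoc]
  have h2 := congrArg cl h1
  rw [cl_mul, cl_mul, cl_mul, cl_mul, cl_upU, cl_loU, cl_stab, cl_stab'] at h2
  simpa using h2

theorem isUnit_one_add_mul_comm (A : Matrix ι κ R) (B : Matrix κ ι R)
    (h : IsUnit (1 + A * B)) : IsUnit (1 + B * A) := by
  obtain ⟨U, hU⟩ := h
  have h1 : (U : Matrix ι ι R) * (U⁻¹ : (Matrix ι ι R)ˣ) = 1 := U.mul_inv
  have h2 : ((U⁻¹ : (Matrix ι ι R)ˣ) : Matrix ι ι R) * (U : Matrix ι ι R) = 1 := U.inv_mul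
  rw [hU] at h1 h2
  refine ⟨⟨1 + B * A, 1 - B * ((U⁻¹ : (Matrix ι ι R)ˣ) : Matrix ι ι R) * A, ?_, ?_⟩, rfl⟩
  · have : (1 + B * A) * (1 - B * ((U⁻¹ : (Matrix ι ι R)ˣ) : Matrix ι ι R) * A)
        = 1 + B * A - B * ((1 + A * B) * ((U⁻¹ : (Matrix ι ι R)ˣ) : Matrix ι ι R)) * A := by
      simp only [Matrix.add_mul, Matrix.mul_add, Matrix.mul_sub, Matrix.mul_one, Matrix.one_mul,
        Matrix.mul_assoc]
    rw [this, h1]
    simp
  · have : (1 - B * ((U⁻¹ : (Matrix ι ι R)ˣ) : Matrix ι ι R) * A) * (1 + B * A)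
        = 1 + B * A - B * (((U⁻¹ : (Matrix ι ι R)ˣ) : Matrix ι ι R) * (1 + A * B)) * A := by
      simp only [Matrix.add_mul, Matrix.mul_add, Matrix.sub_mul, Matrix.mul_one, Matrix.one_mul,
        Matrix.mul_assoc]
      abel
    rw [this, h2]
    simp

/-- every element of `K₁` is the class of an invertible matrix -/
theorem K1_exists (x : K1 R) : ∃ (n : ℕ) (M : (Matrix (Fin n) (Fin n) R)ˣ), x = cl M := by
  obtain ⟨y, rfl⟩ := QuotientAddGroup.mk'_surjective _ x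
  induction y using FreeAbelianGroup.induction_on with
  | zero => exact ⟨0, 1, by rw [cl_one, map_zero]⟩
  | of y => exact ⟨y.1, y.2, by rw [cl_fin]; rfl⟩
  | neg y h =>
    obtain ⟨n, M, h⟩ := h
    exact ⟨n, M⁻¹, by rw [map_neg, h, cl_inv]⟩
  | add y z hy hz =>
    obtain ⟨n, M, h⟩ := hy
    obtain ⟨m, N, h'⟩ := hz
    refine ⟨n + m, reindexUnit finSumFinEquiv (diagU M N), ?_⟩
    rw [map_add, h, h', cl_reindex, cl_diagU]

end

section map

variable {R S : Type} [Ring R] [Ring S] (f : R →+* S)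

theorem mapUnit_val {ι : Type} [Fintype ι] [DecidableEq ι] (M : (Matrix ι ι R)ˣ) :
    (mapUnit f M : Matrix ι ι S) = (M : Matrix ι ι R).map f := rfl

theorem mapUnit_reindex {ι κ : Type} [Fintype ι] [DecidableEq ι] [Fintype κ] [DecidableEq κ]
    (e : ι ≃ κ) (M : (Matrix ι ι R)ˣ) :
    mapUnit f (reindexUnit e M) = reindexUnit e (mapUnit f M) := by
  ext i j
  simp [mapUnit_val, reindexUnit_val]

/-- Functoriality of `K₁`. -/
theorem K1map_exists :
    ∃ F : K1 R →+ K1 S, ∀ (ι : Type) [Fintype ι] [DecidableEq ι] (M : (Matrix ι ι R)ˣ),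
      F (cl M) = cl (mapUnit f M) := by
  let g : FreeAbelianGroup (Σ n : ℕ, (Matrix (Fin n) (Fin n) R)ˣ) →+ K1 S :=
    FreeAbelianGroup.lift fun x => K1.mk (mapUnit f x.2)
  have hg : AddSubgroup.closure (K1Rel R) ≤ g.ker := by
    rw [AddSubgroup.closure_le]
    rintro x (⟨n, M, N, rfl⟩ | ⟨n, M, N, hN, rfl⟩)
    · show g _ = 0
      rw [map_sub, map_add]
      simp only [g, FreeAbelianGroup.lift_apply_of]
      rw [← mk_mul, sub_eq_zero]
      congr 1
      exact map_mul _ _ _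
    · show g _ = 0
      rw [map_sub]
      simp only [g, FreeAbelianGroup.lift_apply_of]
      rw [sub_eq_zero]
      apply mk_stab
      rw [mapUnit_val, hN]
      ext i j
      simp only [Matrix.map_apply, Matrix.reindex_apply, Matrix.submatrix_apply]
      rcases h1 : finSumFinEquiv.symm i with a | a <;> rcases h2 : finSumFinEquiv.symm j with b | b
      · simp [mapUnit_val]
      · simp
      · simp
      · simp [Matrix.one_apply]
  refine ⟨QuotientAddGroup.lift _ g hg, ?_⟩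
  intro ι _ _ M
  unfold cl
  rw [← mapUnit_reindex]
  show g _ = _
  simp only [g, FreeAbelianGroup.lift_apply_of]

end map

end H842
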