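import Pool.Agent.Helper970.SH.Defs

/-! Classes in `K₁(R)` of invertible matrices indexed by arbitrary finite types. -/

open Matrix

namespace H842

open H970SH

noncomputable section

/-- Reindexing of an invertible matrix. -/
def reindexUnit {R : Type} [Ring R] {ι κ : Type} [Fintype ι] [DecidableEq ι] [Fintype κ] [DecidableEq κ]
    (e : ι ≃ κ) (M : (Matrix ι ι R)ˣ) : (Matrix κ κ R)ˣ :=
  Units.map (Matrix.reindexRingEquiv R e).toRingHom.toMonoidHom M

/-- The class in `K₁(R)` of an invertible matrix indexed by a finite type. -/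
def cl {R : Type} [Ring R] {ι : Type} [Fintype ι] [DecidableEq ι] (M : (Matrix ι ι R)ˣ) : K1 R :=
  K1.mk (reindexUnit (Fintype.equivFin ι) M)

/-- A unit of `R` as a `1 × 1` matrix. -/
def unit1 {R : Type} [Ring R] (u : Rˣ) : (Matrix Unit Unit R)ˣ where
  val := Matrix.of fun _ _ => (u : R)
  inv := Matrix.of fun _ _ => ((u⁻¹ : Rˣ) : R)
  val_inv := by ext i j; simp [Matrix.mul_apply, Matrix.one_apply]
  inv_val := by ext i j; simp [Matrix.mul_apply, Matrix.one_apply]

/-- Functoriality of invertible matrices. -/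
def mapUnit {R S : Type} [Ring R] [Ring S] (f : R →+* S) {ι : Type} [Fintype ι] [DecidableEq ι]
    (M : (Matrix ι ι R)ˣ) : (Matrix ι ι S)ˣ :=
  Units.map (f.mapMatrix : Matrix ι ι R →+* Matrix ι ι S).toMonoidHom M

end

end H842
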