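import Mathlib

/-! Cancellation for semisimple modules and stable range one for artinian rings. -/

namespace H842

section cancel

variable {R : Type*} [Ring R]

theorem cancel_of_bij {A B S : Type*} [AddCommGroup A] [AddCommGroup B] [AddCommGroup S]
    [Module R A] [Module R B] [Module R S] (f : (A × S) ≃ₗ[R] (B × S))
    (hδ : Function.Bijective (fun s : S => (f (0, s)).2)) : Nonempty (A ≃ₗ[R] B) := by
  let δl : S →ₗ[R] S := (LinearMap.snd R B S) ∘ₗ f.toLinearMap ∘ₗ (LinearMap.inr R A S)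
  have hδl : Function.Bijective δl := hδ
  let δ : S ≃ₗ[R] S := LinearEquiv.ofBijective δl hδl
  let γ : A →ₗ[R] S := (LinearMap.snd R B S) ∘ₗ f.toLinearMap ∘ₗ (LinearMap.inl R A S)
  let t : A →ₗ[R] S := - (δ.symm.toLinearMap ∘ₗ γ)
  have key : ∀ (a : A) (s : S), (f (a, s)).2 = γ a + δ s := by
    intro a s
    have : ((a, s) : A × S) = (a, 0) + (0, s) := by simp
    rw [this, map_add]
    rfl
  have ht : ∀ a, (f (a, t a)).2 = 0 := by
    intro a
    rw [key]
    simp [t]
  let h : A →ₗ[R] B := (LinearMap.fst R B S) ∘ₗ f.toLinearMap ∘ₗ (LinearMap.prod LinearMap.id t)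
  have hh : ∀ a, h a = (f (a, t a)).1 := fun a => rfl
  refine ⟨LinearEquiv.ofBijective h ⟨?_, ?_⟩⟩
  · rw [← LinearMap.ker_eq_bot, LinearMap.ker_eq_bot']
    intro a ha
    have h1 : f (a, t a) = 0 := by
      apply Prod.ext
      · rw [← hh, ha]; rfl
      · exact ht a
    have h2 := f.injective (h1.trans (map_zero f).symm)
    exact (Prod.mk.inj h2).1
  · intro b
    obtain ⟨⟨a, s⟩, has⟩ := f.surjective (b, 0)
    refine ⟨a, ?_⟩
    have h3 : γ a + δ s = 0 := by rw [← key, has]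
    have h4 : t a = s := by
      have : δ s = - γ a := by rw [← add_eq_zero_iff_eq_neg, add_comm]; exact h3
      have h5 : s = δ.symm (- γ a) := by rw [← this]; simp
      rw [h5]; simp [t]
    rw [hh, h4, has]

theorem cancel_simple {A B S : Type*} [AddCommGroup A] [AddCommGroup B] [AddCommGroup S]
    [Module R A] [Module R B] [Module R S] [IsSemisimpleModule R A] [IsSimpleModule R S]
    (f : (A × S) ≃ₗ[R] (B × S)) : Nonempty (A ≃ₗ[R] B) := by
  let δ : S →ₗ[R] S := (LinearMap.snd R B S) ∘ₗ f.toLinearMap ∘ₗ (LinearMap.inr R A S)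
  let γ : A →ₗ[R] S := (LinearMap.snd R B S) ∘ₗ f.toLinearMap ∘ₗ (LinearMap.inl R A S)
  have key : ∀ (a : A) (s : S), (f (a, s)).2 = γ a + δ s := by
    intro a s
    have : ((a, s) : A × S) = (a, 0) + (0, s) := by simp
    rw [this, map_add]
    rfl
  rcases LinearMap.bijective_or_eq_zero δ with hδ | hδ
  · exact cancel_of_bij f hδ
  · have hγ : Function.Surjective γ := by
      intro s
      obtain ⟨⟨a, s'⟩, has⟩ := f.surjective (0, s)
      refine ⟨a, ?_⟩
      have := key a s'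
      rw [has, hδ] at this
      simpa using this.symm
    obtain ⟨σ, hσ⟩ := IsSemisimpleModule.lifting_property γ hγ (LinearMap.id : S →ₗ[R] S)
    let U : (A × S) ≃ₗ[R] (A × S) := LinearEquiv.ofLinearMap
      (LinearMap.prod (LinearMap.fst R A S + σ ∘ₗ LinearMap.snd R A S) (LinearMap.snd R A S))
      (LinearMap.prod (LinearMap.fst R A S - σ ∘ₗ LinearMap.snd R A S) (LinearMap.snd R A S))
      (by ext <;> simp) (by ext <;> simp)
    have hU : ∀ a s, U (a, s) = (a + σ s, s) := fun a s => rfl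
    apply cancel_of_bij (U.trans f)
    have : (fun s : S => ((U.trans f) (0, s)).2) = id := by
      funext s
      have h1 : (U.trans f) (0, s) = f (σ s, s) := by
        rw [LinearEquiv.trans_apply, hU, zero_add]
      rw [h1, key, hδ]
      have := LinearMap.congr_fun hσ s
      simpa using this
    rw [this]
    exact Function.bijective_id

theorem isSemisimple_prod (A B : Type*) [AddCommGroup A] [AddCommGroup B]
    [Module R A] [Module R B] [IsSemisimpleModule R A] [IsSemisimpleModule R B] :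
    IsSemisimpleModule R (A × B) := by
  have h1 : IsSemisimpleModule R (LinearMap.range (LinearMap.inl R A B)) :=
    IsSemisimpleModule.range _
  have h2 : IsSemisimpleModule R (LinearMap.range (LinearMap.inr R A B)) :=
    IsSemisimpleModule.range _
  have h3 := IsSemisimpleModule.sup h1 h2
  rw [LinearMap.sup_range_inl_inr] at h3
  exact IsSemisimpleModule.congr (Submodule.topEquiv).symm

theorem cancel_fin {n : ℕ} : ∀ {A B : Type*} [AddCommGroup A] [AddCommGroup B]
    [Module R A] [Module R B] [IsSemisimpleModule R A] [IsSemisimpleModule R B]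
    (S : Fin n → Type*) [∀ i, AddCommGroup (S i)] [∀ i, Module R (S i)] [∀ i, IsSimpleModule R (S i)]
    (_ : (A × (∀ i, S i)) ≃ₗ[R] (B × (∀ i, S i))), Nonempty (A ≃ₗ[R] B) := by
  induction n with
  | zero =>
    intro A B _ _ _ _ _ _ S _ _ _ f
    exact ⟨(LinearEquiv.prodUnique (R := R) (M := A) (M₂ := ∀ i, S i)).symm.trans
      (f.trans LinearEquiv.prodUnique)⟩
  | succ n ih =>
    intro A B _ _ _ _ _ _ S _ _ _ f
    let e : (S 0 × ∀ i, S (Fin.succ i)) ≃ₗ[R] (∀ i, S i) := Fin.consLinearEquiv R S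
    let eA : ((A × ∀ i, S (Fin.succ i)) × S 0) ≃ₗ[R] (A × ∀ i, S i) :=
      (LinearEquiv.prodAssoc R _ _ _).trans
        ((LinearEquiv.refl R A).prodCongr ((LinearEquiv.prodComm R _ _).trans e))
    let eB : ((B × ∀ i, S (Fin.succ i)) × S 0) ≃ₗ[R] (B × ∀ i, S i) :=
      (LinearEquiv.prodAssoc R _ _ _).trans
        ((LinearEquiv.refl R B).prodCongr ((LinearEquiv.prodComm R _ _).trans e))
    have := isSemisimple_prod (R := R) A (∀ i, S (Fin.succ i))
    obtain ⟨g⟩ := cancel_simple ((eA.trans f).trans eB.symm)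
    exact ih (fun i => S (Fin.succ i)) g

/-- cancellation in semisimple modules of finite length -/
theorem ss_cancel {R : Type*} [Ring R] {A B C : Type*} [AddCommGroup A] [AddCommGroup B]
    [AddCommGroup C] [Module R A] [Module R B] [Module R C] [IsSemisimpleModule R A]
    [IsSemisimpleModule R B] [IsSemisimpleModule R C] [IsArtinian R C]
    (h : Nonempty ((A × C) ≃ₗ[R] (B × C))) : Nonempty (A ≃ₗ[R] B) := by
  obtain ⟨f⟩ := h
  have : Module.Finite R C := (IsSemisimpleModule.finite_tfae.out 2 0).mp ‹_›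
  obtain ⟨n, S, e, hS⟩ := IsSemisimpleModule.exists_linearEquiv_fin_dfinsupp R C
  let e' : C ≃ₗ[R] (∀ i, S i) := e.trans DFinsupp.linearEquivFunOnFintype
  exact cancel_fin (fun i => S i) (((LinearEquiv.refl R A).prodCongr e'.symm).trans
    (f.trans ((LinearEquiv.refl R B).prodCongr e')))

end cancel

section srone

variable {R : Type*} [Ring R]

theorem isUnit_of_both {x y : R} (h1 : IsUnit (y * x)) (h2 : IsUnit (x * y)) : IsUnit x := by
  obtain ⟨u, hu⟩ := h1
  obtain ⟨v, hv⟩ := h2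
  have hl : ((u⁻¹ : Rˣ) * y) * x = 1 := by rw [mul_assoc, ← hu]; simp
  have hr : x * (y * (v⁻¹ : Rˣ)) = 1 := by rw [← mul_assoc, ← hv]; simp
  have := left_inv_eq_right_inv hl hr
  exact ⟨⟨x, y * (v⁻¹ : Rˣ), hr, by rw [← this]; exact hl⟩, rfl⟩

theorem sr_one_ss [IsSemisimpleRing R] (a : R) (J : Submodule R R)
    (h : Submodule.span R {a} ⊔ J = ⊤) : ∃ j ∈ J, IsUnit (a + j) := by
  set P : Submodule R R := Submodule.span R {a} with hP
  -- complement of `P ⊓ J` in `J`
  obtain ⟨Q, hQ⟩ := exists_isCompl (P ⊓ J)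
  have hPJ : IsCompl P (Q ⊓ J) := by
    constructor
    · rw [disjoint_iff]
      have h1 : P ⊓ (Q ⊓ J) = (P ⊓ J) ⊓ Q := by
        rw [inf_comm Q J, ← inf_assoc]
      rw [h1]
      exact disjoint_iff.mp hQ.1
    · rw [codisjoint_iff]
      have h1 : (P ⊓ J) ⊔ (Q ⊓ J) = J := by
        have h2 : (P ⊓ J) ⊔ (Q ⊓ J) = ((P ⊓ J) ⊔ Q) ⊓ J :=
          (sup_inf_assoc_of_le Q inf_le_right).symm
        rw [h2, codisjoint_iff.mp hQ.2, top_inf_eq]
      apply le_antisymm le_top
      rw [← h]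
      apply sup_le le_sup_left
      calc J = (P ⊓ J) ⊔ (Q ⊓ J) := h1.symm
        _ ≤ P ⊔ (Q ⊓ J) := sup_le_sup_right inf_le_left _
  set J' : Submodule R R := Q ⊓ J with hJ'
  -- right multiplication
  let ρ : R →ₗ[R] R := LinearMap.toSpanSingleton R R a
  have hρ : ∀ x, ρ x = x * a := fun x => rfl
  have hρr : LinearMap.range ρ = P := LinearMap.range_toSpanSingleton a
  obtain ⟨N', hN⟩ := exists_isCompl (LinearMap.ker ρ)
  let e1 : R ≃ₗ[R] (J' × P) := (Submodule.prodEquivOfIsCompl J' P hPJ.symm).symm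
  let e2 : R ≃ₗ[R] (LinearMap.ker ρ × N') := (Submodule.prodEquivOfIsCompl _ N' hN).symm
  let e3 : N' ≃ₗ[R] P := ((Submodule.quotientEquivOfIsCompl _ N' hN).symm.trans
    ρ.quotKerEquivRange).trans (LinearEquiv.ofEq _ _ hρr)
  obtain ⟨θ⟩ := ss_cancel (R := R) (A := LinearMap.ker ρ) (B := J') (C := P)
    ⟨(((LinearEquiv.refl R (LinearMap.ker ρ)).prodCongr e3.symm).trans e2.symm).trans e1⟩
  let π : R →ₗ[R] LinearMap.ker ρ := Submodule.projectionOnto (LinearMap.ker ρ) N' hN
  let ψ : R →ₗ[R] R := J'.subtype ∘ₗ θ.toLinearMap ∘ₗ π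
  let φ : R →ₗ[R] R := ρ + ψ
  have hψ : ∀ x, ψ x ∈ J' := fun x => (θ (π x)).2
  have hφ1 : ∀ x, φ x = x * (a + ψ 1) := by
    intro x
    have h1 : φ x = φ (x • 1) := by rw [smul_eq_mul, mul_one]
    rw [h1, map_smul, smul_eq_mul]
    simp [φ, hρ]
  have hinj : Function.Injective φ := by
    rw [← LinearMap.ker_eq_bot, LinearMap.ker_eq_bot']
    intro x hx
    have h1 : ρ x = - ψ x := by
      have : ρ x + ψ x = 0 := hx
      exact eq_neg_of_add_eq_zero_left this
    have h2 : ρ x ∈ P := by rw [← hρr]; exact ⟨x, rfl⟩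
    have h3 : ρ x ∈ J' := by rw [h1]; exact J'.neg_mem (hψ x)
    have h4 : ρ x = 0 := by
      have := (Submodule.disjoint_def.mp hPJ.1) _ h2 h3
      exact this
    have h5 : ψ x = 0 := by rw [h4] at h1; simpa using h1.symm
    have h6 : π x = 0 := by
      have : θ (π x) = 0 := Subtype.ext h5
      simpa using this
    have h7 : π x = ⟨x, h4⟩ := Submodule.projectionOnto_apply_left hN ⟨x, h4⟩
    rw [h7] at h6
    exact congrArg Subtype.val h6
  have hsurj : Function.Surjective φ := by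
    exact IsArtinian.surjective_of_injective_endomorphism φ hinj
  refine ⟨ψ 1, (hψ 1).2, ?_⟩
  obtain ⟨u, hu⟩ := hsurj 1
  rw [hφ1] at hu
  set v := a + ψ 1 with hv
  have h8 : v * u = 1 := by
    apply hinj
    rw [hφ1, hφ1, mul_assoc, hu, mul_one, one_mul]
  exact ⟨⟨v, u, h8, hu⟩, rfl⟩

/-- stable range one for artinian rings -/
theorem sr_one {R : Type*} [Ring R] [IsArtinianRing R] (a : R) (J : Submodule R R)
    (h : Submodule.span R {a} ⊔ J = ⊤) : ∃ j ∈ J, IsUnit (a + j) := by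
  let q : R →+* R ⧸ Ring.jacobson R := Ideal.Quotient.mk (Ring.jacobson R)
  have hq : Function.Surjective q := Ideal.Quotient.mk_surjective
  let J1 : Ideal (R ⧸ Ring.jacobson R) := Ideal.map q J
  have h1 : Submodule.span (R ⧸ Ring.jacobson R) {q a} ⊔ J1 = ⊤ := by
    rw [Ideal.eq_top_iff_one]
    have h2 : (1 : R) ∈ Submodule.span R {a} ⊔ J := by rw [h]; trivial
    obtain ⟨y, hy, z, hz, hyz⟩ := Submodule.mem_sup.mp h2
    obtain ⟨r, rfl⟩ := Submodule.mem_span_singleton.mp hy
    have h3 : (1 : R ⧸ Ring.jacobson R) = q r * q a + q z := by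
      rw [← map_mul, ← map_add, ← smul_eq_mul, hyz, map_one]
    rw [h3]
    exact Submodule.add_mem_sup (Submodule.mem_span_singleton.mpr ⟨q r, rfl⟩)
      (Ideal.mem_map_of_mem q hz)
  obtain ⟨j1, hj1, hu1⟩ := sr_one_ss (q a) J1 h1
  obtain ⟨j, hj, rfl⟩ := (Ideal.mem_map_iff_of_surjective q hq).mp hj1
  refine ⟨j, hj, ?_⟩
  obtain ⟨n, hn⟩ := IsSemiprimaryRing.isNilpotent (R := R)
  have hun : ∀ x : R, q x = 1 → IsUnit x := by
    intro x hx
    have h2 : 1 - x ∈ Ring.jacobson R := by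
      rw [← Ideal.Quotient.eq_zero_iff_mem]
      change q (1 - x) = 0
      rw [map_sub, hx, map_one, sub_self]
    have h3 : IsNilpotent (1 - x) := ⟨n, by
      have := Ideal.pow_mem_pow h2 n
      rw [hn] at this
      simpa using this⟩
    have := h3.isUnit_one_sub
    simpa using this
  obtain ⟨u, hu⟩ := hu1
  obtain ⟨y, hy⟩ := hq (u⁻¹ : (R ⧸ Ring.jacobson R)ˣ)
  rw [← map_add] at hu
  exact isUnit_of_both (y := y) (hun _ (by rw [map_mul, ← hu, hy]; simp))
    (hun _ (by rw [map_mul, ← hu, hy]; simp))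

end srone

end H842
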