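import Mathlib

/-! Interface between reduction theory and its consequences. -/

open Matrix

namespace H842

/-- the right action of `GL_d(ℤ)` on real matrices -/
def actM {d : ℕ} (g : (Matrix (Fin d) (Fin d) ℤ)ˣ) (S : Matrix (Fin d) (Fin d) ℝ) :
    Matrix (Fin d) (Fin d) ℝ :=
  ((g : Matrix (Fin d) (Fin d) ℤ).map (Int.cast : ℤ → ℝ))ᵀ * S *
    ((g : Matrix (Fin d) (Fin d) ℤ).map (Int.cast : ℤ → ℝ))

/-- existence of an open set of reduced forms with the Siegel property -/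
def SiegelHyp (d : ℕ) : Prop :=
  ∃ W : Set (Matrix (Fin d) (Fin d) ℝ), IsOpen W ∧
    (∀ S : Matrix (Fin d) (Fin d) ℝ, S.PosDef → ∃ g : (Matrix (Fin d) (Fin d) ℤ)ˣ, actM g S ∈ W) ∧
    {g : (Matrix (Fin d) (Fin d) ℤ)ˣ | ∃ S : Matrix (Fin d) (Fin d) ℝ,
      S.PosDef ∧ S ∈ W ∧ actM g S ∈ W}.Finite

end H842
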