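import Mathlib

/-! T1b: the Siegel finiteness property for `GL_d(ℤ)`. -/

open Matrix

namespace H842

/-- Real symmetric matrices in the Siegel set: `S = Uᵀ diag(D) U` with `U` unipotent upper
triangular with entries bounded by one and `D` positive with `D i ≤ 2 D (i+1)`. -/
def Sieg (d : ℕ) (S : Matrix (Fin d) (Fin d) ℝ) : Prop :=
  ∃ (D : Fin d → ℝ) (U : Matrix (Fin d) (Fin d) ℝ), (∀ i, 0 < D i) ∧ (∀ i, U i i = 1) ∧
    (∀ i j, j < i → U i j = 0) ∧ (∀ i j, |U i j| ≤ 1) ∧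
    (∀ i j : Fin d, (i : ℕ) + 1 = j → D i ≤ 2 * D j) ∧ S = Uᵀ * diagonal D * U

section core

variable {d : ℕ}

theorem chain (a : ℝ) (ha : 1 ≤ a) (D : Fin d → ℝ) (hD : ∀ i, 0 < D i) (i j : Fin d) (hij : i ≤ j)
    (h : ∀ k l : Fin d, i ≤ k → l ≤ j → (k : ℕ) + 1 = l → D k ≤ a * D l) : D i ≤ a ^ d * D j := by
  have ha0 : 0 < a := lt_of_lt_of_le one_pos ha
  have key : ∀ n : ℕ, ∀ l : Fin d, l ≤ j → (i : ℕ) + n = l → D i ≤ a ^ n * D l := by
    intro n
    induction n with
    | zero =>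
      intro l _ hl
      have : i = l := Fin.ext (by simpa using hl)
      subst this; simp
    | succ n ih =>
      intro l hlj hl
      have hk : (i : ℕ) + n < d := by omega
      have h1 := ih ⟨i + n, hk⟩ (le_trans (by rw [Fin.le_def]; simp; omega) hlj) rfl
      have h2 := h ⟨i + n, hk⟩ l (by rw [Fin.le_def]; simp) hlj (by simp; omega)
      calc D i ≤ a ^ n * D ⟨i + n, hk⟩ := h1
        _ ≤ a ^ n * (a * D l) := by gcongr
        _ = a ^ (n+1) * D l := by ring
  obtain ⟨n, hn⟩ := Nat.exists_eq_add_of_le (Fin.le_def.mp hij)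
  have h1 := key n j le_rfl hn.symm
  have h2 : a ^ n ≤ a ^ d := pow_le_pow_right₀ ha (by omega)
  exact h1.trans (mul_le_mul_of_nonneg_right h2 (hD j).le)

theorem exists_entry (g : Matrix (Fin d) (Fin d) ℤ) (hg : g.det ≠ 0) (i : Fin d) :
    ∃ j k, j ≤ i ∧ i ≤ k ∧ g k j ≠ 0 := by
  by_contra hcon
  push Not at hcon
  apply hg
  rw [det_apply]
  apply Finset.sum_eq_zero
  intro σ _
  have : ∃ j, j ≤ i ∧ i ≤ σ j := by
    by_contra h
    push Not at h
    have h1 := Finset.card_le_card_of_injOn σ (s := Finset.Iic i) (t := Finset.Iio i)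
      (fun x hx => by
        have := h x (by simpa using hx)
        simpa using this) σ.injective.injOn
    simp at h1
  obtain ⟨j, hj, hij⟩ := this
  have hz : ∏ x, g (σ x) x = 0 :=
    Finset.prod_eq_zero (Finset.mem_univ j) (hcon j (σ j) hj hij)
  exact (congrArg (fun z => Equiv.Perm.sign σ • z) hz).trans (smul_zero _)

theorem quad_diag (M : Matrix (Fin d) (Fin d) ℝ) (D : Fin d → ℝ) (j : Fin d) :
    (Mᵀ * diagonal D * M) j j = ∑ i, D i * (M i j) ^ 2 := by
  rw [Matrix.mul_apply]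
  apply Finset.sum_congr rfl
  intro i _
  rw [Matrix.mul_diagonal, Matrix.transpose_apply]
  ring

theorem prod_bound (M N : Matrix (Fin d) (Fin d) ℝ) (a b : ℝ) (ha : ∀ i j, |M i j| ≤ a)
    (hb : ∀ i j, |N i j| ≤ b) (i j : Fin d) : |(M * N) i j| ≤ d * (a * b) := by
  rw [Matrix.mul_apply]
  calc |∑ k, M i k * N k j| ≤ ∑ k, |M i k * N k j| := Finset.abs_sum_le_sum_abs _ _
    _ ≤ ∑ _k : Fin d, a * b := by
        apply Finset.sum_le_sum
        intro k _
        rw [abs_mul]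
        exact mul_le_mul (ha i k) (hb k j) (abs_nonneg _) ((abs_nonneg _).trans (ha i k))
    _ = d * (a * b) := by simp

/-- the data of a Siegel decomposition with general constant -/
structure SD (d : ℕ) (c : ℝ) where
  D : Fin d → ℝ
  U : Matrix (Fin d) (Fin d) ℝ
  pos : ∀ i, 0 < D i
  diag : ∀ i, U i i = 1
  low : ∀ i j, j < i → U i j = 0
  bd : ∀ i j, |U i j| ≤ 1
  mono : ∀ i j, i ≤ j → D i ≤ c * D j

theorem SD.det {c : ℝ} (s : SD d c) : s.U.det = 1 := by
  rw [Matrix.det_of_isUpperTriangular (fun i j h => s.low i j h)]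
  exact Finset.prod_eq_one fun i _ => s.diag i

theorem SD.inv_bd {c : ℝ} (s : SD d c) (i j : Fin d) : |s.U⁻¹ i j| ≤ (d.factorial : ℝ) := by
  rw [Matrix.inv_def, s.det]
  simp only [Ring.inverse_one, one_smul]
  rw [Matrix.adjugate_apply]
  have h := Matrix.det_le (A := s.U.updateRow j (Pi.single i 1))
    (abv := AbsoluteValue.abs) (x := (1 : ℝ)) (fun k l => by
      by_cases hk : k = j
      · subst hk
        rw [Matrix.updateRow_self]
        by_cases hl : l = i
        · subst hl; simp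
        · simp [Pi.single_eq_of_ne hl]
      · rw [Matrix.updateRow_ne hk]
        exact s.bd k l)
  simpa using h

/-- the relation -/
def Rel {c : ℝ} (s s' : SD d c) (g : Matrix (Fin d) (Fin d) ℤ) : Prop :=
  (g.map (Int.cast : ℤ → ℝ))ᵀ * (s.Uᵀ * diagonal s.D * s.U) * (g.map (Int.cast : ℤ → ℝ)) =
    s'.Uᵀ * diagonal s'.D * s'.U

theorem star {c : ℝ} (hc : 1 ≤ c) (s s' : SD d c) (g : Matrix (Fin d) (Fin d) ℤ) (h : Rel s s' g)
    (k j : Fin d) (hkj : g k j ≠ 0) : s.D k ≤ (c * (d * c)) * s'.D j := by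
  classical
  have hc0 : 0 < c := lt_of_lt_of_le one_pos hc
  set G := g.map (Int.cast : ℤ → ℝ) with hG
  have h1 : (s'.Uᵀ * diagonal s'.D * s'.U) j j ≤ d * c * s'.D j := by
    rw [quad_diag]
    calc ∑ i, s'.D i * (s'.U i j) ^ 2 ≤ ∑ _i : Fin d, c * s'.D j := by
          apply Finset.sum_le_sum
          intro i _
          rcases le_or_gt i j with hij | hij
          · have h2 : (s'.U i j) ^ 2 ≤ 1 := by
              rw [sq_le_one_iff_abs_le_one]; exact s'.bd i j
            calc s'.D i * (s'.U i j) ^ 2 ≤ s'.D i * 1 :=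
                  mul_le_mul_of_nonneg_left h2 (s'.pos i).le
              _ = s'.D i := mul_one _
              _ ≤ c * s'.D j := s'.mono i j hij
          · rw [s'.low i j hij]
            have := mul_pos hc0 (s'.pos j)
            simpa using this.le
      _ = d * c * s'.D j := by simp [mul_assoc]
  have h3 : (s'.Uᵀ * diagonal s'.D * s'.U) j j = ∑ i, s.D i * ((s.U * G) i j) ^ 2 := by
    rw [← h, ← quad_diag]
    rw [Matrix.transpose_mul]
    simp only [Matrix.mul_assoc]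
    rfl
  -- the lowest nonzero row
  have hne : (Finset.univ.filter (fun l => g l j ≠ 0)).Nonempty := ⟨k, by simpa using hkj⟩
  set k0 := (Finset.univ.filter (fun l => g l j ≠ 0)).max' hne with hk0
  have hk0mem : g k0 j ≠ 0 := by
    have := Finset.max'_mem _ hne
    rw [← hk0] at this
    simpa using this
  have hk0max : ∀ l, k0 < l → g l j = 0 := by
    intro l hl
    by_contra hlj
    have := Finset.le_max' (Finset.univ.filter (fun l => g l j ≠ 0)) l (by simpa using hlj)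
    rw [← hk0] at this
    exact absurd hl (not_lt.mpr this)
  have hkk0 : k ≤ k0 := Finset.le_max' _ k (by simpa using hkj)
  have h4 : (s.U * G) k0 j = g k0 j := by
    rw [Matrix.mul_apply, Finset.sum_eq_single k0]
    · rw [s.diag, one_mul]; rfl
    · intro l _ hl
      rcases lt_or_gt_of_ne hl with h5 | h5
      · rw [s.low k0 l h5, zero_mul]
      · have : G l j = 0 := by rw [hG, Matrix.map_apply, hk0max l h5]; simp
        rw [this, mul_zero]
    · simp
  have h5 : (1 : ℝ) ≤ ((g k0 j : ℤ) : ℝ) ^ 2 := by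
    have : (1 : ℤ) ≤ (g k0 j) ^ 2 := by
      have := sq_nonneg (g k0 j)
      have h6 : (g k0 j) ^ 2 ≠ 0 := pow_ne_zero 2 hk0mem
      omega
    exact_mod_cast this
  have h6 : s.D k0 ≤ ∑ i, s.D i * ((s.U * G) i j) ^ 2 := by
    calc s.D k0 ≤ s.D k0 * ((s.U * G) k0 j) ^ 2 := by
          rw [h4]
          nlinarith [s.pos k0]
      _ ≤ ∑ i, s.D i * ((s.U * G) i j) ^ 2 :=
          Finset.single_le_sum (f := fun i => s.D i * ((s.U * G) i j) ^ 2)
            (fun i _ => mul_nonneg (s.pos i).le (sq_nonneg _)) (Finset.mem_univ k0)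
  calc s.D k ≤ c * s.D k0 := s.mono k k0 hkk0
    _ ≤ c * (d * c * s'.D j) := by
        apply mul_le_mul_of_nonneg_left _ hc0.le
        rw [← h3] at h6
        exact h6.trans h1
    _ = (c * (d * c)) * s'.D j := by ring

theorem comp {c : ℝ} (hc : 1 ≤ c) (s s' : SD d c) (g : Matrix (Fin d) (Fin d) ℤ) (h : Rel s s' g)
    (hg : g.det ≠ 0) (i : Fin d) : s.D i ≤ (c * ((c * (d * c)) * c)) * s'.D i := by
  have hc0 : 0 < c := lt_of_lt_of_le one_pos hc
  obtain ⟨j, k, hj, hk, hkj⟩ := exists_entry g hg i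
  have hd : (0 : ℝ) ≤ d := Nat.cast_nonneg d
  calc s.D i ≤ c * s.D k := s.mono i k hk
    _ ≤ c * ((c * (d * c)) * s'.D j) := by
        apply mul_le_mul_of_nonneg_left (star hc s s' g h k j hkj) hc0.le
    _ ≤ c * ((c * (d * c)) * (c * s'.D i)) := by
        apply mul_le_mul_of_nonneg_left _ hc0.le
        apply mul_le_mul_of_nonneg_left (s'.mono j i hj)
        positivity
    _ = (c * ((c * (d * c)) * c)) * s'.D i := by ring

theorem Rel.symm {c : ℝ} {s s' : SD d c} {g : (Matrix (Fin d) (Fin d) ℤ)ˣ}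
    (h : Rel s s' (g : Matrix (Fin d) (Fin d) ℤ)) : Rel s' s ((g⁻¹ : (Matrix (Fin d) (Fin d) ℤ)ˣ) :
      Matrix (Fin d) (Fin d) ℤ) := by
  unfold Rel at *
  rw [← h]
  set G := (g : Matrix (Fin d) (Fin d) ℤ).map (Int.cast : ℤ → ℝ)
  set G' := ((g⁻¹ : (Matrix (Fin d) (Fin d) ℤ)ˣ) : Matrix (Fin d) (Fin d) ℤ).map (Int.cast : ℤ → ℝ)
  have h1 : G * G' = 1 := by
    have h2 : (g : Matrix (Fin d) (Fin d) ℤ) * ((g⁻¹ : (Matrix (Fin d) (Fin d) ℤ)ˣ) :
      Matrix (Fin d) (Fin d) ℤ) = 1 := by simp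
    have h3 := congrArg (fun M => (Int.castRingHom ℝ).mapMatrix M) h2
    simp only [map_mul, map_one] at h3
    exact h3
  have h4 : G'ᵀ * Gᵀ = 1 := by rw [← Matrix.transpose_mul, h1, Matrix.transpose_one]
  calc G'ᵀ * (Gᵀ * (s.Uᵀ * diagonal s.D * s.U) * G) * G'
      = (G'ᵀ * Gᵀ) * (s.Uᵀ * diagonal s.D * s.U) * (G * G') := by simp only [Matrix.mul_assoc]
    _ = s.Uᵀ * diagonal s.D * s.U := by rw [h1, h4, Matrix.one_mul, Matrix.mul_one]

theorem Kbound {c : ℝ} (hc : 1 ≤ c) (s s' : SD d c) (g : (Matrix (Fin d) (Fin d) ℤ)ˣ)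
    (h : Rel s s' (g : Matrix (Fin d) (Fin d) ℤ)) (C0 C1 C2 : ℝ) (hC0 : C0 = c * (d * c))
    (hC1 : C1 = c * (C0 * c)) (hC2 : C2 = c * (C0 * (C1 * c)) + 1) (i j : Fin d) :
    |(s.U * (g : Matrix (Fin d) (Fin d) ℤ).map (Int.cast : ℤ → ℝ) * s'.U⁻¹) i j| ≤
      1 + (C1 * c + C1 * C2 ^ d) := by
  classical
  have hc0 : 0 < c := lt_of_lt_of_le one_pos hc
  have hd : (0 : ℝ) ≤ d := Nat.cast_nonneg d
  have hC0p : 0 ≤ C0 := by rw [hC0]; positivity
  have hC1p : 0 ≤ C1 := by rw [hC1]; positivity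
  have hC2p : 1 ≤ C2 := by
    have : 0 ≤ c * (C0 * (C1 * c)) := by positivity
    linarith
  set G := (g : Matrix (Fin d) (Fin d) ℤ).map (Int.cast : ℤ → ℝ) with hG
  set K := s.U * G * s'.U⁻¹ with hK
  have hdetg : (g : Matrix (Fin d) (Fin d) ℤ).det ≠ 0 := by
    have : IsUnit (g : Matrix (Fin d) (Fin d) ℤ).det := (Matrix.isUnit_iff_isUnit_det _).mp g.isUnit
    exact this.ne_zero
  have hdetG : IsUnit G.det := by
    have h1 : G = (Int.castRingHom ℝ).mapMatrix (g : Matrix (Fin d) (Fin d) ℤ) := rfl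
    rw [h1, ← RingHom.map_det]
    exact ((Matrix.isUnit_iff_isUnit_det _).mp g.isUnit).map _
  have hU' : IsUnit s'.U.det := by rw [s'.det]; exact isUnit_one
  have hU : IsUnit s.U.det := by rw [s.det]; exact isUnit_one
  have hKeq : Kᵀ * diagonal s.D * K = diagonal s'.D := by
    have h1 : Kᵀ * diagonal s.D * K =
        (s'.U⁻¹)ᵀ * (Gᵀ * (s.Uᵀ * diagonal s.D * s.U) * G) * s'.U⁻¹ := by
      rw [hK]
      simp only [Matrix.transpose_mul, Matrix.mul_assoc]
    rw [h1, h]
    have h2 : (s'.U⁻¹)ᵀ * s'.Uᵀ = 1 := by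
      rw [← Matrix.transpose_mul, Matrix.mul_nonsing_inv _ hU', Matrix.transpose_one]
    have h3 : s'.U * s'.U⁻¹ = 1 := Matrix.mul_nonsing_inv _ hU'
    calc (s'.U⁻¹)ᵀ * (s'.Uᵀ * diagonal s'.D * s'.U) * s'.U⁻¹
        = ((s'.U⁻¹)ᵀ * s'.Uᵀ) * diagonal s'.D * (s'.U * s'.U⁻¹) := by
          simp only [Matrix.mul_assoc]
      _ = diagonal s'.D := by rw [h2, h3, Matrix.one_mul, Matrix.mul_one]
  have hdetK : IsUnit K.det := by
    rw [hK, Matrix.det_mul, Matrix.det_mul]
    refine (hU.mul hdetG).mul ?_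
    rw [Matrix.det_nonsing_inv, s'.det]
    simp
  have hcomp : ∀ l, s'.D l ≤ C1 * s.D l := by
    intro l
    have hdet' : ((g⁻¹ : (Matrix (Fin d) (Fin d) ℤ)ˣ) : Matrix (Fin d) (Fin d) ℤ).det ≠ 0 :=
      ((Matrix.isUnit_iff_isUnit_det _).mp (g⁻¹).isUnit).ne_zero
    have := comp hc s' s _ h.symm hdet' l
    rw [hC1, hC0]
    exact this
  -- entry estimate
  have hent : s.D i * (K i j) ^ 2 ≤ s'.D j := by
    have h1 := quad_diag K s.D j
    rw [hKeq, Matrix.diagonal_apply_eq] at h1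
    rw [h1]
    exact Finset.single_le_sum (f := fun i => s.D i * (K i j) ^ 2)
      (fun i _ => mul_nonneg (s.pos i).le (sq_nonneg _)) (Finset.mem_univ i)
  -- cut lemma
  have hcut : ∀ c0 : Fin d, i ≤ c0 → c0 < j →
      (∀ k l, c0 < k → l ≤ c0 → (g : Matrix (Fin d) (Fin d) ℤ) k l = 0) → K i j = 0 := by
    intro c0 hi hj hz
    let b : Fin d → ℕ := fun x => if x ≤ c0 then 0 else 1
    have hb : ∀ x y, b y < b x ↔ (c0 < x ∧ y ≤ c0) := by
      intro x y
      simp only [b]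
      by_cases hx : x ≤ c0 <;> by_cases hy : y ≤ c0 <;> simp [hx, hy, not_lt.mpr, not_le.mp]
    have bG : BlockTriangular G b := by
      intro x y hxy
      obtain ⟨h1, h2⟩ := (hb x y).mp hxy
      rw [hG, Matrix.map_apply, hz x y h1 h2]; simp
    have bU : BlockTriangular s.U b := by
      intro x y hxy
      obtain ⟨h1, h2⟩ := (hb x y).mp hxy
      exact s.low x y (lt_of_le_of_lt h2 h1)
    have bU' : BlockTriangular s'.U b := by
      intro x y hxy
      obtain ⟨h1, h2⟩ := (hb x y).mp hxy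
      exact s'.low x y (lt_of_le_of_lt h2 h1)
    let _ : Invertible s'.U := Matrix.invertibleOfIsUnitDet _ hU'
    have bK : BlockTriangular K b :=
      (bU.mul bG).mul (blockTriangular_inv_of_blockTriangular bU')
    let _ : Invertible K := Matrix.invertibleOfIsUnitDet _ hdetK
    have bKi : BlockTriangular K⁻¹ b := blockTriangular_inv_of_blockTriangular bK
    have h1 : Kᵀ * diagonal s.D = diagonal s'.D * K⁻¹ := by
      rw [← hKeq, Matrix.mul_assoc, Matrix.mul_nonsing_inv _ hdetK, Matrix.mul_one]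
    have h2 := congrFun (congrFun h1 j) i
    rw [Matrix.mul_diagonal, Matrix.diagonal_mul, bKi ((hb j i).mpr ⟨hj, hi⟩), mul_zero,
      Matrix.transpose_apply] at h2
    rcases mul_eq_zero.mp h2 with h3 | h3
    · exact h3
    · exact absurd h3 (s.pos i).ne'
  have hC2c : 0 ≤ C1 * C2 ^ d := mul_nonneg hC1p (pow_nonneg (by linarith) d)
  by_cases hKz : K i j = 0
  · rw [hKz, abs_zero]; positivity
  have hDj : s.D j ≤ (c + C2 ^ d) * s.D i := by
    rcases le_or_gt j i with hji | hij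
    · calc s.D j ≤ c * s.D i := s.mono j i hji
        _ ≤ (c + C2 ^ d) * s.D i := by
          apply mul_le_mul_of_nonneg_right _ (s.pos i).le
          have : 0 ≤ C2 ^ d := pow_nonneg (by linarith) d
          linarith
    · have h1 := chain C2 hC2p (fun l => (s.D l)⁻¹) (fun l => inv_pos.mpr (s.pos l)) i j hij.le
        (fun k l hik hlj hkl => by
          have hkj : k < j := by
            rw [Fin.lt_def]; have := Fin.le_def.mp hlj; omega
          have h2 : ∃ k' l', k < k' ∧ l' ≤ k ∧ (g : Matrix (Fin d) (Fin d) ℤ) k' l' ≠ 0 := by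
            by_contra hcon
            push Not at hcon
            exact hKz (hcut k hik hkj fun k' l' h3 h4 => hcon k' l' h3 h4)
          obtain ⟨k', l', hk', hl', hne⟩ := h2
          have hlk' : l ≤ k' := by
            rw [Fin.le_def]; have := Fin.lt_def.mp hk'; omega
          have h3 : s.D l ≤ C2 * s.D k := by
            calc s.D l ≤ c * s.D k' := s.mono l k' hlk'
              _ ≤ c * (C0 * s'.D l') := by
                  apply mul_le_mul_of_nonneg_left _ hc0.le
                  rw [hC0]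
                  exact star hc s s' _ h k' l' hne
              _ ≤ c * (C0 * (C1 * s.D l')) := by
                  apply mul_le_mul_of_nonneg_left _ hc0.le
                  exact mul_le_mul_of_nonneg_left (hcomp l') hC0p
              _ ≤ c * (C0 * (C1 * (c * s.D k))) := by
                  apply mul_le_mul_of_nonneg_left _ hc0.le
                  apply mul_le_mul_of_nonneg_left _ hC0p
                  exact mul_le_mul_of_nonneg_left (s.mono l' k hl') hC1p
              _ = (c * (C0 * (C1 * c))) * s.D k := by ring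
              _ ≤ C2 * s.D k := by
                  apply mul_le_mul_of_nonneg_right _ (s.pos k).le
                  linarith
          have hk := s.pos k
          have hl := s.pos l
          change (s.D k)⁻¹ ≤ C2 * (s.D l)⁻¹
          rw [← div_eq_mul_inv, inv_eq_one_div, div_le_div_iff₀ hk hl]
          linarith)
      have h2 : (s.D i)⁻¹ ≤ C2 ^ d * (s.D j)⁻¹ := h1
      have hi := s.pos i
      have hj := s.pos j
      rw [← div_eq_mul_inv, inv_eq_one_div, div_le_div_iff₀ hi hj] at h2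
      nlinarith
  have hsq : (K i j) ^ 2 ≤ C1 * c + C1 * C2 ^ d := by
    have h1 : s.D i * (K i j) ^ 2 ≤ s.D i * (C1 * c + C1 * C2 ^ d) := by
      calc s.D i * (K i j) ^ 2 ≤ s'.D j := hent
        _ ≤ C1 * s.D j := hcomp j
        _ ≤ C1 * ((c + C2 ^ d) * s.D i) := mul_le_mul_of_nonneg_left hDj hC1p
        _ = s.D i * (C1 * c + C1 * C2 ^ d) := by ring
    exact le_of_mul_le_mul_left h1 (s.pos i)
  have habs : |K i j| ≤ 1 + (K i j) ^ 2 := by
    rw [← sq_abs (K i j)]
    nlinarith [abs_nonneg (K i j), sq_nonneg (|K i j| - 1)]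
  linarith

theorem finite_of_bounded (C : ℝ) :
    {g : (Matrix (Fin d) (Fin d) ℤ)ˣ | ∀ i j, |((g : Matrix (Fin d) (Fin d) ℤ) i j : ℝ)| ≤ C}.Finite := by
  have h1 : {M : Fin d → Fin d → ℤ | ∀ i j, |(M i j : ℝ)| ≤ C}.Finite := by
    have h2 : {M : Fin d → Fin d → ℤ | ∀ i j, |(M i j : ℝ)| ≤ C} ⊆
        Set.Icc (fun _ _ => -⌈C⌉) (fun _ _ => ⌈C⌉) := by
      intro M hM
      constructor
      · intro i j
        have h3 := (abs_le.mp (hM i j)).1
        have h4 := Int.le_ceil C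
        have h5 : (-(⌈C⌉ : ℤ) : ℝ) ≤ (M i j : ℝ) := by linarith
        exact_mod_cast h5
      · intro i j
        have h3 := (abs_le.mp (hM i j)).2
        have h4 := Int.le_ceil C
        have h5 : (M i j : ℝ) ≤ (⌈C⌉ : ℤ) := by linarith
        exact_mod_cast h5
    exact (Set.finite_Icc _ _).subset h2
  have h2 : Function.Injective (fun g : (Matrix (Fin d) (Fin d) ℤ)ˣ =>
      ((g : Matrix (Fin d) (Fin d) ℤ) : Fin d → Fin d → ℤ)) := fun a b h => Units.ext h
  exact (h1.preimage h2.injOn)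

/-- the Siegel finiteness property -/
theorem siegel_finite (d : ℕ) : {g : (Matrix (Fin d) (Fin d) ℤ)ˣ |
    ∃ S S' : Matrix (Fin d) (Fin d) ℝ, Sieg d S ∧ Sieg d S' ∧
      ((g : Matrix (Fin d) (Fin d) ℤ).map (Int.cast : ℤ → ℝ))ᵀ * S *
        ((g : Matrix (Fin d) (Fin d) ℤ).map (Int.cast : ℤ → ℝ)) = S'}.Finite := by
  let c : ℝ := 2 ^ d
  have hc : 1 ≤ c := one_le_pow₀ (by norm_num)
  let C0 : ℝ := c * (d * c)
  let C1 : ℝ := c * (C0 * c)
  let C2 : ℝ := c * (C0 * (C1 * c)) + 1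
  let B : ℝ := 1 + (C1 * c + C1 * C2 ^ d)
  refine (finite_of_bounded (d := d) (d * ((d * ((d.factorial : ℝ) * B)) * 1))).subset ?_
  rintro g ⟨S, S', hS, hS', hSS⟩
  have mk : ∀ T, Sieg d T → ∃ s : SD d c, T = s.Uᵀ * diagonal s.D * s.U := by
    rintro T ⟨D, U, h1, h2, h3, h4, h5, h6⟩
    refine ⟨⟨D, U, h1, h2, h3, h4, fun i j hij => ?_⟩, h6⟩
    exact chain 2 (by norm_num) D h1 i j hij (fun k l _ _ hkl => h5 k l hkl)
  obtain ⟨s, rfl⟩ := mk S hS
  obtain ⟨s', rfl⟩ := mk S' hS'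
  have hrel : Rel s s' (g : Matrix (Fin d) (Fin d) ℤ) := hSS
  have hK := Kbound hc s s' g hrel C0 C1 C2 rfl rfl rfl
  have hU' : IsUnit s'.U.det := by rw [s'.det]; exact isUnit_one
  have hU : IsUnit s.U.det := by rw [s.det]; exact isUnit_one
  set G := (g : Matrix (Fin d) (Fin d) ℤ).map (Int.cast : ℤ → ℝ) with hG
  have hGeq : G = s.U⁻¹ * (s.U * G * s'.U⁻¹) * s'.U := by
    calc G = (s.U⁻¹ * s.U) * G * (s'.U⁻¹ * s'.U) := by
          rw [Matrix.nonsing_inv_mul _ hU, Matrix.nonsing_inv_mul _ hU', Matrix.one_mul,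
            Matrix.mul_one]
      _ = s.U⁻¹ * (s.U * G * s'.U⁻¹) * s'.U := by simp only [Matrix.mul_assoc]
  intro i j
  have h1 := prod_bound (s.U⁻¹ * (s.U * G * s'.U⁻¹)) s'.U (d * ((d.factorial : ℝ) * B)) 1
    (prod_bound _ _ _ _ s.inv_bd hK) s'.bd i j
  rw [← hGeq] at h1
  exact h1

end core

end H842
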