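import Pool.Agent.H842R2.K1
import Pool.Agent.H842R2.SSCancel

open Matrix

namespace H842

open H970SH

section rational

variable {G : Type} [Group G]

/-- the inclusion of the integral in the rational group ring -/
noncomputable def incQ (G : Type) [Group G] : MonoidAlgebra ℤ G →+* MonoidAlgebra ℚ G :=
  MonoidAlgebra.mapRingHom G (Int.castRingHom ℚ)

theorem incQ_injective : Function.Injective (incQ G) := by
  intro a b h
  ext g
  have h1 := congrArg (fun b => b.coeff g) h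
  simp only [incQ, MonoidAlgebra.coeff_mapRingHom] at h1
  simpa using h1

theorem incQ_natCast (n : ℕ) : incQ G (n : MonoidAlgebra ℤ G) = (n : MonoidAlgebra ℚ G) := map_natCast _ _

/-- clearing denominators -/
theorem exists_clear [Finite G] (u : MonoidAlgebra ℚ G) : ∃ N : ℕ, 0 < N ∧ ∃ c : MonoidAlgebra ℤ G,
    incQ G c = (N : MonoidAlgebra ℚ G) * u := by
  classical
  have := Fintype.ofFinite G
  refine ⟨∏ g, (u.coeff g).den, Finset.prod_pos fun g _ => (u.coeff g).den_pos,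
    MonoidAlgebra.ofCoeff (Finsupp.equivFunOnFinite.symm fun g =>
      (u.coeff g).num * ∏ h ∈ Finset.univ.erase g, ((u.coeff h).den : ℤ)), ?_⟩
  ext g
  have h2 : (((∏ g, (u.coeff g).den : ℕ) : MonoidAlgebra ℚ G) * u).coeff g =
      (∏ g, (u.coeff g).den : ℕ) * u.coeff g := by
    rw [← nsmul_eq_mul, MonoidAlgebra.coeff_smul_apply, nsmul_eq_mul]
  rw [h2]
  simp only [incQ, MonoidAlgebra.coeff_mapRingHom]
  rw [← Finset.mul_prod_erase Finset.univ _ (Finset.mem_univ g)]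
  have : ((u.coeff g).num : ℚ) = u.coeff g * (u.coeff g).den := by rw [Rat.mul_den_eq_num]
  simp only [Finsupp.equivFunOnFinite_symm_apply_apply, eq_intCast]
  push_cast
  rw [this]
  ring

/-- an element is a unit as soon as the matrix of left multiplication is invertible -/
theorem isUnit_of_det [Fintype G] [DecidableEq G] {ι : Type} [Fintype ι] [DecidableEq ι]
    (b : Module.Basis ι ℚ (MonoidAlgebra ℚ G)) (u : MonoidAlgebra ℚ G) :
    IsUnit u ↔ (Algebra.leftMulMatrix b u).det ≠ 0 := by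
  constructor
  · intro h
    have h1 : IsUnit (Algebra.leftMulMatrix b u) := h.map _
    have h2 := (Matrix.isUnit_iff_isUnit_det _).1 h1
    exact h2.ne_zero
  · intro h
    have h1 : IsUnit (Algebra.leftMulMatrix b u) :=
      (Matrix.isUnit_iff_isUnit_det _).2 (isUnit_iff_ne_zero.2 h)
    have hinj : ∀ x y, u * x = u * y → x = y := by
      intro x y hxy
      have h2 : Algebra.leftMulMatrix b u * Algebra.leftMulMatrix b x =
          Algebra.leftMulMatrix b u * Algebra.leftMulMatrix b y := by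
        rw [← map_mul, ← map_mul, hxy]
      exact Algebra.leftMulMatrix_injective b (h1.mul_left_cancel h2)
    have hfd : FiniteDimensional ℚ (MonoidAlgebra ℚ G) := Module.Basis.finiteDimensional_of_finite b
    have hsurj : Function.Surjective (LinearMap.mulLeft ℚ u) := by
      apply LinearMap.surjective_of_injective
      intro x y hxy
      exact hinj x y hxy
    obtain ⟨c, hc⟩ := hsurj 1
    have hc' : u * c = 1 := hc
    have hc2 : c * u = 1 := by
      apply hinj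
      rw [← mul_assoc, hc', one_mul, mul_one]
    exact ⟨⟨u, c, hc', hc2⟩, rfl⟩


theorem mem_span_clear [Finite G] (J : Submodule (MonoidAlgebra ℤ G) (MonoidAlgebra ℤ G))
    (x : MonoidAlgebra ℚ G)
    (hx : x ∈ Submodule.span (MonoidAlgebra ℚ G) (incQ G '' (J : Set (MonoidAlgebra ℤ G)))) :
    ∃ q : ℕ, 0 < q ∧ ∃ p ∈ J, incQ G p = (q : MonoidAlgebra ℚ G) * x := by
  induction hx using Submodule.span_induction with
  | mem x hx =>
    obtain ⟨p, hp, rfl⟩ := hx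
    exact ⟨1, one_pos, p, hp, by simp⟩
  | zero => exact ⟨1, one_pos, 0, J.zero_mem, by simp⟩
  | add x y _ _ hx hy =>
    obtain ⟨q, hq, p, hp, h⟩ := hx
    obtain ⟨q', hq', p', hp', h'⟩ := hy
    refine ⟨q * q', Nat.mul_pos hq hq', q' • p + q • p', J.add_mem (J.smul_of_tower_mem _ hp)
      (J.smul_of_tower_mem _ hp'), ?_⟩
    rw [map_add, map_nsmul, map_nsmul, h, h', nsmul_eq_mul, nsmul_eq_mul]
    push_cast
    rw [mul_add, ← mul_assoc, ← mul_assoc, (Nat.cast_commute q (q' : MonoidAlgebra ℚ G)).eq]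
  | smul c x _ hx =>
    obtain ⟨q, hq, p, hp, h⟩ := hx
    obtain ⟨N, hN, c', hc'⟩ := exists_clear c
    refine ⟨N * q, Nat.mul_pos hN hq, c' * p, J.smul_mem c' hp, ?_⟩
    rw [map_mul, hc', h, smul_eq_mul]
    push_cast
    simp only [mul_assoc]
    rw [← mul_assoc c, ← (Nat.cast_commute q c).eq, mul_assoc]

/-- making an element rationally invertible -/
theorem sr_rational {G : Type} [Group G] [Finite G] (a : MonoidAlgebra ℤ G)
    (J : Submodule (MonoidAlgebra ℤ G) (MonoidAlgebra ℤ G))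
    (h : Submodule.span (MonoidAlgebra ℤ G) {a} ⊔ J = ⊤) :
    ∃ j ∈ J, ∃ (c : MonoidAlgebra ℤ G) (N : ℕ), 0 < N ∧
      c * (a + j) = (N : MonoidAlgebra ℤ G) ∧ (a + j) * c = (N : MonoidAlgebra ℤ G) := by
  classical
  have := Fintype.ofFinite G
  have hfin : Module.Finite ℚ (MonoidAlgebra ℚ G) := inferInstance
  have hart : IsArtinianRing (MonoidAlgebra ℚ G) := IsArtinianRing.of_finite ℚ _
  have h1 : (1 : MonoidAlgebra ℤ G) ∈ Submodule.span (MonoidAlgebra ℤ G) {a} ⊔ J := by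
    rw [h]; trivial
  obtain ⟨y, hy, z, hz, hyz⟩ := Submodule.mem_sup.1 h1
  obtain ⟨x, rfl⟩ := Submodule.mem_span_singleton.1 hy
  set JK := Submodule.span (MonoidAlgebra ℚ G) (incQ G '' (J : Set (MonoidAlgebra ℤ G))) with hJK
  have h2 : Submodule.span (MonoidAlgebra ℚ G) {incQ G a} ⊔ JK = ⊤ := by
    have h3 : (1 : MonoidAlgebra ℚ G) ∈ Submodule.span (MonoidAlgebra ℚ G) {incQ G a} ⊔ JK := by
      rw [← map_one (incQ G), ← hyz, map_add, smul_eq_mul, map_mul]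
      apply Submodule.add_mem_sup
      · exact Submodule.smul_mem _ _ (Submodule.mem_span_singleton_self _)
      · exact Submodule.subset_span ⟨z, hz, rfl⟩
    rw [eq_top_iff]
    intro w _
    have := Submodule.smul_mem _ w h3
    simpa using this
  obtain ⟨j', hj', hu⟩ := sr_one (incQ G a) JK h2
  obtain ⟨q, hq, p, hp, hqp⟩ := mem_span_clear J j' hj'
  let b := Module.finBasis ℚ (MonoidAlgebra ℚ G)
  -- the polynomial
  let M : Matrix _ _ (Polynomial ℚ) := (Algebra.leftMulMatrix b (incQ G a)).map Polynomial.C +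
    (Polynomial.X : Polynomial ℚ) • (Algebra.leftMulMatrix b (incQ G p)).map Polynomial.C
  have heval : ∀ t : ℚ, Polynomial.eval t M.det =
      (Algebra.leftMulMatrix b (incQ G a + t • incQ G p)).det := by
    intro t
    have h3 := (Polynomial.evalRingHom t).map_det M
    rw [Polynomial.coe_evalRingHom] at h3
    rw [h3]
    congr 1
    ext i j
    simp [M]
    exact mul_comm _ _
  have hq0 : (q : ℚ) ≠ 0 := by exact_mod_cast hq.ne'
  have h4 : (1 / (q : ℚ)) • incQ G p = j' := by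
    rw [hqp, ← nsmul_eq_mul, ← Nat.cast_smul_eq_nsmul ℚ q, smul_smul, one_div,
      inv_mul_cancel₀ hq0, one_smul]
  have h5 : M.det ≠ 0 := by
    intro h6
    have h7 := heval (1 / (q : ℚ))
    rw [h6, Polynomial.eval_zero, h4] at h7
    exact (isUnit_of_det b _).1 hu h7.symm
  obtain ⟨t, ht⟩ : ∃ t : ℕ, Polynomial.eval (t : ℚ) M.det ≠ 0 := by
    by_contra hcon
    push Not at hcon
    apply h5
    apply Polynomial.eq_zero_of_infinite_isRoot
    apply Set.Infinite.mono (s := Set.range (fun n : ℕ => (n : ℚ)))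
    · rintro _ ⟨n, rfl⟩
      exact hcon n
    · exact Set.infinite_range_of_injective Nat.cast_injective
  rw [heval] at ht
  have h8 := (isUnit_of_det b _).2 ht
  have h9 : incQ G a + (t : ℚ) • incQ G p = incQ G (a + t • p) := by
    rw [map_add, map_nsmul, Nat.cast_smul_eq_nsmul]
  rw [h9] at h8
  obtain ⟨U, hU⟩ := h8
  obtain ⟨N, hN, c, hc⟩ := exists_clear ((U⁻¹ : (MonoidAlgebra ℚ G)ˣ) : MonoidAlgebra ℚ G)
  refine ⟨t • p, J.smul_of_tower_mem _ hp, c, N, hN, ?_, ?_⟩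
  · apply incQ_injective
    rw [map_mul, hc, ← hU, mul_assoc, Units.inv_mul, mul_one, incQ_natCast]
  · apply incQ_injective
    rw [map_mul, hc, ← hU, ← mul_assoc, ← (Nat.cast_commute N _).eq, mul_assoc, Units.mul_inv,
      mul_one, incQ_natCast]

end rational


section rowops

variable {R : Type} [Ring R] {ι : Type} [Fintype ι] [DecidableEq ι]

theorem cl_rowop {κ : Type} [Fintype κ] [DecidableEq κ] (A : Matrix ι κ R) (B : Matrix κ ι R)
    (h : B * A = 0) : ∃ E : (Matrix ι ι R)ˣ, (E : Matrix ι ι R) = 1 + A * B ∧ cl E = 0 := by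
  have h2 : A * B * (A * B) = 0 := by
    rw [Matrix.mul_assoc, ← Matrix.mul_assoc B, h]; simp
  let E : (Matrix ι ι R)ˣ :=
    { val := 1 + A * B
      inv := 1 - A * B
      val_inv := by
        rw [mul_sub, add_mul, add_mul, h2]; simp
      inv_val := by
        rw [mul_add, sub_mul, sub_mul, h2]; simp }
  refine ⟨E, rfl, ?_⟩
  rw [cl_one_add_mul_comm A B E 1 rfl (by rw [h]; simp), cl_one]

theorem rowAdd (M : (Matrix ι ι R)ˣ) (i0 : ι) (lam : ι → R) (h : lam i0 = 0) :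
    ∃ M' : (Matrix ι ι R)ˣ, cl M' = cl M ∧ ∀ i j, (M' : Matrix ι ι R) i j =
      (M : Matrix ι ι R) i j + if i = i0 then ∑ k, lam k * (M : Matrix ι ι R) k j else 0 := by
  obtain ⟨E, hE, hcl⟩ := cl_rowop (κ := Unit) (Matrix.of fun i _ => if i = i0 then (1 : R) else 0)
    (Matrix.of fun _ k => lam k) (by ext i j; simp [Matrix.mul_apply, h])
  refine ⟨E * M, by rw [cl_mul, hcl, zero_add], ?_⟩
  intro i j
  rw [Units.val_mul, hE, add_mul, one_mul, Matrix.add_apply]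
  congr 1
  rw [Matrix.mul_assoc, Matrix.mul_apply]
  simp [Matrix.mul_apply]

theorem rowClear (M : (Matrix ι ι R)ˣ) (i0 : ι) (A : ι → R) (h : A i0 = 0) :
    ∃ M' : (Matrix ι ι R)ˣ, cl M' = cl M ∧ ∀ i j, (M' : Matrix ι ι R) i j =
      (M : Matrix ι ι R) i j + A i * (M : Matrix ι ι R) i0 j := by
  obtain ⟨E, hE, hcl⟩ := cl_rowop (κ := Unit) (Matrix.of fun i _ => A i)
    (Matrix.of fun _ k => if k = i0 then (1 : R) else 0) (by ext i j; simp [Matrix.mul_apply, h])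
  refine ⟨E * M, by rw [cl_mul, hcl, zero_add], ?_⟩
  intro i j
  rw [Units.val_mul, hE, add_mul, one_mul, Matrix.add_apply]
  congr 1
  rw [Matrix.mul_assoc, Matrix.mul_apply]
  simp [Matrix.mul_apply]

omit [DecidableEq ι] in
theorem mem_span_ne (v : ι → R) (i0 : ι) (x : R)
    (hx : x ∈ Submodule.span R (Set.range fun i : {i : ι // i ≠ i0} => v i)) :
    ∃ lam : ι → R, lam i0 = 0 ∧ ∑ i, lam i * v i = x := by
  classical
  obtain ⟨c, hc⟩ := (Submodule.mem_span_range_iff_exists_fun R).1 hx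
  refine ⟨fun i => if h : i ≠ i0 then c ⟨i, h⟩ else 0, by simp, ?_⟩
  rw [← hc, ← Finset.sum_filter_of_ne (p := fun i => i ≠ i0),
    Finset.sum_subtype (Finset.univ.filter (fun i => i ≠ i0)) (p := fun i => i ≠ i0) (by simp)]
  · apply Finset.sum_congr rfl
    rintro ⟨i, hi⟩ _
    simp [hi]
  · intro i _ hi h
    apply hi
    simp [h]

theorem span_sup_ne (v u : ι → R) (i0 : ι) (h : ∑ i, u i * v i = 1) :
    Submodule.span R {v i0} ⊔ Submodule.span R (Set.range fun i : {i : ι // i ≠ i0} => v i) = ⊤ := by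
  have h1 : (1 : R) ∈ Submodule.span R {v i0} ⊔
      Submodule.span R (Set.range fun i : {i : ι // i ≠ i0} => v i) := by
    rw [← h]
    apply Submodule.sum_mem
    intro i _
    by_cases hi : i = i0
    · subst hi
      exact Submodule.mem_sup_left (Submodule.smul_mem _ _ (Submodule.mem_span_singleton_self _))
    · exact Submodule.mem_sup_right (Submodule.smul_mem _ _ (Submodule.subset_span ⟨⟨i, hi⟩, rfl⟩))
  rw [eq_top_iff]
  intro w _
  have := Submodule.smul_mem _ w h1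
  simpa using this

theorem block_cl {n : ℕ} (M : (Matrix (Fin (n + 1)) (Fin (n + 1)) R)ˣ)
    (h0 : (M : Matrix (Fin (n + 1)) (Fin (n + 1)) R) 0 0 = 1)
    (h1 : ∀ i : Fin n, (M : Matrix (Fin (n + 1)) (Fin (n + 1)) R) i.succ 0 = 0) :
    ∃ M' : (Matrix (Fin n) (Fin n) R)ˣ, cl M' = cl M := by
  have hinv0 : ∀ i, ((M⁻¹ : (Matrix (Fin (n + 1)) (Fin (n + 1)) R)ˣ) :
      Matrix (Fin (n + 1)) (Fin (n + 1)) R) i 0 = (1 : Matrix (Fin (n + 1)) (Fin (n + 1)) R) i 0 := by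
    intro i
    have h2 : ((M⁻¹ : (Matrix (Fin (n + 1)) (Fin (n + 1)) R)ˣ) : Matrix (Fin (n + 1)) (Fin (n + 1)) R) *
      (M : Matrix (Fin (n + 1)) (Fin (n + 1)) R) = 1 := M.inv_mul
    rw [← h2, Matrix.mul_apply, Fin.sum_univ_succ, h0]
    simp [h1]
  let N := ((M⁻¹ : (Matrix (Fin (n + 1)) (Fin (n + 1)) R)ˣ) : Matrix (Fin (n + 1)) (Fin (n + 1)) R)
  let M' : (Matrix (Fin n) (Fin n) R)ˣ :=
    { val := Matrix.of fun i j => (M : Matrix (Fin (n + 1)) (Fin (n + 1)) R) i.succ j.succ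
      inv := Matrix.of fun i j => N i.succ j.succ
      val_inv := by
        ext i j
        have h2 : (M : Matrix (Fin (n + 1)) (Fin (n + 1)) R) * N = 1 := M.mul_inv
        have h3 := congrFun (congrFun h2 i.succ) j.succ
        rw [Matrix.mul_apply, Fin.sum_univ_succ, h1, zero_mul, zero_add] at h3
        rw [Matrix.mul_apply]
        simp only [Matrix.of_apply]
        rw [h3]
        simp [Matrix.one_apply]
      inv_val := by
        ext i j
        have h2 : N * (M : Matrix (Fin (n + 1)) (Fin (n + 1)) R) = 1 := M.inv_mul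
        have h3 := congrFun (congrFun h2 i.succ) j.succ
        rw [Matrix.mul_apply, Fin.sum_univ_succ] at h3
        have h4 : N i.succ 0 = 0 := (hinv0 i.succ).trans (by simp)
        rw [h4, zero_mul, zero_add] at h3
        rw [Matrix.mul_apply]
        simp only [Matrix.of_apply]
        rw [h3]
        simp [Matrix.one_apply] }
  refine ⟨M', ?_⟩
  let e : Fin (n + 1) ≃ Unit ⊕ Fin n :=
    { toFun := Fin.cases (Sum.inl ()) Sum.inr
      invFun := Sum.elim (fun _ => 0) Fin.succ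
      left_inv := by intro i; induction i using Fin.cases <;> rfl
      right_inv := by rintro (i | i) <;> rfl }
  have h5 := cl_upper (1 : (Matrix Unit Unit R)ˣ) M'
    (Matrix.of fun _ j => (M : Matrix (Fin (n + 1)) (Fin (n + 1)) R) 0 j.succ) (reindexUnit e M) (by
      rw [reindexUnit_val]
      ext (i | i) (j | j)
      · simp [e, h0]
      · simp [e]
      · simp [e, h1]
      · simp [e, M'])
  rw [cl_one, zero_add, cl_reindex] at h5
  exact h5.symm

end rowops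


section stable

variable {G : Type} [Group G]

/-- reduction modulo `N` -/
noncomputable def redMod (G : Type) [Group G] (N : ℕ) : MonoidAlgebra ℤ G →+* MonoidAlgebra (ZMod N) G :=
  MonoidAlgebra.mapRingHom G (Int.castRingHom (ZMod N))

theorem redMod_surjective [Finite G] (N : ℕ) : Function.Surjective (redMod G N) := by
  intro y
  induction y using MonoidAlgebra.induction_on with
  | of g => exact ⟨MonoidAlgebra.of ℤ G g, by simp [redMod]⟩
  | add a b ha hb =>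
    obtain ⟨x, rfl⟩ := ha
    obtain ⟨y, rfl⟩ := hb
    exact ⟨x + y, map_add _ _ _⟩
  | smul r a ha =>
    obtain ⟨x, rfl⟩ := ha
    obtain ⟨z, rfl⟩ := ZMod.intCast_surjective r
    refine ⟨z • x, ?_⟩
    rw [map_zsmul, Int.cast_smul_eq_zsmul]

theorem redMod_ker (N : ℕ) (hN : 0 < N) (a : MonoidAlgebra ℤ G) (ha : redMod G N a = 0) :
    ∃ b, a = (N : MonoidAlgebra ℤ G) * b := by
  have : NeZero N := ⟨hN.ne'⟩
  refine ⟨MonoidAlgebra.ofCoeff (a.coeff.mapRange (fun n => n / (N : ℤ)) (by simp)), ?_⟩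
  rw [← nsmul_eq_mul]
  ext g
  have h1 := congrArg (fun b => b.coeff g) ha
  simp only [redMod, MonoidAlgebra.coeff_mapRingHom, MonoidAlgebra.coeff_zero,
    Finsupp.coe_zero, Pi.zero_apply] at h1
  simp only [MonoidAlgebra.coeff_smul, Finsupp.smul_apply,
    Finsupp.mapRange_apply]
  have h2 : (N : ℤ) ∣ a.coeff g := by
    rw [← ZMod.intCast_zmod_eq_zero_iff_dvd]
    simpa using h1
  rw [nsmul_eq_mul, Int.mul_ediv_cancel' h2]

theorem col_unimodular {k : ℕ} (M : (Matrix (Fin (k + 1)) (Fin (k + 1)) (MonoidAlgebra ℤ G))ˣ) :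
    ∃ u : Fin (k + 1) → MonoidAlgebra ℤ G,
        ∑ i, u i * (M : Matrix (Fin (k + 1)) (Fin (k + 1)) (MonoidAlgebra ℤ G)) i 0 = 1 := by
  refine ⟨fun i => ((M⁻¹ : (Matrix (Fin (k + 1)) (Fin (k + 1)) (MonoidAlgebra ℤ G))ˣ) :
    Matrix (Fin (k + 1)) (Fin (k + 1)) (MonoidAlgebra ℤ G)) 0 i, ?_⟩
  rw [← Matrix.mul_apply, ← Units.val_mul, inv_mul_cancel]
  simp

theorem step1 [Finite G] {k : ℕ} (M : (Matrix (Fin (k + 1)) (Fin (k + 1)) (MonoidAlgebra ℤ G))ˣ) :
    ∃ M₁ : (Matrix (Fin (k + 1)) (Fin (k + 1)) (MonoidAlgebra ℤ G))ˣ, cl M₁ = cl M ∧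
      ∃ (c : MonoidAlgebra ℤ G) (N : ℕ), 0 < N ∧
        c * (M₁ : Matrix (Fin (k + 1)) (Fin (k + 1)) (MonoidAlgebra ℤ G)) 0 0 = (N : MonoidAlgebra ℤ G) ∧
        (M₁ : Matrix (Fin (k + 1)) (Fin (k + 1)) (MonoidAlgebra ℤ G)) 0 0 * c = (N : MonoidAlgebra ℤ G) := by
  obtain ⟨v, hv⟩ : ∃ v : Fin (k + 1) → MonoidAlgebra ℤ G, ∀ i,
    v i = (M : Matrix (Fin (k + 1)) (Fin (k + 1)) (MonoidAlgebra ℤ G)) i 0 := ⟨_, fun _ => rfl⟩
  obtain ⟨u, hu⟩ := col_unimodular M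
  simp only [← hv] at hu
  obtain ⟨j, hj, c, N, hN, hc1, hc2⟩ := sr_rational (v 0) _ (span_sup_ne v u 0 hu)
  obtain ⟨lam, hlam0, hlam⟩ := mem_span_ne v 0 j hj
  obtain ⟨M₁, hM₁, h₁⟩ := rowAdd M 0 lam hlam0
  refine ⟨M₁, hM₁, c, N, hN, ?_, ?_⟩
  · rw [h₁, if_pos rfl]
    simp only [← hv]
    rw [hlam, hc1]
  · rw [h₁, if_pos rfl]
    simp only [← hv]
    rw [hlam, hc2]

theorem artin_mod [Finite G] (N : ℕ) (hN : 0 < N) : IsArtinianRing (MonoidAlgebra (ZMod N) G) := by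
  have hNz : NeZero N := ⟨hN.ne'⟩
  have hf1 : Finite (G →₀ ZMod N) :=
    Finite.of_injective (fun f : G →₀ ZMod N => (f : G → ZMod N)) DFunLike.coe_injective
  have hf : Finite (MonoidAlgebra (ZMod N) G) := Finite.of_injective _ MonoidAlgebra.coeff_injective
  infer_instance

theorem step2 [Finite G] {k : ℕ} (M : (Matrix (Fin (k + 2)) (Fin (k + 2)) (MonoidAlgebra ℤ G))ˣ)
    (c : MonoidAlgebra ℤ G) (N : ℕ) (hN : 0 < N)
    (hc : c * (M : Matrix (Fin (k + 2)) (Fin (k + 2)) (MonoidAlgebra ℤ G)) 0 0 = (N : MonoidAlgebra ℤ G)) :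
    ∃ M₂ : (Matrix (Fin (k + 2)) (Fin (k + 2)) (MonoidAlgebra ℤ G))ˣ, cl M₂ = cl M ∧
      (M₂ : Matrix (Fin (k + 2)) (Fin (k + 2)) (MonoidAlgebra ℤ G)) 0 0 =
        (M : Matrix (Fin (k + 2)) (Fin (k + 2)) (MonoidAlgebra ℤ G)) 0 0 ∧
      ∃ x y : MonoidAlgebra ℤ G,
        x * (M₂ : Matrix (Fin (k + 2)) (Fin (k + 2)) (MonoidAlgebra ℤ G)) 0 0 +
        y * (M₂ : Matrix (Fin (k + 2)) (Fin (k + 2)) (MonoidAlgebra ℤ G)) 1 0 = 1 := by
  have hart := artin_mod (G := G) N hN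
  obtain ⟨u₁, hu₁⟩ := col_unimodular M
  obtain ⟨v, hv⟩ : ∃ v : Fin (k + 2) → MonoidAlgebra (ZMod N) G, ∀ i, v i =
    redMod G N ((M : Matrix (Fin (k + 2)) (Fin (k + 2)) (MonoidAlgebra ℤ G)) i 0) := ⟨_, fun _ => rfl⟩
  have hu₁' : ∑ i, redMod G N (u₁ i) * v i = 1 := by
    rw [← map_one (redMod G N), ← hu₁, map_sum]
    simp only [map_mul, hv]
  obtain ⟨j₁, hj₁, hunit⟩ := sr_one (v 1) _ (span_sup_ne v (fun i => redMod G N (u₁ i)) 1 hu₁')
  obtain ⟨lb, hlb1, hlb⟩ := mem_span_ne v 1 j₁ hj₁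
  choose lft hlft using redMod_surjective (G := G) N
  obtain ⟨M₂, hM₂, h₂⟩ := rowAdd M 1 (fun i => if i = 1 then 0 else lft (lb i)) (by simp)
  have ha₂ : (M₂ : Matrix (Fin (k + 2)) (Fin (k + 2)) (MonoidAlgebra ℤ G)) 0 0 =
      (M : Matrix (Fin (k + 2)) (Fin (k + 2)) (MonoidAlgebra ℤ G)) 0 0 := by
    rw [h₂, if_neg (by simp), add_zero]
  have hb₂ : redMod G N ((M₂ : Matrix (Fin (k + 2)) (Fin (k + 2)) (MonoidAlgebra ℤ G)) 1 0) =
      redMod G N ((M : Matrix (Fin (k + 2)) (Fin (k + 2)) (MonoidAlgebra ℤ G)) 1 0) + j₁ := by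
    rw [h₂, if_pos rfl, map_add, map_sum, ← hlb]
    congr 1
    apply Finset.sum_congr rfl
    intro i _
    rw [map_mul, hv]
    by_cases hi : i = 1
    · rw [if_pos hi, hi, hlb1, map_zero]
    · rw [if_neg hi, hlft]
  rw [hv, ← hb₂] at hunit
  obtain ⟨U, hU⟩ := hunit
  obtain ⟨y, hy⟩ := redMod_surjective (G := G) N
    ((U⁻¹ : (MonoidAlgebra (ZMod N) G)ˣ) : MonoidAlgebra (ZMod N) G)
  have h3 : redMod G N (y * (M₂ : Matrix (Fin (k + 2)) (Fin (k + 2)) (MonoidAlgebra ℤ G)) 1 0 - 1) = 0 := by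
    rw [map_sub, map_mul, hy, ← hU, Units.inv_mul, map_one, sub_self]
  obtain ⟨z, hz⟩ := redMod_ker N hN _ h3
  refine ⟨M₂, hM₂, ha₂, -(z * c), y, ?_⟩
  have h4 : y * (M₂ : Matrix (Fin (k + 2)) (Fin (k + 2)) (MonoidAlgebra ℤ G)) 1 0 =
      1 + (N : MonoidAlgebra ℤ G) * z := by
    rw [← hz, add_sub_cancel]
  rw [h4, neg_mul, mul_assoc, ha₂, hc, (Nat.cast_commute N z).eq, add_comm, add_assoc, add_neg_cancel,
    add_zero]

theorem step3 {k : ℕ} (M : (Matrix (Fin (k + 3)) (Fin (k + 3)) (MonoidAlgebra ℤ G))ˣ)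
    (x y : MonoidAlgebra ℤ G)
    (h : x * (M : Matrix (Fin (k + 3)) (Fin (k + 3)) (MonoidAlgebra ℤ G)) 0 0 +
      y * (M : Matrix (Fin (k + 3)) (Fin (k + 3)) (MonoidAlgebra ℤ G)) 1 0 = 1) :
    ∃ M₃ : (Matrix (Fin (k + 3)) (Fin (k + 3)) (MonoidAlgebra ℤ G))ˣ, cl M₃ = cl M ∧
      (M₃ : Matrix (Fin (k + 3)) (Fin (k + 3)) (MonoidAlgebra ℤ G)) (Fin.succ (Fin.succ 0)) 0 = 1 := by
  set i2 : Fin (k + 3) := Fin.succ (Fin.succ 0) with hi2
  obtain ⟨c₂, hc₂⟩ : ∃ c₂, c₂ = (M : Matrix (Fin (k + 3)) (Fin (k + 3)) (MonoidAlgebra ℤ G)) i2 0 :=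
    ⟨_, rfl⟩
  obtain ⟨M₃, hM₃, h₃⟩ := rowAdd M i2 (Fin.cons ((1 - c₂) * x) (Fin.cons ((1 - c₂) * y) (fun _ => 0)))
    (by rw [hi2, Fin.cons_succ, Fin.cons_succ])
  refine ⟨M₃, hM₃, ?_⟩
  rw [h₃, if_pos rfl, Fin.sum_univ_succ, Fin.sum_univ_succ, ← hc₂]
  simp only [Fin.cons_zero, Fin.cons_succ, zero_mul, Finset.sum_const_zero, add_zero]
  rw [mul_assoc, mul_assoc, ← mul_add]
  have h5 : (Fin.succ 0 : Fin (k + 3)) = 1 := rfl
  rw [h5, h, mul_one, add_sub_cancel]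

theorem step4 {R : Type} [Ring R] {k : ℕ} (M : (Matrix (Fin (k + 1)) (Fin (k + 1)) R)ˣ) (i1 : Fin k)
    (h : (M : Matrix (Fin (k + 1)) (Fin (k + 1)) R) i1.succ 0 = 1) :
    ∃ M' : (Matrix (Fin k) (Fin k) R)ˣ, cl M' = cl M := by
  obtain ⟨c, hc⟩ : ∃ c, c = (M : Matrix (Fin (k + 1)) (Fin (k + 1)) R) 0 0 := ⟨_, rfl⟩
  obtain ⟨M₄, hM₄, h₄⟩ := rowAdd M 0 (fun i => if i = i1.succ then (1 - c) else 0)
    (by rw [if_neg (Fin.succ_ne_zero i1).symm])
  have h₄0 : (M₄ : Matrix (Fin (k + 1)) (Fin (k + 1)) R) 0 0 = 1 := by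
    rw [h₄, if_pos rfl]
    simp only [ite_mul, zero_mul, Finset.sum_ite_eq', Finset.mem_univ, if_true]
    rw [h, mul_one, ← hc, add_sub_cancel]
  obtain ⟨M₅, hM₅, h₅⟩ := rowClear M₄ 0 (Fin.cons 0
    (fun i => -(M₄ : Matrix (Fin (k + 1)) (Fin (k + 1)) R) i.succ 0)) (by rw [Fin.cons_zero])
  obtain ⟨M', hM'⟩ := block_cl M₅ (by rw [h₅, Fin.cons_zero, h₄0, zero_mul, add_zero]) (by
    intro i
    rw [h₅, Fin.cons_succ, h₄0, mul_one, add_neg_cancel])
  exact ⟨M', by rw [hM', hM₅, hM₄]⟩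

theorem stable_aux [Finite G] (m : ℕ)
    (M : (Matrix (Fin (m + 3)) (Fin (m + 3)) (MonoidAlgebra ℤ G))ˣ) :
    ∃ M' : (Matrix (Fin (m + 2)) (Fin (m + 2)) (MonoidAlgebra ℤ G))ˣ, cl M' = cl M := by
  obtain ⟨M₁, hM₁, c, N, hN, hc1, hc2⟩ := step1 M
  obtain ⟨M₂, hM₂, h₂, x, y, hxy⟩ := step2 M₁ c N hN hc1
  obtain ⟨M₃, hM₃, h₃⟩ := step3 M₂ x y hxy
  obtain ⟨M', hM'⟩ := step4 M₃ (Fin.succ 0) h₃
  exact ⟨M', by rw [hM', hM₃, hM₂, hM₁]⟩

theorem stable {G : Type} [Group G] [Finite G] (n : ℕ) (hn : 2 ≤ n)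
    (M : (Matrix (Fin (n + 1)) (Fin (n + 1)) (MonoidAlgebra ℤ G))ˣ) :
    ∃ M' : (Matrix (Fin n) (Fin n) (MonoidAlgebra ℤ G))ˣ, cl M' = cl M := by
  obtain ⟨m, rfl⟩ : ∃ m, n = m + 2 := ⟨n - 2, by omega⟩
  exact stable_aux m M

end stable

end H842
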