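import Pool.Agent.H842R2.K1

/-! Classes in the Whitehead group of rectangular invertible matrices. -/

open Matrix

namespace H842

open H970SH

section

variable {G : Type} [Group G]

/-- the projection to the Whitehead group -/
noncomputable def whc (G : Type) [Group G] : K1 (MonoidAlgebra ℤ G) →+ Wh G :=
  QuotientAddGroup.mk' (trivialUnits G)

theorem whc_mk {n : ℕ} (U : (Matrix (Fin n) (Fin n) (MonoidAlgebra ℤ G))ˣ) :
    Wh.mk U = whc G (cl U) := by
  rw [cl_fin]; rfl

theorem whc_surjective : Function.Surjective (whc G) := QuotientAddGroup.mk'_surjective _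

theorem whc_neg_one : whc G (cl (unit1 (-1 : (MonoidAlgebra ℤ G)ˣ))) = 0 := by
  unfold whc
  rw [QuotientAddGroup.mk'_apply, QuotientAddGroup.eq_zero_iff]
  apply AddSubgroup.subset_closure
  refine ⟨1, reindexUnit (Equiv.ofUnique Unit (Fin 1)) (unit1 (-1)), Or.inr ?_, ?_⟩
  · simp only [reindexUnit_val, unit1, Matrix.reindex_apply, Matrix.submatrix_apply,
      Matrix.of_apply, Units.val_neg, Units.val_one, map_one]
  · rw [← cl_fin, cl_reindex]

variable {ι κ μ ν : Type} [Fintype ι] [DecidableEq ι] [Fintype κ] [DecidableEq κ] [Fintype μ]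
  [DecidableEq μ] [Fintype ν] [DecidableEq ν]

theorem permU_mul {R : Type} [Ring R] (σ τ : Equiv.Perm ι) :
    permU R (σ * τ) = permU R τ * permU R σ := by
  ext i j
  show (if (σ * τ) i = j then (1 : R) else 0) =
    ((Matrix.of fun i j => if τ i = j then (1 : R) else 0) *
      (Matrix.of fun i j => if σ i = j then (1 : R) else 0)) i j
  rw [Matrix.mul_apply, Finset.sum_eq_single (τ i)]
  · simp
  · intro b _ hb
    simp [Ne.symm hb]
  · simp

theorem whc_perm (σ : Equiv.Perm ι) : whc G (cl (permU (MonoidAlgebra ℤ G) σ)) = 0 := by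
  induction σ using Equiv.Perm.swap_induction_on with
  | one =>
    have : permU (MonoidAlgebra ℤ G) (1 : Equiv.Perm ι) = 1 := by
      refine Units.ext (Matrix.ext fun i j => ?_)
      simp [permU, Matrix.one_apply]
    rw [this, cl_one, map_zero]
  | swap_mul f x y hxy ih =>
    rw [permU_mul, cl_mul, map_add, ih, zero_add]
    let v : ι → MonoidAlgebra ℤ G := Pi.single x 1 - Pi.single y 1
    let A : Matrix ι Unit (MonoidAlgebra ℤ G) := Matrix.of fun i _ => - v i
    let B : Matrix Unit ι (MonoidAlgebra ℤ G) := Matrix.of fun _ i => v i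
    have h1 : ((permU (MonoidAlgebra ℤ G) (Equiv.swap x y) : (Matrix ι ι _)ˣ) : Matrix ι ι _)
        = 1 + A * B := by
      refine Matrix.ext fun i j => ?_
      simp only [permU, A, B, v, Matrix.add_apply, Matrix.mul_apply, Matrix.of_apply,
        Finset.univ_unique, Finset.sum_singleton, Pi.sub_apply, Pi.single_apply, Matrix.one_apply]
      by_cases hix : i = x
      · subst hix
        rw [Equiv.swap_apply_left]
        by_cases hj : j = y
        · subst hj; simp [hxy, Ne.symm hxy]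
        · by_cases hj' : j = i
          · subst hj'; simp [hxy, Ne.symm hxy]
          · simp [hxy, hj, hj', Ne.symm hj, Ne.symm hj']
      · by_cases hiy : i = y
        · subst hiy
          rw [Equiv.swap_apply_right]
          by_cases hj : j = x
          · subst hj; simp [hix, Ne.symm hix]
          · by_cases hj' : j = i
            · subst hj'; simp [hix, Ne.symm hix]
            · simp [hix, hj, hj', Ne.symm hj, Ne.symm hj']
        · rw [Equiv.swap_apply_of_ne_of_ne hix hiy]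
          simp [hix, hiy]
    have h2 : ((unit1 (-1 : (MonoidAlgebra ℤ G)ˣ) : (Matrix Unit Unit _)ˣ) : Matrix Unit Unit _)
        = 1 + B * A := by
      refine Matrix.ext fun i j => ?_
      have : (∑ z, v z * v z) = 2 := by
        have hv : ∀ z, v z * v z = (if z = x then 1 else 0) + (if z = y then 1 else 0) := by
          intro z
          simp only [v, Pi.sub_apply, Pi.single_apply]
          by_cases hx : z = x
          · subst hx; simp [hxy]
          · by_cases hy : z = y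
            · subst hy; simp [hx]
            · simp [hx, hy]
        simp only [hv, Finset.sum_add_distrib, Finset.sum_ite_eq', Finset.mem_univ, if_true]
        norm_num
      simp only [unit1, A, B, Matrix.add_apply, Matrix.mul_apply, Matrix.of_apply, mul_neg,
        Finset.sum_neg_distrib, this]
      simp
      norm_num
    rw [cl_one_add_mul_comm A B _ _ h1 h2, whc_neg_one]

/-- The rectangular matrix `Φ` is invertible and has class `w` in the Whitehead group (with respect
to some numbering of the bases). -/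
def RC (Φ : Matrix ι κ (MonoidAlgebra ℤ G)) (w : Wh G) : Prop :=
  ∃ (N : ℕ) (e : ι ≃ Fin N) (e' : κ ≃ Fin N)
    (U : (Matrix (Fin N) (Fin N) (MonoidAlgebra ℤ G))ˣ),
    (U : Matrix (Fin N) (Fin N) (MonoidAlgebra ℤ G)) = Matrix.reindex e e' Φ ∧ Wh.mk U = w

theorem RC.card {Φ : Matrix ι κ (MonoidAlgebra ℤ G)} {w : Wh G} (h : RC Φ w) :
    Fintype.card ι = Fintype.card κ := by
  obtain ⟨N, e, e', _⟩ := h
  exact Fintype.card_congr (e.trans e'.symm)

/-- the class does not depend on the numbering -/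
theorem RC_iff (e : κ ≃ ι) (Φ : Matrix ι κ (MonoidAlgebra ℤ G)) (w : Wh G) :
    RC Φ w ↔ ∃ U : (Matrix ι ι (MonoidAlgebra ℤ G))ˣ,
      (U : Matrix ι ι (MonoidAlgebra ℤ G)) = Matrix.reindex (Equiv.refl ι) e Φ ∧ whc G (cl U) = w := by
  constructor
  · rintro ⟨N, f, f', U, hU, hw⟩
    let τ : Equiv.Perm ι := e.symm.trans (f'.trans f.symm)
    refine ⟨reindexUnit f.symm U * (permU _ τ.symm), ?_, ?_⟩
    · ext i j
      rw [Units.val_mul, Matrix.mul_apply, Finset.sum_eq_single (τ j)]
      · simp [reindexUnit_val, hU, permU, τ]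
      · intro b _ hb
        have : ¬ (τ.symm b = j) := by
          intro h; apply hb; rw [← h]; simp
        simp only [permU, Matrix.of_apply, this, if_false, mul_zero]
      · simp
    · rw [cl_mul, cl_reindex, map_add, whc_perm, add_zero, ← hw, whc_mk]
  · rintro ⟨U, hU, hw⟩
    refine ⟨Fintype.card ι, Fintype.equivFin ι, e.trans (Fintype.equivFin ι),
      reindexUnit (Fintype.equivFin ι) U, ?_, ?_⟩
    · ext i j
      simp [reindexUnit_val, hU]
    · rw [whc_mk, cl_reindex, hw]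

theorem RC.unique {Φ : Matrix ι κ (MonoidAlgebra ℤ G)} {w w' : Wh G} (h : RC Φ w) (h' : RC Φ w') :
    w = w' := by
  have e : κ ≃ ι := (Fintype.equivOfCardEq h.card).symm
  rw [RC_iff e] at h h'
  obtain ⟨U, hU, hw⟩ := h
  obtain ⟨V, hV, hw'⟩ := h'
  have : U = V := Units.ext (hU.trans hV.symm)
  rw [← hw, ← hw', this]

theorem RC_unit (U : (Matrix ι ι (MonoidAlgebra ℤ G))ˣ) :
    RC (U : Matrix ι ι (MonoidAlgebra ℤ G)) (whc G (cl U)) := by
  rw [RC_iff (Equiv.refl ι)]
  exact ⟨U, by simp, rfl⟩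

theorem RC_unit' (U : (Matrix ι ι (MonoidAlgebra ℤ G))ˣ) (w : Wh G) (h : whc G (cl U) = w) :
    RC (U : Matrix ι ι (MonoidAlgebra ℤ G)) w := h ▸ RC_unit U

theorem RC.mul {Φ : Matrix ι κ (MonoidAlgebra ℤ G)} {Ψ : Matrix κ μ (MonoidAlgebra ℤ G)}
    {w w' : Wh G} (h : RC Φ w) (h' : RC Ψ w') : RC (Φ * Ψ) (w + w') := by
  have e : κ ≃ ι := (Fintype.equivOfCardEq h.card).symm
  have e' : μ ≃ κ := (Fintype.equivOfCardEq h'.card).symm
  rw [RC_iff e] at h
  rw [RC_iff e'] at h'
  rw [RC_iff (e'.trans e)]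
  obtain ⟨U, hU, hw⟩ := h
  obtain ⟨V, hV, hw'⟩ := h'
  refine ⟨U * reindexUnit e V, ?_, ?_⟩
  · rw [Units.val_mul, hU, reindexUnit_val, hV]
    refine Matrix.ext fun i j => ?_
    simp only [Matrix.reindex_apply, Matrix.submatrix_apply, Matrix.mul_apply, Equiv.refl_symm,
      Equiv.coe_refl, id_eq, Equiv.symm_trans_apply]
    exact Equiv.sum_comp e.symm (fun k => Φ i k * Ψ k (e'.symm (e.symm j)))
  · rw [cl_mul, cl_reindex, map_add, hw, hw']

theorem RC.diag {Φ : Matrix ι κ (MonoidAlgebra ℤ G)} {Ψ : Matrix μ ν (MonoidAlgebra ℤ G)}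
    {w w' : Wh G} (h : RC Φ w) (h' : RC Ψ w') : RC (fromBlocks Φ 0 0 Ψ) (w + w') := by
  have e : κ ≃ ι := (Fintype.equivOfCardEq h.card).symm
  have e' : ν ≃ μ := (Fintype.equivOfCardEq h'.card).symm
  rw [RC_iff e] at h
  rw [RC_iff e'] at h'
  rw [RC_iff (Equiv.sumCongr e e')]
  obtain ⟨U, hU, hw⟩ := h
  obtain ⟨V, hV, hw'⟩ := h'
  refine ⟨diagU U V, ?_, ?_⟩
  · rw [diagU_val, hU, hV]
    ext (i | i) (j | j) <;> simp
  · rw [cl_diagU, map_add, hw, hw']

theorem RC.reindex {Φ : Matrix ι κ (MonoidAlgebra ℤ G)} {w : Wh G} (h : RC Φ w) (e : ι ≃ μ)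
    (e' : κ ≃ ν) : RC (Matrix.reindex e e' Φ) w := by
  obtain ⟨N, f, f', U, hU, hw⟩ := h
  refine ⟨N, e.symm.trans f, e'.symm.trans f', U, ?_, hw⟩
  rw [hU]
  ext i j
  simp

theorem RC_one : RC (1 : Matrix ι ι (MonoidAlgebra ℤ G)) 0 := by
  have := RC_unit (1 : (Matrix ι ι (MonoidAlgebra ℤ G))ˣ)
  rwa [cl_one, map_zero] at this

theorem RC_neg_one : RC (-1 : Matrix ι ι (MonoidAlgebra ℤ G)) 0 := by
  have key : ∀ (κ : Type) [Fintype κ], ∀ [DecidableEq κ],
      RC (-1 : Matrix κ κ (MonoidAlgebra ℤ G)) 0 := by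
    intro κ _
    refine Fintype.induction_empty_option (P := fun κ _ => ∀ [DecidableEq κ],
      RC (-1 : Matrix κ κ (MonoidAlgebra ℤ G)) 0) ?_ ?_ ?_ κ
    · intro α β _ e ih _
      let _ : Fintype α := Fintype.ofEquiv β e.symm
      let _ : DecidableEq α := Classical.decEq α
      have h := ih.reindex e e
      convert h using 1
      refine Matrix.ext fun i j => ?_
      simp [Matrix.one_apply]
    · intro _
      convert (RC_one (G := G) (ι := PEmpty))
      ext i; exact i.elim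
    · intro α _ ih _
      let _ : DecidableEq α := Classical.decEq α
      have h1 := ih
      have h2 : RC (-1 : Matrix Unit Unit (MonoidAlgebra ℤ G)) 0 := by
        have h3 := RC_unit (unit1 (-1 : (MonoidAlgebra ℤ G)ˣ))
        rw [whc_neg_one] at h3
        convert h3 using 1
        refine Matrix.ext fun i j => ?_
        simp [unit1]
      have h4 := (h1.diag h2).reindex (Equiv.optionEquivSumPUnit α).symm
        (Equiv.optionEquivSumPUnit α).symm
      rw [add_zero] at h4
      convert h4 using 1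
      refine Matrix.ext fun i j => ?_
      rcases i with _ | i <;> rcases j with _ | j <;> simp [Matrix.one_apply]
  exact key ι

/-- two-sided invertibility of rectangular matrices -/
def Inv2 {R : Type} [Ring R] (Φ : Matrix ι κ R) : Prop := ∃ Ψ : Matrix κ ι R, Φ * Ψ = 1 ∧ Ψ * Φ = 1

theorem RC.inv2 {Φ : Matrix ι κ (MonoidAlgebra ℤ G)} {w : Wh G} (h : RC Φ w) : Inv2 Φ := by
  have e : κ ≃ ι := (Fintype.equivOfCardEq h.card).symm
  rw [RC_iff e] at h
  obtain ⟨U, hU, hw⟩ := h
  refine ⟨Matrix.reindex e.symm (Equiv.refl ι) ((U⁻¹ : (Matrix ι ι _)ˣ) : Matrix ι ι _), ?_, ?_⟩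
  · have h1 : (U : Matrix ι ι (MonoidAlgebra ℤ G)) *
        ((U⁻¹ : (Matrix ι ι (MonoidAlgebra ℤ G))ˣ) : Matrix ι ι (MonoidAlgebra ℤ G)) = 1 := U.mul_inv
    rw [hU] at h1
    rw [← h1]
    refine Matrix.ext fun i j => ?_
    simp only [Matrix.mul_apply, Matrix.reindex_apply, Matrix.submatrix_apply, Equiv.refl_symm,
      Equiv.coe_refl, id_eq, Equiv.symm_symm]
    exact (Equiv.sum_comp e.symm (fun k => Φ i k *
      ((U⁻¹ : (Matrix ι ι (MonoidAlgebra ℤ G))ˣ) : Matrix ι ι (MonoidAlgebra ℤ G)) (e k) j)).symm.trans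
      (by simp)
  · have h1 : ((U⁻¹ : (Matrix ι ι (MonoidAlgebra ℤ G))ˣ) : Matrix ι ι (MonoidAlgebra ℤ G)) *
        (U : Matrix ι ι (MonoidAlgebra ℤ G)) = 1 := U.inv_mul
    rw [hU] at h1
    have h2 := congrArg (Matrix.reindex e.symm e.symm) h1
    refine Matrix.ext fun i j => ?_
    have h3 := congrFun (congrFun h2 i) j
    simp only [Matrix.mul_apply, Matrix.reindex_apply, Matrix.submatrix_apply, Equiv.refl_symm,
      Equiv.coe_refl, id_eq, Equiv.symm_symm, Equiv.symm_apply_apply, Matrix.one_apply,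
      EmbeddingLike.apply_eq_iff_eq] at h3 ⊢
    exact h3

theorem Inv2.exists_RC {Φ : Matrix ι κ (MonoidAlgebra ℤ G)} (h : Inv2 Φ)
    (hc : Fintype.card ι = Fintype.card κ) : ∃ w, RC Φ w := by
  have e : κ ≃ ι := (Fintype.equivOfCardEq hc).symm
  obtain ⟨Ψ, h1, h2⟩ := h
  let U : (Matrix ι ι (MonoidAlgebra ℤ G))ˣ :=
    ⟨Matrix.reindex (Equiv.refl ι) e Φ, Matrix.reindex e (Equiv.refl ι) Ψ, by
      refine Matrix.ext fun i j => ?_
      have h3 := congrFun (congrFun h1 i) j
      simp only [Matrix.mul_apply, Matrix.reindex_apply, Matrix.submatrix_apply, Equiv.refl_symm,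
        Equiv.coe_refl, id_eq] at h3 ⊢
      rw [← h3]
      exact Equiv.sum_comp e.symm (fun k => Φ i k * Ψ k j), by
      refine Matrix.ext fun i j => ?_
      have h3 := congrFun (congrFun h2 (e.symm i)) (e.symm j)
      simp only [Matrix.mul_apply, Matrix.reindex_apply, Matrix.submatrix_apply, Equiv.refl_symm,
        Equiv.coe_refl, id_eq, Matrix.one_apply, EmbeddingLike.apply_eq_iff_eq] at h3 ⊢
      exact h3⟩
  refine ⟨whc G (cl U), ?_⟩
  rw [RC_iff e]
  exact ⟨U, rfl, rfl⟩

theorem Inv2.of_diag {R : Type} [Ring R] {Φ : Matrix ι κ R} {Ψ : Matrix μ ν R}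
    (h : Inv2 (fromBlocks Φ 0 0 Ψ)) : Inv2 Φ := by
  obtain ⟨Θ, h1, h2⟩ := h
  rw [← Matrix.fromBlocks_toBlocks Θ, fromBlocks_multiply] at h1 h2
  rw [← fromBlocks_one] at h1 h2
  rw [Matrix.fromBlocks_inj] at h1 h2
  refine ⟨Θ.toBlocks₁₁, ?_, ?_⟩
  · simpa using h1.1
  · simpa using h2.1

theorem Inv2.reindex {R : Type} [Ring R] {Φ : Matrix ι κ R} (h : Inv2 Φ) (e : ι ≃ μ) (e' : κ ≃ ν) :
    Inv2 (Matrix.reindex e e' Φ) := by
  obtain ⟨Ψ, h1, h2⟩ := h
  refine ⟨Matrix.reindex e' e Ψ, ?_, ?_⟩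
  · rw [Matrix.reindex_apply, Matrix.reindex_apply, Matrix.submatrix_mul_equiv, h1]
    simp
  · rw [Matrix.reindex_apply, Matrix.reindex_apply, Matrix.submatrix_mul_equiv, h2]
    simp

/-- cancellation of `-1` blocks -/
theorem RC.of_diag_neg_one {Φ : Matrix ι κ (MonoidAlgebra ℤ G)} {w : Wh G}
    (h : RC (fromBlocks Φ 0 0 (-1 : Matrix μ μ (MonoidAlgebra ℤ G))) w) : RC Φ w := by
  have hc : Fintype.card ι = Fintype.card κ := by
    have := h.card
    simp only [Fintype.card_sum] at this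
    omega
  obtain ⟨w', hw'⟩ := h.inv2.of_diag.exists_RC hc
  have h2 := hw'.diag (RC_neg_one (G := G) (ι := μ))
  rw [add_zero] at h2
  rw [h.unique h2]
  exact hw'

end

end H842
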