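import Pool.Agent.H842R2.TopA

/-! Torsion of chain maps between algebraic 2-complexes: composition and inverses. -/

open Matrix

namespace H842

open H970SH

section m3

variable {R : Type} [Ring R]
variable {a1 a2 a3 b1 b2 b3 c1 c2 c3 : Type} [Fintype b1] [Fintype b2] [Fintype b3]

/-- 3 × 3 block matrices -/
def m3 (A11 : Matrix a1 b1 R) (A12 : Matrix a1 b2 R) (A13 : Matrix a1 b3 R)
    (A21 : Matrix a2 b1 R) (A22 : Matrix a2 b2 R) (A23 : Matrix a2 b3 R)
    (A31 : Matrix a3 b1 R) (A32 : Matrix a3 b2 R) (A33 : Matrix a3 b3 R) :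
    Matrix (a1 ⊕ (a2 ⊕ a3)) (b1 ⊕ (b2 ⊕ b3)) R :=
  fromBlocks A11 (fromCols A12 A13) (fromRows A21 A31) (fromBlocks A22 A23 A32 A33)

theorem m3_mul (A11 : Matrix a1 b1 R) (A12 : Matrix a1 b2 R) (A13 : Matrix a1 b3 R)
    (A21 : Matrix a2 b1 R) (A22 : Matrix a2 b2 R) (A23 : Matrix a2 b3 R)
    (A31 : Matrix a3 b1 R) (A32 : Matrix a3 b2 R) (A33 : Matrix a3 b3 R)
    (B11 : Matrix b1 c1 R) (B12 : Matrix b1 c2 R) (B13 : Matrix b1 c3 R)
    (B21 : Matrix b2 c1 R) (B22 : Matrix b2 c2 R) (B23 : Matrix b2 c3 R)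
    (B31 : Matrix b3 c1 R) (B32 : Matrix b3 c2 R) (B33 : Matrix b3 c3 R) :
    m3 A11 A12 A13 A21 A22 A23 A31 A32 A33 * m3 B11 B12 B13 B21 B22 B23 B31 B32 B33 =
    m3 (A11 * B11 + (A12 * B21 + A13 * B31)) (A11 * B12 + (A12 * B22 + A13 * B32))
      (A11 * B13 + (A12 * B23 + A13 * B33))
      (A21 * B11 + (A22 * B21 + A23 * B31)) (A21 * B12 + (A22 * B22 + A23 * B32))
      (A21 * B13 + (A22 * B23 + A23 * B33))
      (A31 * B11 + (A32 * B21 + A33 * B31)) (A31 * B12 + (A32 * B22 + A33 * B32))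
      (A31 * B13 + (A32 * B23 + A33 * B33)) := by
  refine Matrix.ext fun i j => ?_
  rcases i with i | i | i <;> rcases j with j | j | j <;>
  simp [m3, Matrix.mul_apply, Fintype.sum_sum_type]

end m3

/-- An algebraic 2-complex `R^Y → R^X → R` (row vectors). -/
structure Cx (R : Type) where
  X : Type
  Y : Type
  [fX : Fintype X]
  [dX : DecidableEq X]
  [fY : Fintype Y]
  [dY : DecidableEq Y]
  D1 : Matrix X Unit R
  D2 : Matrix Y X R

attribute [instance] Cx.fX Cx.dX Cx.fY Cx.dY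

variable {G : Type} [Group G]

/-- There is a chain map, the identity in degree 0, which is a homotopy equivalence with
torsion `w`. -/
def HasTor (C C' : Cx (MonoidAlgebra ℤ G)) (w : Wh G) : Prop :=
  ∃ (f1 : Matrix C.X C'.X (MonoidAlgebra ℤ G)) (f2 : Matrix C.Y C'.Y (MonoidAlgebra ℤ G))
    (s1 : Matrix C'.X C.X (MonoidAlgebra ℤ G)) (s2 : Matrix C'.X C'.Y (MonoidAlgebra ℤ G)),
    C.D1 = f1 * C'.D1 ∧ C.D2 * f1 = f2 * C'.D2 ∧ s1 * f1 + s2 * C'.D2 = 1 ∧
    RC (fromBlocks (-C.D2) f2 s1 s2) w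

variable {ι κ μ : Type} [Fintype ι] [DecidableEq ι] [Fintype κ] [DecidableEq κ] [Fintype μ]
  [DecidableEq μ]

theorem RC_upU (B : Matrix ι κ (MonoidAlgebra ℤ G)) :
    RC (fromBlocks (1 : Matrix ι ι (MonoidAlgebra ℤ G)) B 0 (1 : Matrix κ κ (MonoidAlgebra ℤ G))) 0 :=
  RC_unit' (upU B) 0 (by rw [cl_upU, map_zero])

theorem RC_loU (C : Matrix κ ι (MonoidAlgebra ℤ G)) :
    RC (fromBlocks (1 : Matrix ι ι (MonoidAlgebra ℤ G)) 0 C (1 : Matrix κ κ (MonoidAlgebra ℤ G))) 0 :=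
  RC_unit' (loU C) 0 (by rw [cl_loU, map_zero])

theorem HasTor.comp {C C' C'' : Cx (MonoidAlgebra ℤ G)} {w w' : Wh G} (h : HasTor C C' w)
    (h' : HasTor C' C'' w') : HasTor C C'' (w + w') := by
  obtain ⟨f1, f2, s1, s2, h1, h2, h3, h4⟩ := h
  obtain ⟨g1, g2, t1, t2, k1, k2, k3, k4⟩ := h'
  refine ⟨f1 * g1, f2 * g2, t1 * s1, t1 * s2 * g2 + t2, ?_, ?_, ?_, ?_⟩
  · rw [h1, k1, Matrix.mul_assoc]
  · rw [← Matrix.mul_assoc, h2, Matrix.mul_assoc, k2, Matrix.mul_assoc]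
  · rw [Matrix.add_mul, Matrix.mul_assoc (t1 * s2), ← k2]
    have : t1 * s1 * (f1 * g1) + (t1 * s2 * (C'.D2 * g1) + t2 * C''.D2)
        = t1 * (s1 * f1 + s2 * C'.D2) * g1 + t2 * C''.D2 := by
      simp only [Matrix.mul_add, Matrix.add_mul, Matrix.mul_assoc]
      rw [add_assoc]
    rw [this, h3, Matrix.mul_one, k3]
  · -- the main computation
    have hA : RC (m3 (-C.D2) f2 0 s1 s2 0 0 0 (1 : Matrix C''.X C''.X (MonoidAlgebra ℤ G))) w := by
      have h5 := (h4.diag (RC_one (G := G) (ι := C''.X))).reindex (Equiv.sumAssoc _ _ _)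
        (Equiv.sumAssoc _ _ _)
      rw [add_zero] at h5
      convert h5 using 1
      refine Matrix.ext fun i j => ?_
      rcases i with i | i | i <;> rcases j with j | j | j <;> simp [m3]
    have hB : RC (m3 (1 : Matrix C.X C.X (MonoidAlgebra ℤ G)) 0 0 0 (-C'.D2) g2 0 t1 t2) w' := by
      have h5 := (RC_one (G := G) (ι := C.X)).diag k4
      rw [zero_add] at h5
      convert h5 using 1
      refine Matrix.ext fun i j => ?_
      rcases i with i | i | i <;> rcases j with j | j | j <;> simp [m3]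
    have hE1 : RC (m3 (1 : Matrix C.X C.X (MonoidAlgebra ℤ G)) (-f1) 0 0
        (1 : Matrix C'.X C'.X (MonoidAlgebra ℤ G)) 0 0 0
        (1 : Matrix C''.Y C''.Y (MonoidAlgebra ℤ G))) 0 := by
      convert RC_upU (G := G) (fromCols (-f1) (0 : Matrix C.X C''.Y (MonoidAlgebra ℤ G))) using 1
      refine Matrix.ext fun i j => ?_
      rcases i with i | i | i <;> rcases j with j | j | j <;> simp [m3]
    have hE2 : RC (m3 (1 : Matrix C.Y C.Y (MonoidAlgebra ℤ G)) 0 0 0
        (1 : Matrix C'.X C'.X (MonoidAlgebra ℤ G)) 0 0 t1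
        (1 : Matrix C''.X C''.X (MonoidAlgebra ℤ G))) 0 := by
      have h5 := (RC_one (G := G) (ι := C.Y)).diag (RC_loU (G := G) t1)
      rw [zero_add] at h5
      convert h5 using 1
      refine Matrix.ext fun i j => ?_
      rcases i with i | i | i <;> rcases j with j | j | j <;> simp [m3]
    have hE3 : RC (m3 (1 : Matrix C.X C.X (MonoidAlgebra ℤ G)) 0 0 s1
        (1 : Matrix C'.X C'.X (MonoidAlgebra ℤ G)) 0 0 0
        (1 : Matrix C''.Y C''.Y (MonoidAlgebra ℤ G))) 0 := by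
      convert RC_loU (G := G) (fromRows s1 (0 : Matrix C''.Y C.X (MonoidAlgebra ℤ G))) using 1
      refine Matrix.ext fun i j => ?_
      rcases i with i | i | i <;> rcases j with j | j | j <;> simp [m3]
    have hE4 : RC (m3 (1 : Matrix C.X C.X (MonoidAlgebra ℤ G)) 0 0 0
        (1 : Matrix C'.X C'.X (MonoidAlgebra ℤ G)) (s2 * g2) 0 0
        (1 : Matrix C''.Y C''.Y (MonoidAlgebra ℤ G))) 0 := by
      have h5 := (RC_one (G := G) (ι := C.X)).diag (RC_upU (G := G) (s2 * g2))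
      rw [zero_add] at h5
      convert h5 using 1
      refine Matrix.ext fun i j => ?_
      rcases i with i | i | i <;> rcases j with j | j | j <;> simp [m3]
    have hprod := hE2.mul ((((hA.mul hB).mul hE1).mul hE3).mul hE4)
    rw [zero_add, add_zero, add_zero, add_zero] at hprod
    simp only [m3_mul] at hprod
    simp only [Matrix.mul_zero, Matrix.zero_mul, Matrix.mul_one, Matrix.one_mul, add_zero, zero_add,
      Matrix.mul_neg, Matrix.neg_mul, neg_neg] at hprod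
    have e1 : C.D2 * f1 + -(f2 * C'.D2) = 0 := by rw [h2]; exact add_neg_cancel _
    have e2 : -(s1 * f1) + -(s2 * C'.D2) = -1 := by rw [← neg_add, h3]
    simp only [e1, e2] at hprod
    have hfin : RC (fromBlocks (fromBlocks (-C.D2) (f2 * g2) (t1 * s1) (t1 * s2 * g2 + t2)) 0 0
      (-1 : Matrix C'.X C'.X (MonoidAlgebra ℤ G))) (w + w') := by
      let e : C.Y ⊕ (C'.X ⊕ C''.X) ≃ (C.Y ⊕ C''.X) ⊕ C'.X :=
        ((Equiv.refl _).sumCongr (Equiv.sumComm _ _)).trans (Equiv.sumAssoc _ _ _).symm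
      let e' : C.X ⊕ (C'.X ⊕ C''.Y) ≃ (C.X ⊕ C''.Y) ⊕ C'.X :=
        ((Equiv.refl _).sumCongr (Equiv.sumComm _ _)).trans (Equiv.sumAssoc _ _ _).symm
      have h5 := hprod.reindex e e'
      convert h5 using 1
      refine Matrix.ext fun i j => ?_
      rcases i with (i | i) | i <;> rcases j with (j | j) | j <;> simp [m3, e, e', Matrix.mul_add, Matrix.mul_assoc]
      
    exact hfin.of_diag_neg_one

theorem HasTor.symm {C C' : Cx (MonoidAlgebra ℤ G)} {w : Wh G} (h : HasTor C C' w)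
    (hC : C.D2 * C.D1 = 0) (hC' : C'.D2 * C'.D1 = 0) :
    HasTor C' C (-w) := by
  obtain ⟨f1, f2, s1, s2, h1, h2, h3, h4⟩ := h
  obtain ⟨Ψ, k1, k2⟩ := h4.inv2
  have hcard := h4.card
  -- the second column of Ψ
  have hcol : Ψ * fromRows (0 : Matrix C.Y C'.X (MonoidAlgebra ℤ G))
      (1 : Matrix C'.X C'.X (MonoidAlgebra ℤ G)) = fromRows f1 C'.D2 := by
    have : fromBlocks (-C.D2) f2 s1 s2 * fromRows f1 C'.D2 =
        fromRows (0 : Matrix C.Y C'.X (MonoidAlgebra ℤ G))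
          (1 : Matrix C'.X C'.X (MonoidAlgebra ℤ G)) := by
      rw [fromBlocks_mul_fromRows, h3, Matrix.neg_mul, h2, neg_add_cancel]
    rw [← this, ← Matrix.mul_assoc, k2, Matrix.one_mul]
  rw [← Matrix.fromBlocks_toBlocks Ψ] at k1 k2 hcol
  set p1 := Ψ.toBlocks₁₁
  set p2 := Ψ.toBlocks₂₁
  have hq1 : Ψ.toBlocks₁₂ = f1 := by
    have := congrArg Matrix.toRows₁ hcol
    rw [fromBlocks_mul_fromRows] at this
    simpa using this
  have hq2 : Ψ.toBlocks₂₂ = C'.D2 := by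
    have := congrArg Matrix.toRows₂ hcol
    rw [fromBlocks_mul_fromRows] at this
    simpa using this
  rw [hq1, hq2] at k1 k2
  have k1' := k1
  rw [fromBlocks_multiply, ← fromBlocks_one, Matrix.fromBlocks_inj] at k1
  rw [fromBlocks_multiply, ← fromBlocks_one, Matrix.fromBlocks_inj] at k2
  obtain ⟨a1, a2, a3, a4⟩ := k1
  obtain ⟨b1, b2, b3, b4⟩ := k2
  refine ⟨s1, p2, f1, -p1, ?_, ?_, ?_, ?_⟩
  · have := congrArg (fun M => M * C'.D1) h3
    simp only [Matrix.add_mul, Matrix.mul_assoc, hC', Matrix.mul_zero, add_zero, ← h1,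
      Matrix.one_mul] at this
    exact this.symm
  · rw [Matrix.mul_neg] at b3
    rw [neg_add_eq_zero] at b3
    exact b3.symm
  · rw [Matrix.mul_neg, Matrix.neg_mul] at *
    rw [← b1]; abel
  · -- class
    have hΨ : RC (fromBlocks p1 f1 p2 C'.D2) (-w) := by
      obtain ⟨w', hw'⟩ := Inv2.exists_RC (G := G) (Φ := fromBlocks p1 f1 p2 C'.D2)
        ⟨fromBlocks (-C.D2) f2 s1 s2, by
          rw [fromBlocks_multiply, b1, b2, b3, b4, fromBlocks_one], k1'⟩ hcard.symm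
      have h5 := h4.mul hw'
      rw [k1'] at h5
      have h6 := h5.unique RC_one
      rw [← neg_eq_of_add_eq_zero_right h6] at hw'
      exact hw'
    have h5 := (hΨ.reindex (Equiv.sumComm _ _) (Equiv.sumComm _ _))
    have hL : RC (fromBlocks (-1) 0 0 1 : Matrix (C'.Y ⊕ C.X) (C'.Y ⊕ C.X) (MonoidAlgebra ℤ G)) 0 := by
      have := (RC_neg_one (G := G) (ι := C'.Y)).diag (RC_one (G := G) (ι := C.X))
      rwa [add_zero] at this
    have hR : RC (fromBlocks 1 0 0 (-1) : Matrix (C'.X ⊕ C.Y) (C'.X ⊕ C.Y) (MonoidAlgebra ℤ G)) 0 := by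
      have := (RC_one (G := G) (ι := C'.X)).diag (RC_neg_one (G := G) (ι := C.Y))
      rwa [add_zero] at this
    have h6 := (hL.mul h5).mul hR
    rw [zero_add, add_zero] at h6
    convert h6 using 1
    have h7 : Matrix.reindex (Equiv.sumComm C.X C'.Y) (Equiv.sumComm C.Y C'.X)
        (fromBlocks p1 f1 p2 C'.D2) = fromBlocks C'.D2 p2 f1 p1 := by
      refine Matrix.ext fun i j => ?_
      rcases i with i | i <;> rcases j with j | j <;> simp
    rw [h7]
    simp [fromBlocks_multiply]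

/-- self-equivalences -/
theorem HasTor.self {C : Cx (MonoidAlgebra ℤ G)} (F : (Matrix C.Y C.Y (MonoidAlgebra ℤ G))ˣ)
    (hF : (F : Matrix C.Y C.Y (MonoidAlgebra ℤ G)) * C.D2 = C.D2) :
    HasTor C C (whc G (cl F)) := by
  refine ⟨1, F, 1, 0, by simp, by simp [hF], by simp, ?_⟩
  have h1 := (RC_unit F).diag (RC_one (G := G) (ι := C.X))
  rw [add_zero] at h1
  -- [[-D2, F],[1, 0]] = [[F, -D2],[0, 1]] with columns swapped
  have h2 := (RC_upU (G := G) (-C.D2)).mul h1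
  rw [zero_add] at h2
  have h3 := h2.reindex (Equiv.refl _) (Equiv.sumComm _ _)
  convert h3 using 1
  refine Matrix.ext fun i j => ?_
  rcases i with i | i <;> rcases j with j | j <;> simp [fromBlocks_multiply]

end H842
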