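import Pool.Agent.H842R2.TopB
import Pool.Agent.Helper970.SH.Basic

/-! Exactness of the cellular complex of the universal cover of a presentation complex. -/

open Matrix

namespace H842

open H970SH

variable {G : Type} [Group G]

/-- the augmentation -/
noncomputable abbrev eps (G : Type) [Group G] : MonoidAlgebra ℤ G →ₐ[ℤ] ℤ :=
  MonoidAlgebra.lift ℤ ℤ G (1 : G →* ℤ)

theorem eps_of (g : G) : eps G (MonoidAlgebra.of ℤ G g) = 1 := by
  simp

/-- `C₂ → C₁ → C₀ → ℤ → 0` is exact at `C₁` and `C₀`. -/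
structure Ex (C : Cx (MonoidAlgebra ℤ G)) : Prop where
  im1 : ∀ a : MonoidAlgebra ℤ G, eps G a = 0 → ∃ v : C.X → MonoidAlgebra ℤ G,
    v ᵥ* C.D1 = fun _ => a
  im1' : ∀ v : C.X → MonoidAlgebra ℤ G, eps G ((v ᵥ* C.D1) ()) = 0
  ex : ∀ v : C.X → MonoidAlgebra ℤ G, v ᵥ* C.D1 = 0 → ∃ u : C.Y → MonoidAlgebra ℤ G,
    u ᵥ* C.D2 = v
  dd : C.D2 * C.D1 = 0

/-- the chain complex of a presentation -/
noncomputable def presCx (P : Pres) (θ : FreeGroup P.X →* G) : Cx (MonoidAlgebra ℤ G) where
  X := P.X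
  Y := P.Y
  D1 := bd1 θ
  D2 := bd2 θ P.rel

section

variable (P : Pres) (θ : FreeGroup P.X →* G)

theorem vecMul_D1 (v : P.X → MonoidAlgebra ℤ G) :
    (v ᵥ* (presCx P θ).D1) () = ∑ x, v x * (MonoidAlgebra.of ℤ G (θ (FreeGroup.of x)) - 1) := rfl

theorem vecMul_D2 (u : P.Y → MonoidAlgebra ℤ G) (x : P.X) :
    (u ᵥ* (presCx P θ).D2) x = ∑ y, u y * fox θ (P.rel y) x := rfl

theorem pres_dd (hrel : ∀ y, θ (P.rel y) = 1) : (presCx P θ).D2 * (presCx P θ).D1 = 0 := by
  refine Matrix.ext fun y j => ?_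
  rw [Matrix.mul_apply]
  have := fox_fund θ (P.rel y)
  rw [hrel, map_one, sub_self] at this
  exact this

theorem pres_im1' (v : P.X → MonoidAlgebra ℤ G) : eps G ((v ᵥ* (presCx P θ).D1) ()) = 0 := by
  rw [vecMul_D1, map_sum]
  apply Finset.sum_eq_zero
  intro x _
  rw [map_mul, map_sub, eps_of, map_one, sub_self, mul_zero]

theorem pres_im1 (hsurj : Function.Surjective θ) (a : MonoidAlgebra ℤ G) (ha : eps G a = 0) :
    ∃ v : P.X → MonoidAlgebra ℤ G, v ᵥ* (presCx P θ).D1 = fun _ => a := by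
  -- every `a` is congruent to `eps a` modulo the image
  have key : ∀ a : MonoidAlgebra ℤ G, ∃ v : P.X → MonoidAlgebra ℤ G,
      (v ᵥ* (presCx P θ).D1) () = a - algebraMap ℤ (MonoidAlgebra ℤ G) (eps G a) := by
    intro a
    induction a using MonoidAlgebra.induction_on with
    | of g =>
      obtain ⟨w, rfl⟩ := hsurj g
      refine ⟨fun x => fox θ w x, ?_⟩
      rw [vecMul_D1, fox_fund, eps_of, map_one]
    | add a b ha hb =>
      obtain ⟨v, hv⟩ := ha
      obtain ⟨w, hw⟩ := hb
      refine ⟨v + w, ?_⟩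
      rw [Matrix.add_vecMul, Pi.add_apply, hv, hw, map_add, map_add]
      abel
    | smul r a ha =>
      obtain ⟨v, hv⟩ := ha
      refine ⟨(algebraMap ℤ (MonoidAlgebra ℤ G) r) • v, ?_⟩
      rw [Matrix.smul_vecMul, Pi.smul_apply, hv, smul_eq_mul, mul_sub, ← Algebra.smul_def,
        map_smul, smul_eq_mul, map_mul]
  obtain ⟨v, hv⟩ := key a
  refine ⟨v, ?_⟩
  funext u
  rw [ha, map_zero, sub_zero] at hv
  exact hv

/-- left submodule generated by the rows of `D2` -/
noncomputable def rowSpan : Submodule (MonoidAlgebra ℤ G) (P.X → MonoidAlgebra ℤ G) :=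
  LinearMap.range (Matrix.vecMulLinear (presCx P θ).D2)

theorem mem_rowSpan (v : P.X → MonoidAlgebra ℤ G) :
    v ∈ rowSpan P θ ↔ ∃ u : P.Y → MonoidAlgebra ℤ G, u ᵥ* (presCx P θ).D2 = v := Iff.rfl

/-- the words with trivial image and Fox derivative in the row span -/
noncomputable def foxKer : Subgroup (FreeGroup P.X) where
  carrier := {w | θ w = 1 ∧ fox θ w ∈ rowSpan P θ}
  one_mem' := by
    refine ⟨map_one _, ?_⟩
    have : fox θ (1 : FreeGroup P.X) = 0 := by funext x; rw [fox_one]; rfl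
    rw [this]; exact Submodule.zero_mem _
  mul_mem' := by
    rintro u v ⟨hu, hu'⟩ ⟨hv, hv'⟩
    refine ⟨by rw [map_mul, hu, hv, one_mul], ?_⟩
    have : fox θ (u * v) = fox θ u + fox θ v := by
      funext x; rw [fox_mul, hu, map_one, one_mul]; rfl
    rw [this]; exact Submodule.add_mem _ hu' hv'
  inv_mem' := by
    rintro u ⟨hu, hu'⟩
    refine ⟨by rw [map_inv, hu, inv_one], ?_⟩
    have : fox θ u⁻¹ = - fox θ u := by
      funext x; rw [fox_inv, hu, inv_one, map_one, one_mul]; rfl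
    rw [this]; exact Submodule.neg_mem _ hu'

instance foxKer_normal : (foxKer P θ).Normal := by
  refine ⟨fun w hw y => ?_⟩
  obtain ⟨hw, hw'⟩ := hw
  refine ⟨by rw [map_mul, map_mul, hw, mul_one, map_inv, mul_inv_cancel], ?_⟩
  have : fox θ (y * w * y⁻¹) = (MonoidAlgebra.of ℤ G (θ y)) • fox θ w := by
    funext x
    rw [fox_mul, fox_mul, fox_inv, map_mul θ, hw, mul_one, mul_neg, ← mul_assoc,
      ← map_mul (MonoidAlgebra.of ℤ G), mul_inv_cancel, map_one (MonoidAlgebra.of ℤ G), one_mul,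
      Pi.smul_apply, smul_eq_mul]
    abel
  rw [this]; exact Submodule.smul_mem _ _ hw'

theorem ker_le_foxKer (hker : θ.ker = Subgroup.normalClosure (Set.range P.rel)) :
    θ.ker ≤ foxKer P θ := by
  rw [hker]
  apply Subgroup.normalClosure_le_normal
  rintro _ ⟨y, rfl⟩
  have h1 : P.rel y ∈ θ.ker := by
    rw [hker]; exact Subgroup.subset_normalClosure ⟨y, rfl⟩
  refine ⟨h1, ?_⟩
  rw [mem_rowSpan]
  refine ⟨Pi.single y 1, ?_⟩
  rw [Matrix.single_one_vecMul]
  rfl

theorem pres_ex (hsurj : Function.Surjective θ)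
    (hker : θ.ker = Subgroup.normalClosure (Set.range P.rel)) (v : P.X → MonoidAlgebra ℤ G)
    (hv : v ᵥ* (presCx P θ).D1 = 0) : ∃ u : P.Y → MonoidAlgebra ℤ G, u ᵥ* (presCx P θ).D2 = v := by
  -- the derivation `G → A`
  let A := (P.X → MonoidAlgebra ℤ G) ⧸ rowSpan P θ
  let q : (P.X → MonoidAlgebra ℤ G) →ₗ[MonoidAlgebra ℤ G] A := (rowSpan P θ).mkQ
  let δ : FreeGroup P.X → A := fun w => q (fox θ w)
  have hδmul : ∀ u v, δ (u * v) = δ u + MonoidAlgebra.of ℤ G (θ u) • δ v := by
    intro u v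
    show q _ = q _ + _ • q _
    rw [← map_smul, ← map_add]
    congr 1
    funext x; rw [fox_mul]; rfl
  have hδker : ∀ w, θ w = 1 → δ w = 0 := by
    intro w hw
    have := (ker_le_foxKer P θ hker hw).2
    exact (Submodule.Quotient.mk_eq_zero _).mpr this
  have hδeq : ∀ u v, θ u = θ v → δ u = δ v := by
    intro u v huv
    have h1 : u = v * (v⁻¹ * u) := by group
    have h2 : δ (v⁻¹ * u) = 0 := hδker _ (by rw [map_mul, map_inv, huv, inv_mul_cancel])
    rw [h1, hδmul, h2, smul_zero, add_zero]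
  let d : G → A := fun g => δ (Function.surjInv hsurj g)
  have hd : ∀ w, d (θ w) = δ w := fun w => hδeq _ _ (Function.surjInv_eq hsurj _)
  have hdmul : ∀ g h, d (g * h) = d g + MonoidAlgebra.of ℤ G g • d h := by
    intro g h
    obtain ⟨u, rfl⟩ := hsurj g
    obtain ⟨v, rfl⟩ := hsurj h
    rw [← map_mul, hd, hd, hd, hδmul]
  let ψ : MonoidAlgebra ℤ G →+ A :=
    { toFun := fun a => a.coeff.sum fun g n => n • d g
      map_zero' := by simp
      map_add' := by
        intro a b
        rw [MonoidAlgebra.coeff_add]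
        exact Finsupp.sum_add_index' (h := fun (g : G) (n : ℤ) => n • d g)
          (fun g => zero_smul ℤ (d g)) (fun g m n => add_smul m n (d g)) }
  have hψof : ∀ g, ψ (MonoidAlgebra.of ℤ G g) = d g := by
    intro g
    show (MonoidAlgebra.of ℤ G g).coeff.sum (fun (g : G) (n : ℤ) => n • d g) = _
    rw [MonoidAlgebra.of_apply, MonoidAlgebra.coeff_single, Finsupp.sum_single_index] <;> simp
  have hψ : ∀ (a : MonoidAlgebra ℤ G) (x : P.X),
      ψ (a * (MonoidAlgebra.of ℤ G (θ (FreeGroup.of x)) - 1)) = a • q (Pi.single x 1) := by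
    intro a x
    induction a using MonoidAlgebra.induction_on with
    | of g =>
      rw [mul_sub, mul_one, map_sub, ← map_mul, hψof, hψof, hdmul, add_sub_cancel_left, hd]
      congr 1
      show q _ = q _
      congr 1
      funext y
      rw [fox_of, Pi.single_apply]
    | add a b ha hb => rw [add_mul, map_add, ha, hb, add_smul]
    | smul r a ha =>
      rw [smul_mul_assoc, map_zsmul, ha]
      rw [smul_assoc]
  have h1 : ψ ((v ᵥ* (presCx P θ).D1) ()) = q v := by
    rw [vecMul_D1, map_sum]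
    simp only [hψ]
    simp only [← map_smul]
    rw [← map_sum]
    congr 1
    funext y
    simp [Finset.sum_apply, Pi.single_apply]
  rw [hv] at h1
  have h2 : q v = 0 := by rw [← h1]; exact map_zero ψ
  exact (Submodule.Quotient.mk_eq_zero _).mp h2

theorem pres_Ex (hsurj : Function.Surjective θ)
    (hker : θ.ker = Subgroup.normalClosure (Set.range P.rel)) : Ex (presCx P θ) where
  im1 := pres_im1 P θ hsurj
  im1' := pres_im1' P θ
  ex := pres_ex P θ hsurj hker
  dd := pres_dd P θ fun y => by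
    have : P.rel y ∈ θ.ker := by rw [hker]; exact Subgroup.subset_normalClosure ⟨y, rfl⟩
    exact this

end

/-- the projection determined by an isomorphism of the fundamental group with `G` -/
def theta (P : Pres) (α : P.Pi1 ≃* G) : FreeGroup P.X →* G := α.toMonoidHom.comp P.proj

theorem theta_surjective (P : Pres) (α : P.Pi1 ≃* G) : Function.Surjective (theta P α) := by
  unfold theta
  rw [MonoidHom.coe_comp]
  exact α.surjective.comp (QuotientGroup.mk'_surjective _)

theorem theta_ker (P : Pres) (α : P.Pi1 ≃* G) :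
    (theta P α).ker = Subgroup.normalClosure (Set.range P.rel) := by
  ext w
  rw [MonoidHom.mem_ker]
  show α (P.proj w) = 1 ↔ _
  rw [map_eq_one_iff α α.injective]
  exact QuotientGroup.eq_one_iff w

theorem pres_Ex' (P : Pres) (α : P.Pi1 ≃* G) : Ex (presCx P (theta P α)) :=
  pres_Ex P _ (theta_surjective P α) (theta_ker P α)

end H842
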