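import Pool.Agent.H842R2.TopC

/-! Existence of chain maps, homotopies, and homotopy equivalences. -/

open Matrix

namespace H842

open H970SH

section general

variable {R : Type} [Ring R]

/-- matrix with given rows -/
theorem vecMul_row {ι κ : Type} [Fintype ι] [DecidableEq ι] (M : Matrix ι κ R)
    (i : ι) : Pi.single i 1 ᵥ* M = M i := by
  rw [Matrix.single_one_vecMul]; rfl

/-- two matrices inducing the same map -/
theorem matrix_ext_vecMul {ι κ : Type} [Fintype ι] [DecidableEq ι]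
    {M N : Matrix ι κ R} (h : ∀ v : ι → R, v ᵥ* M = v ᵥ* N) : M = N := by
  refine Matrix.ext fun i j => ?_
  have := congrFun (h (Pi.single i 1)) j
  rwa [vecMul_row, vecMul_row] at this

/-- a bijective matrix is invertible -/
theorem inv2_of_bijective {ι κ : Type} [Fintype ι] [DecidableEq ι] [Fintype κ] [DecidableEq κ]
    (Φ : Matrix ι κ R) (hinj : ∀ v : ι → R, v ᵥ* Φ = 0 → v = 0)
    (hsurj : ∀ z : κ → R, ∃ v : ι → R, v ᵥ* Φ = z) : Inv2 Φ := by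
  have h1 : Function.Injective (Matrix.vecMulLinear Φ) := by
    rw [← LinearMap.ker_eq_bot, LinearMap.ker_eq_bot']
    exact hinj
  let E : (ι → R) ≃ₗ[R] (κ → R) := LinearEquiv.ofBijective (Matrix.vecMulLinear Φ) ⟨h1, hsurj⟩
  let Ψ : Matrix κ ι R := LinearMap.toMatrixRight' (E.symm : (κ → R) →ₗ[R] (ι → R))
  have hΨ : ∀ v, v ᵥ* Ψ = E.symm v := by
    intro v
    have : Ψ.vecMulLinear = (E.symm : (κ → R) →ₗ[R] (ι → R)) :=
      LinearMap.toMatrixRight'.symm_apply_apply _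
    exact LinearMap.congr_fun this v
  refine ⟨Ψ, ?_, ?_⟩
  · refine matrix_ext_vecMul fun v => ?_
    rw [← Matrix.vecMul_vecMul, hΨ, Matrix.vecMul_one]
    exact E.symm_apply_apply v
  · refine matrix_ext_vecMul fun v => ?_
    rw [← Matrix.vecMul_vecMul, hΨ, Matrix.vecMul_one]
    exact E.apply_symm_apply v

theorem inv2_of_exact {X Y X' Y' : Type} [Fintype X] [DecidableEq X] [Fintype Y] [DecidableEq Y]
    [Fintype X'] [DecidableEq X'] [Fintype Y'] [DecidableEq Y']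
    (D1 : Matrix X Unit R) (D2 : Matrix Y X R) (D1' : Matrix X' Unit R) (D2' : Matrix Y' X' R)
    (hex : ∀ v : X → R, v ᵥ* D1 = 0 → ∃ u : Y → R, u ᵥ* D2 = v) (hdd : D2' * D1' = 0)
    (f1 : Matrix X X' R) (f2 : Matrix Y Y' R) (hf1 : D1 = f1 * D1') (hf2 : D2 * f1 = f2 * D2')
    (s1 : Matrix X' X R) (s2 : Matrix X' Y' R) (hs : s1 * f1 + s2 * D2' = 1)
    (hinj : ∀ m : Y → R, m ᵥ* D2 = 0 → m ᵥ* f2 = 0 → m = 0)
    (hsurj : ∀ m' : Y' → R, m' ᵥ* D2' = 0 → ∃ m : Y → R, m ᵥ* D2 = 0 ∧ m ᵥ* f2 = m') :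
    Inv2 (fromBlocks (-D2) f2 s1 s2) := by
  have hΦ : ∀ (a : Y → R) (b : X' → R), (Sum.elim a b) ᵥ* (fromBlocks (-D2) f2 s1 s2) =
      Sum.elim (a ᵥ* (-D2) + b ᵥ* s1) (a ᵥ* f2 + b ᵥ* s2) := by
    intro a b
    rw [Matrix.vecMul_fromBlocks]
    rfl
  apply inv2_of_bijective
  · intro v hv
    obtain ⟨a, b, rfl⟩ : ∃ (a : Y → R) (b : X' → R), v = Sum.elim a b :=
      ⟨v ∘ Sum.inl, v ∘ Sum.inr, (Sum.elim_comp_inl_inr v).symm⟩
    rw [hΦ] at hv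
    have e1 : a ᵥ* (-D2) + b ᵥ* s1 = 0 := by
      funext x
      have := congrFun hv (Sum.inl x)
      rwa [Sum.elim_inl] at this
    have e2 : a ᵥ* f2 + b ᵥ* s2 = 0 := by
      funext x
      have := congrFun hv (Sum.inr x)
      rwa [Sum.elim_inr] at this
    have e3 : b = 0 := by
      have h6 : (a ᵥ* (-D2) + b ᵥ* s1) ᵥ* f1 + (a ᵥ* f2 + b ᵥ* s2) ᵥ* D2' = b := by
        rw [Matrix.add_vecMul, Matrix.add_vecMul, Matrix.vecMul_vecMul, Matrix.vecMul_vecMul,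
          Matrix.vecMul_vecMul, Matrix.vecMul_vecMul, Matrix.neg_mul, hf2, Matrix.vecMul_neg]
        have : -(a ᵥ* (f2 * D2')) + b ᵥ* (s1 * f1) + (a ᵥ* (f2 * D2') + b ᵥ* (s2 * D2')) =
            b ᵥ* (s1 * f1) + b ᵥ* (s2 * D2') := by abel
        rw [this, ← Matrix.vecMul_add, hs, Matrix.vecMul_one]
      rw [e1, e2, Matrix.zero_vecMul, Matrix.zero_vecMul, add_zero] at h6
      exact h6.symm
    rw [e3, Matrix.zero_vecMul, add_zero] at e1 e2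
    rw [Matrix.vecMul_neg, neg_eq_zero] at e1
    have e4 := hinj _ e1 e2
    rw [e3, e4]
    funext z
    rcases z with z | z <;> rfl
  · intro z
    obtain ⟨p, q, rfl⟩ : ∃ (p : X → R) (q : Y' → R), z = Sum.elim p q :=
      ⟨z ∘ Sum.inl, z ∘ Sum.inr, (Sum.elim_comp_inl_inr z).symm⟩
    obtain ⟨x', hx'⟩ : ∃ x', x' = p ᵥ* f1 + q ᵥ* D2' := ⟨_, rfl⟩
    have h7 : (p - x' ᵥ* s1) ᵥ* f1 + (q - x' ᵥ* s2) ᵥ* D2' = 0 := by
      rw [Matrix.sub_vecMul, Matrix.sub_vecMul, Matrix.vecMul_vecMul, Matrix.vecMul_vecMul]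
      have : p ᵥ* f1 - x' ᵥ* (s1 * f1) + (q ᵥ* D2' - x' ᵥ* (s2 * D2')) =
          (p ᵥ* f1 + q ᵥ* D2') - (x' ᵥ* (s1 * f1) + x' ᵥ* (s2 * D2')) := by abel
      rw [this, ← Matrix.vecMul_add, hs, Matrix.vecMul_one, hx', sub_self]
    have h8 : (p - x' ᵥ* s1) ᵥ* D1 = 0 := by
      have h9 : (p - x' ᵥ* s1) ᵥ* f1 = - ((q - x' ᵥ* s2) ᵥ* D2') := eq_neg_of_add_eq_zero_left h7
      rw [hf1, ← Matrix.vecMul_vecMul, h9, Matrix.neg_vecMul, Matrix.vecMul_vecMul, hdd,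
        Matrix.vecMul_zero, neg_zero]
    obtain ⟨y, hy⟩ := hex _ h8
    have h10 : ((q - x' ᵥ* s2) + y ᵥ* f2) ᵥ* D2' = 0 := by
      rw [Matrix.add_vecMul, Matrix.vecMul_vecMul y, ← hf2, ← Matrix.vecMul_vecMul, hy, add_comm]
      exact h7
    obtain ⟨m, hm1, hm2⟩ := hsurj _ h10
    refine ⟨Sum.elim (m - y) x', ?_⟩
    rw [hΦ]
    congr 1
    · rw [Matrix.vecMul_neg, Matrix.sub_vecMul, hm1, hy]
      abel
    · rw [Matrix.sub_vecMul, hm2]
      abel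

end general

variable {G : Type} [Group G]

theorem exists_chainMap {C C' : Cx (MonoidAlgebra ℤ G)} (hC : Ex C) (hC' : Ex C') :
    ∃ (f1 : Matrix C.X C'.X (MonoidAlgebra ℤ G)) (f2 : Matrix C.Y C'.Y (MonoidAlgebra ℤ G)),
      C.D1 = f1 * C'.D1 ∧ C.D2 * f1 = f2 * C'.D2 := by
  have h1 : ∀ x : C.X, ∃ v : C'.X → MonoidAlgebra ℤ G, v ᵥ* C'.D1 = fun _ => C.D1 x () := by
    intro x
    apply hC'.im1
    have := hC.im1' (Pi.single x 1)
    rwa [vecMul_row] at this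
  choose f1 hf1 using h1
  have h1' : C.D1 = Matrix.of f1 * C'.D1 := by
    refine Matrix.ext fun x j => ?_
    have := congrFun (hf1 x) j
    exact this.symm
  have h2 : ∀ y : C.Y, ∃ u : C'.Y → MonoidAlgebra ℤ G,
      u ᵥ* C'.D2 = (C.D2 y) ᵥ* (Matrix.of f1 : Matrix C.X C'.X (MonoidAlgebra ℤ G)) := by
    intro y
    apply hC'.ex
    rw [Matrix.vecMul_vecMul, ← h1']
    have := congrFun hC.dd y
    exact this
  choose f2 hf2 using h2
  refine ⟨Matrix.of f1, Matrix.of f2, h1', ?_⟩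
  refine Matrix.ext fun y j => ?_
  have := congrFun (hf2 y) j
  exact this.symm

/-- two chain maps differ on the kernel by a map defined on all of `C₂` -/
theorem exists_homotopy {C C' : Cx (MonoidAlgebra ℤ G)} (hC' : Ex C')
    {f1 g1 : Matrix C.X C'.X (MonoidAlgebra ℤ G)} {f2 g2 : Matrix C.Y C'.Y (MonoidAlgebra ℤ G)}
    (hf1 : C.D1 = f1 * C'.D1) (hf2 : C.D2 * f1 = f2 * C'.D2)
    (hg1 : C.D1 = g1 * C'.D1) (hg2 : C.D2 * g1 = g2 * C'.D2) :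
    ∃ φ : Matrix C.Y C'.Y (MonoidAlgebra ℤ G), φ * C'.D2 = 0 ∧
      ∀ m : C.Y → MonoidAlgebra ℤ G, m ᵥ* C.D2 = 0 → m ᵥ* φ = m ᵥ* f2 - m ᵥ* g2 := by
  have h1 : ∀ x : C.X, ∃ u : C'.Y → MonoidAlgebra ℤ G,
      u ᵥ* C'.D2 = Pi.single x 1 ᵥ* (f1 - g1) := by
    intro x
    apply hC'.ex
    rw [Matrix.vecMul_vecMul, Matrix.sub_mul, ← hf1, ← hg1, sub_self]
    exact Matrix.vecMul_zero _
  choose h hh using h1
  have h2 : (Matrix.of h : Matrix C.X C'.Y (MonoidAlgebra ℤ G)) * C'.D2 = f1 - g1 := by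
    refine Matrix.ext fun x j => ?_
    have h3 := congrFun (hh x) j
    rw [vecMul_row] at h3
    exact h3
  refine ⟨f2 - g2 - C.D2 * Matrix.of h, ?_, ?_⟩
  · rw [Matrix.sub_mul, Matrix.sub_mul, Matrix.mul_assoc, h2, Matrix.mul_sub, hf2, hg2, sub_self]
  · intro m hm
    rw [Matrix.vecMul_sub, Matrix.vecMul_sub, ← Matrix.vecMul_vecMul, hm, Matrix.zero_vecMul,
      sub_zero]

/-- a chain map which is bijective on the kernels is a homotopy equivalence -/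
theorem exists_hasTor {C C' : Cx (MonoidAlgebra ℤ G)} (hC : Ex C) (hC' : Ex C')
    (hcard : Fintype.card C.Y + Fintype.card C'.X = Fintype.card C.X + Fintype.card C'.Y)
    (f1 : Matrix C.X C'.X (MonoidAlgebra ℤ G)) (f2 : Matrix C.Y C'.Y (MonoidAlgebra ℤ G))
    (hf1 : C.D1 = f1 * C'.D1) (hf2 : C.D2 * f1 = f2 * C'.D2)
    (hinj : ∀ m : C.Y → MonoidAlgebra ℤ G, m ᵥ* C.D2 = 0 → m ᵥ* f2 = 0 → m = 0)
    (hsurj : ∀ m' : C'.Y → MonoidAlgebra ℤ G, m' ᵥ* C'.D2 = 0 →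
      ∃ m : C.Y → MonoidAlgebra ℤ G, m ᵥ* C.D2 = 0 ∧ m ᵥ* f2 = m') :
    ∃ w, HasTor C C' w := by
  -- surjectivity onto `C'.X`
  have h1 : ∀ x : C'.X, ∃ (a : C.X → MonoidAlgebra ℤ G) (b : C'.Y → MonoidAlgebra ℤ G),
      a ᵥ* f1 + b ᵥ* C'.D2 = Pi.single x 1 := by
    intro x
    obtain ⟨a, ha⟩ := hC.im1 _ (hC'.im1' (Pi.single x 1))
    have h2 : (Pi.single x 1 - a ᵥ* f1) ᵥ* C'.D1 = 0 := by
      rw [Matrix.sub_vecMul, Matrix.vecMul_vecMul, ← hf1, ha]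
      funext u
      exact sub_self _
    obtain ⟨b, hb⟩ := hC'.ex _ h2
    exact ⟨a, b, by rw [hb]; abel⟩
  choose a b hab using h1
  have hs : (Matrix.of a : Matrix C'.X C.X (MonoidAlgebra ℤ G)) * f1 +
      (Matrix.of b : Matrix C'.X C'.Y (MonoidAlgebra ℤ G)) * C'.D2 = 1 := by
    refine Matrix.ext fun x j => ?_
    have h4 := congrFun (hab x) j
    have h5 : (Pi.single x 1 : C'.X → MonoidAlgebra ℤ G) j =
        (1 : Matrix C'.X C'.X (MonoidAlgebra ℤ G)) x j := by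
      rw [Matrix.one_apply, Pi.single_apply]
      by_cases hj : j = x
      · subst hj; simp
      · simp [hj, Ne.symm hj]
    rw [h5] at h4
    exact h4
  have hinv := inv2_of_exact C.D1 C.D2 C'.D1 C'.D2 hC.ex hC'.dd f1 f2 hf1 hf2 _ _ hs hinj hsurj
  obtain ⟨w, hw⟩ := hinv.exists_RC (by simpa using hcard)
  exact ⟨w, f1, f2, _, _, hf1, hf2, hs, hw⟩

end H842
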