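import Pool.Agent.H842R2.TopD

/-! `k`-invariants. -/

open Matrix

namespace H842

open H970SH

section general

variable {G : Type} [Group G]

/-- an additive map commuting with `G` is linear over the group ring -/
def ofAdd {V W : Type} [AddCommGroup V] [AddCommGroup W] [Module (MonoidAlgebra ℤ G) V]
    [Module (MonoidAlgebra ℤ G) W] (f : V →+ W)
    (h : ∀ (g : G) (v : V), f (MonoidAlgebra.of ℤ G g • v) = MonoidAlgebra.of ℤ G g • f v) :
    V →ₗ[MonoidAlgebra ℤ G] W where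
  toFun := f
  map_add' := f.map_add
  map_smul' := by
    intro a v
    rw [RingHom.id_apply]
    induction a using MonoidAlgebra.induction_on with
    | of g => exact h g v
    | add a b ha hb => rw [add_smul, map_add, ha, hb, add_smul]
    | smul r a ha => rw [smul_assoc, map_zsmul, ha, smul_assoc]

theorem ofAdd_apply {V W : Type} [AddCommGroup V] [AddCommGroup W] [Module (MonoidAlgebra ℤ G) V]
    [Module (MonoidAlgebra ℤ G) W] (f : V →+ W)
    (h : ∀ (g : G) (v : V), f (MonoidAlgebra.of ℤ G g • v) = MonoidAlgebra.of ℤ G g • f v) (v : V) :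
    ofAdd f h v = f v := rfl

/-- averaging: a `|G|`-multiple of a linear map on a `ℤ`-direct summand extends -/
theorem exists_extension [Fintype G] {V W : Type} [AddCommGroup V] [AddCommGroup W]
    [Module (MonoidAlgebra ℤ G) V] [Module (MonoidAlgebra ℤ G) W]
    (M : Submodule (MonoidAlgebra ℤ G) V) (r : V →+ M) (hr : ∀ m : M, r m = m)
    (χ : M →ₗ[MonoidAlgebra ℤ G] W) :
    ∃ ψ : V →ₗ[MonoidAlgebra ℤ G] W, ∀ m : M, ψ m = (Fintype.card G : ℤ) • χ m := by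
  let F : V →+ W := ∑ g : G, ((DistribMulAction.toAddMonoidHom W (MonoidAlgebra.of ℤ G g)).comp
    ((χ.toAddMonoidHom.comp r).comp
      (DistribMulAction.toAddMonoidHom V (MonoidAlgebra.of ℤ G g⁻¹))))
  have hF : ∀ v, F v = ∑ g : G, MonoidAlgebra.of ℤ G g • χ (r (MonoidAlgebra.of ℤ G g⁻¹ • v)) := by
    intro v
    show (∑ g : G, _ : V →+ W) v = _
    rw [AddMonoidHom.finset_sum_apply]
    rfl
  have hG : ∀ (g : G) (v : V), F (MonoidAlgebra.of ℤ G g • v) = MonoidAlgebra.of ℤ G g • F v := by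
    intro h v
    rw [hF, hF, Finset.smul_sum]
    apply Fintype.sum_equiv (Equiv.mulLeft h⁻¹)
    intro g
    rw [Equiv.coe_mulLeft, smul_smul, smul_smul, ← map_mul, ← map_mul]
    congr 2
    · group
    · congr 2
      group
  refine ⟨ofAdd F hG, fun m => ?_⟩
  rw [ofAdd_apply, hF]
  have : ∀ g : G, MonoidAlgebra.of ℤ G g • χ (r (MonoidAlgebra.of ℤ G g⁻¹ • (m : V))) = χ m := by
    intro g
    have h1 : MonoidAlgebra.of ℤ G g⁻¹ • (m : V) = ((MonoidAlgebra.of ℤ G g⁻¹ • m : M) : V) := rfl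
    rw [h1, hr, map_smul, smul_smul, ← map_mul, mul_inv_cancel, map_one, one_smul]
  simp only [this, Finset.sum_const, Finset.card_univ]
  rw [natCast_zsmul]

end general

section kinv

variable {G : Type} [Group G]

/-- the kernel of `C₂ → C₁`, i.e. `π₂` -/
noncomputable def Mod2 (C : Cx (MonoidAlgebra ℤ G)) :
    Submodule (MonoidAlgebra ℤ G) (C.Y → MonoidAlgebra ℤ G) :=
  LinearMap.ker (Matrix.vecMulLinear C.D2)

theorem mem_Mod2 {C : Cx (MonoidAlgebra ℤ G)} (v : C.Y → MonoidAlgebra ℤ G) :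
    v ∈ Mod2 C ↔ v ᵥ* C.D2 = 0 := Iff.rfl

/-- the map induced on `π₂` -/
noncomputable def resMap {C C' : Cx (MonoidAlgebra ℤ G)} (f1 : Matrix C.X C'.X (MonoidAlgebra ℤ G))
    (f2 : Matrix C.Y C'.Y (MonoidAlgebra ℤ G)) (h : C.D2 * f1 = f2 * C'.D2) :
    Mod2 C →ₗ[MonoidAlgebra ℤ G] Mod2 C' :=
  (Matrix.vecMulLinear f2).restrict (p := Mod2 C) (q := Mod2 C') (by
    intro v hv
    rw [mem_Mod2] at hv ⊢
    show (v ᵥ* f2) ᵥ* C'.D2 = 0
    rw [Matrix.vecMul_vecMul, ← h, ← Matrix.vecMul_vecMul, hv, Matrix.zero_vecMul])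

theorem resMap_apply {C C' : Cx (MonoidAlgebra ℤ G)} (f1 : Matrix C.X C'.X (MonoidAlgebra ℤ G))
    (f2 : Matrix C.Y C'.Y (MonoidAlgebra ℤ G)) (h : C.D2 * f1 = f2 * C'.D2) (m : Mod2 C) :
    (resMap f1 f2 h m : C'.Y → MonoidAlgebra ℤ G) = (m : C.Y → MonoidAlgebra ℤ G) ᵥ* f2 := rfl

/-- `C₂` retracts additively onto `π₂`. -/
theorem exists_retraction [Finite G] (C : Cx (MonoidAlgebra ℤ G)) :
    ∃ r : (C.Y → MonoidAlgebra ℤ G) →+ Mod2 C, ∀ m : Mod2 C, r m = m := by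
  let f : (C.Y → MonoidAlgebra ℤ G) →ₗ[ℤ] (C.X → MonoidAlgebra ℤ G) :=
    (Matrix.vecMulLinear C.D2).toAddMonoidHom.toIntLinearMap
  let g := f.rangeRestrict
  have hg : Function.Surjective g := f.surjective_rangeRestrict
  obtain ⟨s, hs⟩ := Module.projective_lifting_property g LinearMap.id hg
  have hs' : ∀ y, g (s y) = y := fun y => LinearMap.congr_fun hs y
  let r0 : (C.Y → MonoidAlgebra ℤ G) →ₗ[ℤ] (C.Y → MonoidAlgebra ℤ G) := LinearMap.id - s ∘ₗ g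
  have hr0 : ∀ v, r0 v ∈ Mod2 C := by
    intro v
    rw [mem_Mod2]
    show (v - s (g v)) ᵥ* C.D2 = 0
    rw [Matrix.sub_vecMul, sub_eq_zero]
    have := congrArg Subtype.val (hs' (g v))
    exact this.symm
  refine ⟨AddMonoidHom.mk' (fun v => (⟨r0 v, hr0 v⟩ : Mod2 C))
    (fun a b => Subtype.ext (map_add r0 a b)), ?_⟩
  intro m
  apply Subtype.ext
  show (m : C.Y → MonoidAlgebra ℤ G) - s (g m) = m
  have : g m = 0 := by
    apply Subtype.ext
    exact m.2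
  rw [this, map_zero, sub_zero]

/-- The main existence result: same lattice and same `k`-invariant modulo `|G|` implies homotopy
equivalent. -/
theorem kinv [Fintype G] {d0 d : ℕ} (C0 C C' : Cx (MonoidAlgebra ℤ G)) (hC0 : Ex C0) (hC : Ex C)
    (hC' : Ex C')
    (hcard : Fintype.card C.Y + Fintype.card C'.X = Fintype.card C.X + Fintype.card C'.Y)
    (b0 : Module.Basis (Fin d0) ℤ (Mod2 C0)) (b : Module.Basis (Fin d) ℤ (Mod2 C))
    (b' : Module.Basis (Fin d) ℤ (Mod2 C'))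
    (hρ : ∀ (g : G) (i j : Fin d), b.repr (MonoidAlgebra.of ℤ G g • b i) j =
      b'.repr (MonoidAlgebra.of ℤ G g • b' i) j)
    (f1 : Matrix C0.X C.X (MonoidAlgebra ℤ G)) (f2 : Matrix C0.Y C.Y (MonoidAlgebra ℤ G))
    (hf1 : C0.D1 = f1 * C.D1) (hf2 : C0.D2 * f1 = f2 * C.D2)
    (f1' : Matrix C0.X C'.X (MonoidAlgebra ℤ G)) (f2' : Matrix C0.Y C'.Y (MonoidAlgebra ℤ G))
    (hf1' : C0.D1 = f1' * C'.D1) (hf2' : C0.D2 * f1' = f2' * C'.D2)
    (hk : ∀ i j, ((Fintype.card G : ℕ) : ℤ) ∣ b.repr (resMap f1 f2 hf2 (b0 i)) j -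
      b'.repr (resMap f1' f2' hf2' (b0 i)) j) :
    ∃ w, HasTor C C' w := by
  classical
  let β0 : Mod2 C ≃ₗ[ℤ] Mod2 C' := b.equiv b' (Equiv.refl _)
  have hβ0 : ∀ m j, b'.repr (β0 m) j = b.repr m j := by
    intro m j
    have h1 : b'.coord j ∘ₗ (β0 : Mod2 C →ₗ[ℤ] Mod2 C') = b.coord j := by
      apply b.ext
      intro i
      show b'.repr (b.equiv b' (Equiv.refl _) (b i)) j = b.repr (b i) j
      rw [Module.Basis.equiv_apply, Module.Basis.repr_self, Module.Basis.repr_self]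
      rfl
    exact LinearMap.congr_fun h1 m
  have hβG : ∀ (g : G) (m : Mod2 C), β0 (MonoidAlgebra.of ℤ G g • m) =
      MonoidAlgebra.of ℤ G g • β0 m := by
    intro g
    let L1 : Mod2 C →ₗ[ℤ] Mod2 C' := (β0 : Mod2 C →ₗ[ℤ] Mod2 C') ∘ₗ
      (DistribMulAction.toAddMonoidHom (Mod2 C) (MonoidAlgebra.of ℤ G g)).toIntLinearMap
    let L2 : Mod2 C →ₗ[ℤ] Mod2 C' :=
      (DistribMulAction.toAddMonoidHom (Mod2 C') (MonoidAlgebra.of ℤ G g)).toIntLinearMap ∘ₗ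
      (β0 : Mod2 C →ₗ[ℤ] Mod2 C')
    have h12 : L1 = L2 := by
      apply b.ext
      intro i
      show β0 (MonoidAlgebra.of ℤ G g • b i) = MonoidAlgebra.of ℤ G g • β0 (b i)
      have h3 : β0 (b i) = b' i := by
        show b.equiv b' (Equiv.refl _) (b i) = _
        rw [Module.Basis.equiv_apply]; rfl
      rw [h3]
      apply b'.repr.injective
      ext j
      rw [hβ0, hρ]
    exact fun m => LinearMap.congr_fun h12 m
  let β : Mod2 C →ₗ[MonoidAlgebra ℤ G] Mod2 C' := ofAdd β0.toLinearMap.toAddMonoidHom hβG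
  have hβ : ∀ m, β m = β0 m := fun m => rfl
  -- the difference of the k-invariants
  let κ : Mod2 C0 →ₗ[MonoidAlgebra ℤ G] Mod2 C' := β ∘ₗ resMap f1 f2 hf2 - resMap f1' f2' hf2'
  have hκ : ∀ (m : Mod2 C0) (j : Fin d), ((Fintype.card G : ℕ) : ℤ) ∣ b'.repr (κ m) j := by
    intro m j
    -- linear functional
    let ℓ : Mod2 C0 →ₗ[ℤ] ℤ := (b'.coord j) ∘ₗ κ.toAddMonoidHom.toIntLinearMap
    have hℓ : ∀ m, ℓ m = b'.repr (κ m) j := fun m => rfl
    rw [← hℓ, ← b0.sum_repr m, map_sum]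
    apply Finset.dvd_sum
    intro i _
    rw [map_smul, smul_eq_mul]
    apply Dvd.dvd.mul_left
    rw [hℓ]
    have : b'.repr (κ (b0 i)) j = b.repr (resMap f1 f2 hf2 (b0 i)) j -
      b'.repr (resMap f1' f2' hf2' (b0 i)) j := by
      show b'.repr (β0 (resMap f1 f2 hf2 (b0 i)) - resMap f1' f2' hf2' (b0 i)) j = _
      rw [map_sub, Finsupp.sub_apply, hβ0]
    rw [this]
    exact hk i j
  have hGpos : ((Fintype.card G : ℕ) : ℤ) ≠ 0 := by
    exact_mod_cast Fintype.card_ne_zero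
  have htf : ∀ a c : Mod2 C', ((Fintype.card G : ℕ) : ℤ) • a = ((Fintype.card G : ℕ) : ℤ) • c →
      a = c := by
    intro a c h
    apply b'.repr.injective
    ext j
    have h1 := DFunLike.congr_fun (congrArg b'.repr h) j
    rw [map_smul, map_smul, Finsupp.smul_apply, Finsupp.smul_apply, smul_eq_mul, smul_eq_mul] at h1
    exact mul_left_cancel₀ hGpos h1
  have hχ0 : ∀ m : Mod2 C0, ∃ c : Mod2 C', ((Fintype.card G : ℕ) : ℤ) • c = κ m := by
    intro m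
    choose q hq using hκ m
    refine ⟨∑ j, q j • b' j, ?_⟩
    apply b'.repr.injective
    ext j
    rw [map_smul, Finsupp.smul_apply, map_sum, Finsupp.finset_sum_apply]
    simp only [map_smul, Module.Basis.repr_self, Finsupp.smul_apply, smul_eq_mul]
    rw [Finset.sum_eq_single j]
    · rw [Finsupp.single_eq_same, mul_one, ← hq]
    · intro k _ hkj
      rw [Finsupp.single_eq_of_ne (Ne.symm hkj), mul_zero]
    · simp
  choose χ0 hχ0 using hχ0
  let χ1 : Mod2 C0 →+ Mod2 C' :=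
    { toFun := χ0
      map_zero' := by
        apply htf; rw [hχ0, map_zero, smul_zero]
      map_add' := by
        intro x y
        apply htf; rw [smul_add, hχ0, hχ0, hχ0, map_add] }
  let χ : Mod2 C0 →ₗ[MonoidAlgebra ℤ G] Mod2 C' := ofAdd χ1 (by
    intro g v
    apply htf
    show ((Fintype.card G : ℕ) : ℤ) • χ0 _ = ((Fintype.card G : ℕ) : ℤ) • (_ • χ0 _)
    rw [hχ0, smul_comm, hχ0, map_smul])
  have hχ : ∀ m, ((Fintype.card G : ℕ) : ℤ) • χ m = κ m := fun m => hχ0 m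
  obtain ⟨r, hr⟩ := exists_retraction C0
  obtain ⟨ψ, hψ⟩ := exists_extension (Mod2 C0) r hr χ
  -- φ2 : matrix of the extension
  let φ2 : Matrix C0.Y C'.Y (MonoidAlgebra ℤ G) :=
    LinearMap.toMatrixRight' ((Mod2 C').subtype ∘ₗ ψ)
  have hφ2 : ∀ v, v ᵥ* φ2 = ψ v := by
    intro v
    have : φ2.vecMulLinear = (Mod2 C').subtype ∘ₗ ψ := LinearMap.toMatrixRight'.symm_apply_apply _
    exact LinearMap.congr_fun this v
  have hφ2' : ∀ m : Mod2 C0, (m : C0.Y → MonoidAlgebra ℤ G) ᵥ* φ2 =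
      (β (resMap f1 f2 hf2 m) : C'.Y → MonoidAlgebra ℤ G) - (m : C0.Y → MonoidAlgebra ℤ G) ᵥ* f2' := by
    intro m
    rw [hφ2, hψ, hχ]
    rfl
  have hφ2D : φ2 * C'.D2 = 0 := by
    refine matrix_ext_vecMul fun v => ?_
    rw [← Matrix.vecMul_vecMul, hφ2, Matrix.vecMul_zero]
    exact (ψ v).2
  -- chain maps
  obtain ⟨g1, g2, hg1, hg2⟩ := exists_chainMap hC hC'
  obtain ⟨k1, k2, hk1, hk2⟩ := exists_chainMap hC hC0
  -- φ1
  obtain ⟨φ1, hφ1D, hφ1⟩ := exists_homotopy (C := C0) (C' := C') hC' (f1 := f1 * g1) (g1 := f1')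
    (f2 := f2 * g2) (g2 := f2') (by rw [Matrix.mul_assoc, ← hg1, hf1])
    (by rw [← Matrix.mul_assoc, hf2, Matrix.mul_assoc, hg2, Matrix.mul_assoc]) hf1' hf2'
  -- ω
  obtain ⟨ω, hωD, hω⟩ := exists_homotopy (C := C) (C' := C) hC (f1 := k1 * f1) (g1 := 1)
    (f2 := k2 * f2) (g2 := 1) (by rw [Matrix.mul_assoc, ← hf1, hk1])
    (by rw [← Matrix.mul_assoc, hk2, Matrix.mul_assoc, hf2, Matrix.mul_assoc]) (by simp) (by simp)
  -- ω followed by β
  let ωL : (C.Y → MonoidAlgebra ℤ G) →ₗ[MonoidAlgebra ℤ G] Mod2 C :=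
    (Matrix.vecMulLinear ω).codRestrict (Mod2 C) (by
      intro v
      rw [mem_Mod2]
      show (v ᵥ* ω) ᵥ* C.D2 = 0
      rw [Matrix.vecMul_vecMul, hωD, Matrix.vecMul_zero])
  let ωβ : Matrix C.Y C'.Y (MonoidAlgebra ℤ G) :=
    LinearMap.toMatrixRight' ((Mod2 C').subtype ∘ₗ β ∘ₗ ωL)
  have hωβ : ∀ v, v ᵥ* ωβ = β (ωL v) := by
    intro v
    have : ωβ.vecMulLinear = (Mod2 C').subtype ∘ₗ β ∘ₗ ωL :=
      LinearMap.toMatrixRight'.symm_apply_apply _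
    exact LinearMap.congr_fun this v
  have hωβD : ωβ * C'.D2 = 0 := by
    refine matrix_ext_vecMul fun v => ?_
    rw [← Matrix.vecMul_vecMul, hωβ, Matrix.vecMul_zero]
    exact (β (ωL v)).2
  let θ : Matrix C.Y C'.Y (MonoidAlgebra ℤ G) := k2 * (φ1 - φ2) - (ω * g2 - ωβ)
  have hωg : ω * g2 * C'.D2 = 0 := by
    rw [Matrix.mul_assoc, ← hg2, ← Matrix.mul_assoc, hωD, Matrix.zero_mul]
  have hθD : θ * C'.D2 = 0 := by
    show (k2 * (φ1 - φ2) - (ω * g2 - ωβ)) * C'.D2 = 0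
    rw [Matrix.sub_mul, Matrix.sub_mul, Matrix.mul_assoc, Matrix.sub_mul, hφ1D, hφ2D, sub_self,
      Matrix.mul_zero, hωβD, hωg]
    simp
  have hθ : ∀ m : Mod2 C, (m : C.Y → MonoidAlgebra ℤ G) ᵥ* θ =
      (m : C.Y → MonoidAlgebra ℤ G) ᵥ* g2 - (β m : C'.Y → MonoidAlgebra ℤ G) := by
    intro m
    -- m0
    let m0 : Mod2 C0 := resMap k1 k2 hk2 m
    have hm0 : (m0 : C0.Y → MonoidAlgebra ℤ G) = (m : C.Y → MonoidAlgebra ℤ G) ᵥ* k2 := rfl
    have e1 : (m : C.Y → MonoidAlgebra ℤ G) ᵥ* (k2 * (φ1 - φ2)) =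
        (m0 : C0.Y → MonoidAlgebra ℤ G) ᵥ* φ1 - (m0 : C0.Y → MonoidAlgebra ℤ G) ᵥ* φ2 := by
      rw [← Matrix.vecMul_vecMul, Matrix.vecMul_sub, hm0]
    have e2 : (m0 : C0.Y → MonoidAlgebra ℤ G) ᵥ* φ1 =
        (m0 : C0.Y → MonoidAlgebra ℤ G) ᵥ* (f2 * g2) - (m0 : C0.Y → MonoidAlgebra ℤ G) ᵥ* f2' :=
      hφ1 _ m0.2
    have e3 := hφ2' m0
    -- ω on m
    have e4 : (m : C.Y → MonoidAlgebra ℤ G) ᵥ* ω =
        (m0 : C0.Y → MonoidAlgebra ℤ G) ᵥ* f2 - (m : C.Y → MonoidAlgebra ℤ G) := by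
      rw [hω _ m.2, Matrix.vecMul_one, ← Matrix.vecMul_vecMul, hm0]
    have e5 : resMap f1 f2 hf2 m0 = m + ωL m := by
      apply Subtype.ext
      show (m0 : C0.Y → MonoidAlgebra ℤ G) ᵥ* f2 = (m : C.Y → MonoidAlgebra ℤ G) +
        (m : C.Y → MonoidAlgebra ℤ G) ᵥ* ω
      rw [e4]; abel
    show (m : C.Y → MonoidAlgebra ℤ G) ᵥ* (k2 * (φ1 - φ2) - (ω * g2 - ωβ)) = _
    rw [Matrix.vecMul_sub, Matrix.vecMul_sub, e1, e2, e3, hωβ, e5, map_add, ← Matrix.vecMul_vecMul,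
      ← Matrix.vecMul_vecMul, e4, Matrix.sub_vecMul]
    have e6 : ((β m + β (ωL m) : Mod2 C') : C'.Y → MonoidAlgebra ℤ G) =
      (β m : C'.Y → MonoidAlgebra ℤ G) + (β (ωL m) : C'.Y → MonoidAlgebra ℤ G) := rfl
    rw [e6]
    abel
  -- the corrected chain map
  have hh2 : C.D2 * g1 = (g2 - θ) * C'.D2 := by
    rw [Matrix.sub_mul, hθD, sub_zero, hg2]
  have hres : ∀ m : Mod2 C, (m : C.Y → MonoidAlgebra ℤ G) ᵥ* (g2 - θ) =
      (β m : C'.Y → MonoidAlgebra ℤ G) := by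
    intro m
    rw [Matrix.vecMul_sub, hθ]
    abel
  refine exists_hasTor hC hC' hcard g1 (g2 - θ) hg1 hh2 ?_ ?_
  · intro m hm hm'
    have h1 := hres ⟨m, hm⟩
    rw [hm'] at h1
    have h2 : β0 ⟨m, hm⟩ = 0 := by
      apply Subtype.ext
      exact h1.symm
    have h3 := (LinearEquiv.map_eq_zero_iff β0).mp h2
    exact congrArg Subtype.val h3
  · intro m' hm'
    refine ⟨(β0.symm ⟨m', hm'⟩ : Mod2 C), (β0.symm ⟨m', hm'⟩ : Mod2 C).2, ?_⟩
    rw [hres, hβ, LinearEquiv.apply_symm_apply]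

end kinv

end H842
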