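import Pool.Agent.H842R2.TopE

/-! The rank of `π₂`. -/

open Matrix

namespace H842

open H970SH

variable {G : Type} [Group G]

theorem finrank_groupRing [Fintype G] : Module.finrank ℤ (MonoidAlgebra ℤ G) = Fintype.card G :=
  Module.finrank_eq_card_basis (MonoidAlgebra.basis G ℤ)

instance [Finite G] : Module.Finite ℤ (MonoidAlgebra ℤ G) :=
  Module.Finite.of_basis (MonoidAlgebra.basis G ℤ)

instance : Module.Free ℤ (MonoidAlgebra ℤ G) := Module.Free.of_basis (MonoidAlgebra.basis G ℤ)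

/-- `π₂` as a subgroup of the chains -/
noncomputable def mod2Z (C : Cx (MonoidAlgebra ℤ G)) : Submodule ℤ (C.Y → MonoidAlgebra ℤ G) :=
  LinearMap.ker (Matrix.vecMulLinear C.D2).toAddMonoidHom.toIntLinearMap

noncomputable def mod2Equiv (C : Cx (MonoidAlgebra ℤ G)) : mod2Z C ≃ₗ[ℤ] Mod2 C :=
  { toFun := fun v => ⟨v.1, v.2⟩
    invFun := fun v => ⟨v.1, v.2⟩
    left_inv := fun _ => rfl
    right_inv := fun _ => rfl
    map_add' := fun _ _ => rfl
    map_smul' := fun _ _ => rfl }

instance [Finite G] (C : Cx (MonoidAlgebra ℤ G)) : Module.Finite ℤ (Mod2 C) :=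
  Module.Finite.equiv (mod2Equiv C)

instance [Finite G] (C : Cx (MonoidAlgebra ℤ G)) : Module.Free ℤ (Mod2 C) :=
  Module.Free.of_equiv (mod2Equiv C)

theorem finrank_range_add_ker {R V W : Type} [CommRing R] [IsDomain R] [AddCommGroup V]
    [AddCommGroup W] [Module R V] [Module R W] [Module.Finite R V] (f : V →ₗ[R] W) :
    Module.finrank R (LinearMap.range f) + Module.finrank R (LinearMap.ker f) =
      Module.finrank R V := by
  rw [← Submodule.finrank_quotient_add_finrank (LinearMap.ker f),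
    LinearEquiv.finrank_eq f.quotKerEquivRange]

theorem finrank_Mod2 [Fintype G] (C : Cx (MonoidAlgebra ℤ G)) (hC : Ex C) :
    Module.finrank ℤ (Mod2 C) + Fintype.card C.X * Fintype.card G + 1 =
      Fintype.card C.Y * Fintype.card G + Fintype.card G := by
  have e0 : Module.finrank ℤ (Mod2 C) = Module.finrank ℤ (mod2Z C) :=
    (LinearEquiv.finrank_eq (mod2Equiv C)).symm
  let f2 : (C.Y → MonoidAlgebra ℤ G) →ₗ[ℤ] (C.X → MonoidAlgebra ℤ G) :=
    (Matrix.vecMulLinear C.D2).toAddMonoidHom.toIntLinearMap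
  let f1 : (C.X → MonoidAlgebra ℤ G) →ₗ[ℤ] MonoidAlgebra ℤ G :=
    (LinearMap.proj () : (Unit → MonoidAlgebra ℤ G) →ₗ[ℤ] MonoidAlgebra ℤ G) ∘ₗ
      (Matrix.vecMulLinear C.D1).toAddMonoidHom.toIntLinearMap
  let f0 : MonoidAlgebra ℤ G →ₗ[ℤ] ℤ := (eps G).toLinearMap
  have h2 := finrank_range_add_ker f2
  have h1 := finrank_range_add_ker f1
  have h0 := finrank_range_add_ker f0
  have k2 : LinearMap.range f2 = LinearMap.ker f1 := by
    ext v
    rw [LinearMap.mem_range, LinearMap.mem_ker]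
    constructor
    · rintro ⟨u, rfl⟩
      show ((u ᵥ* C.D2) ᵥ* C.D1) () = 0
      rw [Matrix.vecMul_vecMul, hC.dd, Matrix.vecMul_zero]
      rfl
    · intro hv
      have hv' : v ᵥ* C.D1 = 0 := by
        funext u
        exact hv
      obtain ⟨u, hu⟩ := hC.ex v hv'
      exact ⟨u, hu⟩
  have k1 : LinearMap.range f1 = LinearMap.ker f0 := by
    ext a
    rw [LinearMap.mem_range, LinearMap.mem_ker]
    constructor
    · rintro ⟨u, rfl⟩
      exact hC.im1' u
    · intro ha
      obtain ⟨v, hv⟩ := hC.im1 a ha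
      exact ⟨v, congrFun hv ()⟩
  have k0 : LinearMap.range f0 = ⊤ := by
    rw [LinearMap.range_eq_top]
    intro n
    refine ⟨n • 1, ?_⟩
    show eps G (n • 1) = n
    rw [map_zsmul, map_one]
    simp
  rw [k2] at h2
  rw [k1] at h1
  rw [k0, finrank_top, Module.finrank_self, finrank_groupRing] at h0
  rw [Module.finrank_pi_fintype, Finset.sum_const, Finset.card_univ, smul_eq_mul,
    finrank_groupRing] at h1 h2
  have e2 : Module.finrank ℤ (LinearMap.ker f2) = Module.finrank ℤ (mod2Z C) := rfl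
  rw [e2] at h2
  rw [e0]
  omega

end H842
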