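import Pool.Agent.H842R2.TopF

/-! From torsion zero over `ℤ[G]` to simple homotopy equivalence. -/

open Matrix

namespace H842

open H970SH

variable {G H : Type} [Group G] [Group H]

/-- the ring map of group rings -/
noncomputable abbrev rmap (b : G →* H) : MonoidAlgebra ℤ G →+* MonoidAlgebra ℤ H :=
  MonoidAlgebra.mapDomainRingHom ℤ b

theorem rmap_of (b : G →* H) (g : G) : rmap b (MonoidAlgebra.of ℤ G g) = MonoidAlgebra.of ℤ H (b g) := by
  simp [MonoidAlgebra.of]

theorem wh_map (b : G →* H) {n : ℕ} (U : (Matrix (Fin n) (Fin n) (MonoidAlgebra ℤ G))ˣ)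
    (hU : Wh.mk U = 0) : Wh.mk (mapUnit (rmap b) U) = 0 := by
  obtain ⟨F, hF⟩ := K1map_exists (rmap b)
  have h1 : trivialUnits G ≤ (trivialUnits H).comap F := by
    unfold trivialUnits
    rw [AddSubgroup.closure_le]
    rintro c ⟨g, M, hM, rfl⟩
    rw [AddSubgroup.coe_comap, Set.mem_preimage, ← cl_fin, hF]
    apply AddSubgroup.subset_closure
    refine ⟨b g, mapUnit (rmap b) M, ?_, by rw [cl_fin]⟩
    rw [mapUnit_val, Matrix.map_apply]
    rcases hM with h | h
    · left; rw [h, rmap_of]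
    · right; rw [h, map_neg, rmap_of]
  have h2 : cl U ∈ trivialUnits G := by
    rw [cl_fin]
    unfold Wh.mk at hU
    rwa [QuotientAddGroup.mk'_apply, QuotientAddGroup.eq_zero_iff] at hU
  have h3 := h1 h2
  rw [AddSubgroup.mem_comap, hF] at h3
  unfold Wh.mk
  rw [QuotientAddGroup.mk'_apply, QuotientAddGroup.eq_zero_iff, ← cl_fin]
  exact h3

theorem bd1_map {X : Type} [Fintype X] (θ : FreeGroup X →* G) (b : G →* H) :
    bd1 (b.comp θ) = (bd1 θ).map (rmap b) := by
  refine Matrix.ext fun x j => ?_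
  show MonoidAlgebra.of ℤ H (b (θ (FreeGroup.of x))) - 1 =
    rmap b (MonoidAlgebra.of ℤ G (θ (FreeGroup.of x)) - 1)
  rw [map_sub, rmap_of, map_one]

theorem bd2_map {X Y : Type} [Fintype X] [DecidableEq X] (θ : FreeGroup X →* G)
    (rel : Y → FreeGroup X) (b : G →* H) :
    bd2 (b.comp θ) rel = (bd2 θ rel).map (rmap b) := by
  refine Matrix.ext fun y x => ?_
  exact fox_map θ b (rel y) x

theorem map_fromCols {R S : Type} [Ring R] [Ring S] {ι κ μ : Type} (f : R →+* S)
    (A : Matrix ι κ R) (B : Matrix ι μ R) :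
    (fromCols A B).map f = fromCols (A.map f) (B.map f) := by
  refine Matrix.ext fun i j => ?_
  rcases j with j | j <;> rfl

theorem map_fromRows {R S : Type} [Ring R] [Ring S] {ι κ μ : Type} (f : R →+* S)
    (A : Matrix ι μ R) (B : Matrix κ μ R) :
    (fromRows A B).map f = fromRows (A.map f) (B.map f) := by
  refine Matrix.ext fun i j => ?_
  rcases i with i | i <;> rfl

theorem fromBlocks_eq_rows {R : Type} {ι κ μ ν : Type} (A : Matrix ι κ R) (B : Matrix ι μ R)
    (C : Matrix ν κ R) (D : Matrix ν μ R) :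
    fromBlocks A B C D = fromRows (fromCols A B) (fromCols C D) := by
  refine Matrix.ext fun i j => ?_
  rcases i with i | i <;> rcases j with j | j <;> rfl

theorem mulmap {R S : Type} [Ring R] [Ring S] {ι κ μ : Type} [Fintype κ] (f : R →+* S)
    (A : Matrix ι κ R) (B : Matrix κ μ R) : (A * B).map f = A.map f * B.map f :=
  Matrix.map_mul

theorem simple_of_data (P Q : Pres) (α : P.Pi1 ≃* G) (β : Q.Pi1 ≃* G)
    (f1 : Matrix P.X Q.X (MonoidAlgebra ℤ G)) (f2 : Matrix P.Y Q.Y (MonoidAlgebra ℤ G))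
    (s1 : Matrix Q.X P.X (MonoidAlgebra ℤ G)) (s2 : Matrix Q.X Q.Y (MonoidAlgebra ℤ G))
    (d1 : Matrix P.X Unit (MonoidAlgebra ℤ G)) (d2 : Matrix P.Y P.X (MonoidAlgebra ℤ G))
    (d1' : Matrix Q.X Unit (MonoidAlgebra ℤ G)) (d2' : Matrix Q.Y Q.X (MonoidAlgebra ℤ G))
    (hd1 : d1 = bd1 (theta P α)) (hd2 : d2 = bd2 (theta P α) P.rel)
    (hd1' : d1' = bd1 (theta Q β)) (hd2' : d2' = bd2 (theta Q β) Q.rel)
    (h1 : d1 = f1 * d1') (h2 : d2 * f1 = f2 * d2') (h3 : s1 * f1 + s2 * d2' = 1)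
    (h4 : RC (fromBlocks (-d2) f2 s1 s2) 0) :
    SimpleHomotopyEquivalent P Q := by
  have hinv : Inv2 (fromBlocks (-d2) f2 s1 s2) := h4.inv2
  obtain ⟨N, e, e', U, hU, hw⟩ := h4
  let b : G →* Q.Pi1 := β.symm.toMonoidHom
  let φ : P.Pi1 ≃* Q.Pi1 := α.trans β.symm
  let F := rmap b
  -- the boundary maps
  have hP : φ.toMonoidHom.comp P.proj = b.comp (theta P α) := rfl
  have hQ : Q.proj = b.comp (theta Q β) := by
    ext x
    show Q.proj _ = β.symm (β (Q.proj _))
    rw [MulEquiv.symm_apply_apply]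
  have eD1 : bd1 (φ.toMonoidHom.comp P.proj) = d1.map F := by
    rw [hP, bd1_map, hd1]
  have eD2 : bd2 (φ.toMonoidHom.comp P.proj) P.rel = d2.map F := by
    rw [hP, bd2_map, hd2]
  have eD1' : bd1 Q.proj = d1'.map F := by
    rw [hd1', ← bd1_map, ← hQ]
  have eD2' : bd2 Q.proj Q.rel = d2'.map F := by
    rw [hd2', ← bd2_map, ← hQ]
  -- inverse
  obtain ⟨Ψ, k1, k2⟩ := hinv
  have hcol : Ψ * fromRows (0 : Matrix P.Y Q.X (MonoidAlgebra ℤ G))
      (1 : Matrix Q.X Q.X (MonoidAlgebra ℤ G)) = fromRows f1 d2' := by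
    have : fromBlocks (-d2) f2 s1 s2 * fromRows f1 d2' =
        fromRows (0 : Matrix P.Y Q.X (MonoidAlgebra ℤ G))
          (1 : Matrix Q.X Q.X (MonoidAlgebra ℤ G)) := by
      rw [fromBlocks_mul_fromRows, h3, Matrix.neg_mul, h2, neg_add_cancel]
    rw [← this, ← Matrix.mul_assoc, k2, Matrix.one_mul]
  -- split Ψ into columns
  have hΨ : Ψ = fromCols Ψ.toCols₁ (fromRows f1 d2') := by
    rw [← hcol]
    refine Matrix.ext fun i j => ?_
    rcases j with j | j
    · rfl
    · rw [fromCols_apply_inr, Matrix.mul_apply, Fintype.sum_sum_type]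
      simp [Matrix.one_apply]
  set t := Ψ.toCols₁ with ht
  rw [hΨ, fromBlocks_eq_rows] at k1 k2
  rw [fromRows_mul_fromCols] at k1
  rw [← fromBlocks_one, Matrix.fromBlocks_inj] at k1
  rw [fromCols_mul_fromRows] at k2
  obtain ⟨a1, a2, a3, a4⟩ := k1
  -- the cellular map
  let f : CellularMap P Q φ :=
    { f₁ := f1.map F
      f₂ := f2.map F
      comm₁ := by
        rw [eD1, eD1', ← mulmap, h1]
      comm₂ := by
        rw [eD2, eD2', ← mulmap, ← mulmap, h2] }
  have hbd3 : f.bd3 = (fromCols (-d2) f2).map F := by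
    rw [map_fromCols]
    show fromCols (-(bd2 (φ.toMonoidHom.comp P.proj) P.rel)) (f2.map F) = _
    rw [eD2]
    congr 1
    refine Matrix.ext fun i j => ?_
    exact (map_neg F _).symm
  have hbdm : f.bdm = (fromRows f1 d2').map F := by
    rw [map_fromRows]
    show fromRows (f1.map F) (bd2 Q.proj Q.rel) = _
    rw [eD2']
  have hone : ∀ (ι : Type) [Fintype ι] [DecidableEq ι],
      (1 : Matrix ι ι (MonoidAlgebra ℤ G)).map F = 1 := by
    intro ι _ _
    exact Matrix.map_one F (map_zero F) (map_one F)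
  let c : Contraction f :=
    { s := (fromCols s1 s2).map F
      t := t.map F
      left := by
        rw [hbdm, ← mulmap, fromCols_mul_fromRows, h3]
        exact hone _
      mid := by
        rw [hbd3, hbdm, ← mulmap, ← mulmap]
        have := congrArg (fun M => M.map F) k2
        rw [show (1 : Matrix (P.X ⊕ Q.Y) (P.X ⊕ Q.Y) (MonoidAlgebra ℤ Q.Pi1)) =
          (1 : Matrix (P.X ⊕ Q.Y) (P.X ⊕ Q.Y) (MonoidAlgebra ℤ G)).map F from (hone _).symm]
        refine Eq.trans ?_ this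
        refine Matrix.ext fun i j => ?_
        exact (map_add F _ _).symm
      right := by
        rw [hbd3, ← mulmap, a1]
        exact hone _ }
  refine ⟨φ, f, c, N, e, e', mapUnit F U, ?_, wh_map b U hw⟩
  rw [mapUnit_val, hU]
  have : fromRows f.bd3 c.s = (fromBlocks (-d2) f2 s1 s2).map F := by
    rw [hbd3, fromBlocks_eq_rows, map_fromRows]
  rw [this]
  rfl

theorem simple_of_hasTor (P Q : Pres) (α : P.Pi1 ≃* G) (β : Q.Pi1 ≃* G)
    (h : HasTor (presCx P (theta P α)) (presCx Q (theta Q β)) 0) :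
    SimpleHomotopyEquivalent P Q := by
  obtain ⟨f1, f2, s1, s2, h1, h2, h3, h4⟩ := h
  exact simple_of_data P Q α β f1 f2 s1 s2 _ _ _ _ rfl rfl rfl rfl h1 h2 h3 h4

end H842
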