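import Pool.Agent.H842R2.TopG

/-! Bases of `π₂` in which `G` acts by matrices from a finite set. -/

open Matrix

namespace H842

open H970SH

variable {G : Type} [Group G]

theorem exists_good_basis (d : ℕ) (Φ : Set (Matrix (Fin d) (Fin d) ℤ)ˣ)
    (hΦ : ∀ (ρ : G →* (Matrix (Fin d) (Fin d) ℤ)ˣ),
      ∃ γ : (Matrix (Fin d) (Fin d) ℤ)ˣ, ∀ g, γ * ρ g * γ⁻¹ ∈ Φ)
    (M : Type) [AddCommGroup M] [Module (MonoidAlgebra ℤ G) M] [Module.Free ℤ M]
    [Module.Finite ℤ M] (hd : Module.finrank ℤ M = d) :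
    ∃ b : Module.Basis (Fin d) ℤ M, ∀ g : G, ∃ u ∈ Φ, ∀ i j,
      b.repr (MonoidAlgebra.of ℤ G g • b i) j = (u : Matrix (Fin d) (Fin d) ℤ) j i := by
  classical
  let b0 : Module.Basis (Fin d) ℤ M := (Module.finBasis ℤ M).reindex (finCongr hd)
  let act : G →* Module.End ℤ M :=
    { toFun := fun g => (DistribMulAction.toAddMonoidHom M (MonoidAlgebra.of ℤ G g)).toIntLinearMap
      map_one' := by
        ext m
        show MonoidAlgebra.of ℤ G 1 • m = m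
        rw [map_one, one_smul]
      map_mul' := by
        intro g h
        ext m
        show MonoidAlgebra.of ℤ G (g * h) • m = MonoidAlgebra.of ℤ G g • MonoidAlgebra.of ℤ G h • m
        rw [map_mul, mul_smul] }
  let ρ0 : G →* Matrix (Fin d) (Fin d) ℤ :=
    ((LinearMap.toMatrixAlgEquiv b0).toRingEquiv.toRingHom.toMonoidHom).comp act
  let ρ : G →* (Matrix (Fin d) (Fin d) ℤ)ˣ := ρ0.toHomUnits
  have hρ : ∀ g m, b0.equivFun (MonoidAlgebra.of ℤ G g • m) =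
      (ρ g : Matrix (Fin d) (Fin d) ℤ) *ᵥ (b0.equivFun m) := by
    intro g m
    exact (LinearMap.toMatrix_mulVec_repr b0 b0 (act g) m).symm
  obtain ⟨γ, hγ⟩ := hΦ ρ
  let E : (Fin d → ℤ) ≃ₗ[ℤ] (Fin d → ℤ) :=
    Matrix.toLin'OfInv (M := ((γ⁻¹ : (Matrix (Fin d) (Fin d) ℤ)ˣ) : Matrix (Fin d) (Fin d) ℤ))
      (M' := (γ : Matrix (Fin d) (Fin d) ℤ)) γ.inv_mul γ.mul_inv
  let b : Module.Basis (Fin d) ℤ M := Module.Basis.ofEquivFun (b0.equivFun.trans E)
  have hb : ∀ m, b.equivFun m = (γ : Matrix (Fin d) (Fin d) ℤ) *ᵥ (b0.equivFun m) := by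
    intro m
    show (Module.Basis.ofEquivFun (b0.equivFun.trans E)).equivFun m = _
    rw [Module.Basis.equivFun_ofEquivFun]
    rfl
  refine ⟨b, fun g => ⟨_, hγ g, ?_⟩⟩
  intro i j
  have h1 : b.equivFun (b i) = Pi.single i 1 := by
    funext k
    rw [Module.Basis.equivFun_self, Pi.single_apply]
    by_cases hik : i = k
    · subst hik; simp
    · simp [hik, Ne.symm hik]
  have h2 : b0.equivFun (b i) = ((γ⁻¹ : (Matrix (Fin d) (Fin d) ℤ)ˣ) : Matrix (Fin d) (Fin d) ℤ) *ᵥ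
      Pi.single i 1 := by
    rw [← h1, hb, Matrix.mulVec_mulVec, γ.inv_mul, Matrix.one_mulVec]
  have h3 : b.equivFun (MonoidAlgebra.of ℤ G g • b i) =
      ((γ * ρ g * γ⁻¹ : (Matrix (Fin d) (Fin d) ℤ)ˣ) : Matrix (Fin d) (Fin d) ℤ) *ᵥ
      Pi.single i 1 := by
    rw [hb, hρ, h2, Matrix.mulVec_mulVec, Matrix.mulVec_mulVec, Units.val_mul, Units.val_mul]
  have h4 := congrFun h3 j
  rw [Matrix.mulVec_single_one] at h4
  exact h4

end H842
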